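import Pool.Agent.R866.TF.Emb

/-! The total space: closedness and the covering map. -/

set_option linter.all false

open scoped LinearAlgebra.Projectivization Topology

namespace Pool.Agent.R866.TF

open Pool.Agent.Helper922.HB

/-- the total space -/
def XX : Set (ℂ × ℙ ℂ (K6 → ℂ)) := {x | ∃ (z : ℂ) (w : WW), x = (w.1.1, ph z w.1.2)}

/-- the map from `ℂ × W` -/
noncomputable def pX : C(ℂ × WW, XX) := ⟨fun q => ⟨(q.2.1.1, ph q.1 q.2.1.2), ⟨q.1, q.2, rfl⟩⟩, by
  apply Continuous.subtype_mk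
  apply Continuous.prodMk
  · exact continuous_fst.comp (continuous_subtype_val.comp continuous_snd)
  · exact continuous_ph.comp (continuous_fst.prodMk
      (continuous_snd.comp (continuous_subtype_val.comp continuous_snd)))⟩

theorem pX_surj : Function.Surjective pX := by
  rintro ⟨_, z, w, rfl⟩
  exact ⟨(z, w), rfl⟩

/-- the deck transformations -/
noncomputable def aQ (m n : ℤ) : C(ℂ × WW, ℂ × WW) :=
  ⟨fun q => (q.1 + m / 6 + n * Complex.I, actW m q.2), by fun_prop⟩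

theorem aQ_apply (m n : ℤ) (q : ℂ × WW) : aQ m n q = (q.1 + m / 6 + n * Complex.I, actW m q.2) := rfl

theorem aQ_zero (q : ℂ × WW) : aQ 0 0 q = q := by
  rw [aQ_apply, actW_zero]
  simp

theorem aQ_add (m n m' n' : ℤ) (q : ℂ × WW) : aQ (m + m') (n + n') q = aQ m n (aQ m' n' q) := by
  rw [aQ_apply, aQ_apply, aQ_apply, actW_add]
  apply Prod.ext
  · show q.1 + ((m + m' : ℤ) : ℂ) / 6 + ((n + n' : ℤ) : ℂ) * Complex.I =
      q.1 + (m' : ℂ) / 6 + n' * Complex.I + m / 6 + n * Complex.I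
    push_cast
    ring
  · rfl

theorem pX_val (q : ℂ × WW) : (pX q).1 = (q.2.1.1, ph q.1 q.2.1.2) := rfl

theorem pX_aQ (m n : ℤ) (q : ℂ × WW) : pX (aQ m n q) = pX q := by
  apply Subtype.ext
  rw [pX_val, pX_val]
  have h1 : (aQ m n q).1 = q.1 + m / 6 + n * Complex.I := rfl
  have h2 : (aQ m n q).2.1.2 = actP m q.2.1.2 := rfl
  have h3 : (aQ m n q).2.1.1 = q.2.1.1 := rfl
  rw [h1, h2, h3, ph_deck]

theorem aQ_fixed {m n : ℤ} {q : ℂ × WW} (h : aQ m n q = q) : m = 0 ∧ n = 0 := by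
  have h1 : q.1 + (m : ℂ) / 6 + n * Complex.I = q.1 := congrArg Prod.fst h
  have h2 : (m : ℂ) / 6 + n * Complex.I = 0 := by linear_combination h1
  have hre := congrArg Complex.re h2
  have him := congrArg Complex.im h2
  have e1 : ((m : ℂ) / 6 + n * Complex.I).re = (m : ℝ) / 6 := by
    simp [Complex.add_re, Complex.mul_re]
  have e2 : ((m : ℂ) / 6 + n * Complex.I).im = (n : ℝ) := by
    simp [Complex.add_im, Complex.mul_im]
  rw [e1] at hre
  rw [e2] at him
  constructor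
  · have : (m : ℝ) = 0 := by simpa using hre
    exact_mod_cast this
  · have : (n : ℝ) = 0 := by simpa using him
    exact_mod_cast this

theorem pX_eq {q q' : ℂ × WW} (h : pX q = pX q') : ∃ m n : ℤ, q' = aQ m n q := by
  have h1 : q.2.1.1 = q'.2.1.1 := congrArg (fun x : XX => x.1.1) h
  have h2 : ph q.1 q.2.1.2 = ph q'.1 q'.2.1.2 := congrArg (fun x : XX => x.1.2) h
  obtain ⟨m, n, h3, h4⟩ := ph_inj h2
  refine ⟨m, n, ?_⟩
  apply Prod.ext
  · exact h3
  · apply Subtype.ext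
    exact Prod.ext h1.symm h4

theorem isClosed_WW : IsClosed WW := by
  have hq : IsOpenQuotientMap (Prod.map (id : ℂ → ℂ)
    (fun z : {z : Fin 3 → ℂ // z ≠ 0} => (Projectivization.mk ℂ z.1 z.2 : P2))) :=
    IsOpenQuotientMap.prodMap IsOpenQuotientMap.id openQuot_mk
  rw [← hq.isQuotientMap.isClosed_preimage]
  have : (Prod.map (id : ℂ → ℂ) (fun z : {z : Fin 3 → ℂ // z ≠ 0} =>
      (Projectivization.mk ℂ z.1 z.2 : P2))) ⁻¹' WW = {q | eqn q.1 q.2.1} := by
    ext q
    exact mem_WW q.1 q.2.1 q.2.2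
  rw [this]
  unfold eqn
  have hv : ∀ i : Fin 3, Continuous fun q : ℂ × {z : Fin 3 → ℂ // z ≠ 0} => q.2.1 i := fun i =>
    (continuous_apply i).comp (continuous_subtype_val.comp continuous_snd)
  apply isClosed_eq
  · exact ((hv 1).pow 2).mul (hv 2)
  · exact ((hv 0).pow 3).add (continuous_fst.mul ((hv 2).pow 3))

/-- a compact set meeting all orbits -/
abbrev F0 : Type := Metric.closedBall (0 : ℂ) 2

instance : CompactSpace F0 := isCompact_iff_compactSpace.mp (isCompact_closedBall 0 2)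

theorem exists_F0 (z : ℂ) : ∃ m n : ℤ, z + m / 6 + n * Complex.I ∈ Metric.closedBall (0 : ℂ) 2 := by
  refine ⟨6 * (-⌊z.re⌋), -⌊z.im⌋, ?_⟩
  rw [mem_closedBall_zero_iff]
  have h : z + ((6 * (-⌊z.re⌋) : ℤ) : ℂ) / 6 + ((-⌊z.im⌋ : ℤ) : ℂ) * Complex.I =
      ((Int.fract z.re : ℝ) : ℂ) + ((Int.fract z.im : ℝ) : ℂ) * Complex.I := by
    unfold Int.fract
    push_cast
    have := Complex.re_add_im z
    linear_combination -this
  rw [h]
  refine (norm_add_le _ _).trans ?_
  rw [norm_mul, Complex.norm_I, mul_one, Complex.norm_real, Complex.norm_real,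
    Real.norm_of_nonneg (Int.fract_nonneg _), Real.norm_of_nonneg (Int.fract_nonneg _)]
  have h1 := (Int.fract_lt_one z.re).le
  have h2 := (Int.fract_lt_one z.im).le
  linarith

/-- the restriction to the compact set is a closed map -/
theorem closedMap_F0 : IsClosedMap (fun q : F0 × WW => ((q.2.1.1, ph q.1 q.2.1.2) :
    ℂ × ℙ ℂ (K6 → ℂ))) := by
  have h1 : IsProperMap (fun q : F0 × P2 => ph q.1.1 q.2) :=
    (continuous_ph.comp ((continuous_subtype_val.comp continuous_fst).prodMk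
      continuous_snd)).isProperMap
  have h2 : IsProperMap (Prod.map (id : ℂ → ℂ) (fun q : F0 × P2 => ph q.1.1 q.2)) :=
    isProperMap_id.prodMap h1
  have h3 : IsClosedMap (fun q : F0 × WW => ((q.2.1.1, (q.1, q.2.1.2)) : ℂ × (F0 × P2))) := by
    have e1 : Topology.IsClosedEmbedding (Prod.map (id : F0 → F0) (Subtype.val : WW → ℂ × P2)) :=
      Topology.IsClosedEmbedding.id.prodMap isClosed_WW.isClosedEmbedding_subtypeVal
    let e : F0 × (ℂ × P2) ≃ₜ ℂ × (F0 × P2) :=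
      { toFun := fun q => (q.2.1, (q.1, q.2.2))
        invFun := fun q => (q.2.1, (q.1, q.2.2))
        left_inv := fun _ => rfl
        right_inv := fun _ => rfl
        continuous_toFun := by fun_prop
        continuous_invFun := by fun_prop }
    exact e.isClosedMap.comp e1.isClosedMap
  exact h2.isClosedMap.comp h3

theorem isClosed_XX : IsClosed XX := by
  have h := closedMap_F0 Set.univ isClosed_univ
  have h2 : (fun q : F0 × WW => ((q.2.1.1, ph q.1 q.2.1.2) : ℂ × ℙ ℂ (K6 → ℂ))) '' Set.univ = XX := by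
    ext x
    constructor
    · rintro ⟨q, _, rfl⟩
      exact ⟨q.1, q.2, rfl⟩
    · rintro ⟨z, w, rfl⟩
      obtain ⟨m, n, hmn⟩ := exists_F0 z
      refine ⟨(⟨_, hmn⟩, actW m w), trivial, ?_⟩
      have h := congrArg Subtype.val (pX_aQ m n (z, w))
      rw [pX_val, pX_val] at h
      exact h
  rwa [h2] at h

theorem isOpenMap_pX : IsOpenMap pX := by
  intro U hU
  set S : Set (ℂ × WW) := ⋃ m : ℤ, ⋃ n : ℤ, (aQ m n) ⁻¹' U with hS
  have hSo : IsOpen S := isOpen_iUnion fun m => isOpen_iUnion fun n => hU.preimage (aQ m n).continuous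
  have hSi : ∀ q, pX q ∈ pX '' U ↔ q ∈ S := by
    intro q
    constructor
    · rintro ⟨q', hq', h⟩
      obtain ⟨m, n, rfl⟩ := pX_eq h.symm
      exact Set.mem_iUnion.mpr ⟨m, Set.mem_iUnion.mpr ⟨n, hq'⟩⟩
    · intro h
      obtain ⟨m, hm⟩ := Set.mem_iUnion.mp h
      obtain ⟨n, hn⟩ := Set.mem_iUnion.mp hm
      exact ⟨_, hn, pX_aQ m n q⟩
  rw [← isClosed_compl_iff]
  have hC : IsClosed {q : F0 × WW | ((q.1 : ℂ), q.2) ∉ S} := by
    have h1 : IsClosed Sᶜ := hSo.isClosed_compl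
    exact h1.preimage ((continuous_subtype_val.comp continuous_fst).prodMk continuous_snd)
  have h2 := (closedMap_F0 _ hC).preimage (continuous_subtype_val : Continuous (Subtype.val : XX → _))
  have h3 : (pX '' U)ᶜ = Subtype.val ⁻¹' ((fun q : F0 × WW => ((q.2.1.1, ph q.1 q.2.1.2) :
      ℂ × ℙ ℂ (K6 → ℂ))) '' {q : F0 × WW | ((q.1 : ℂ), q.2) ∉ S}) := by
    ext x
    constructor
    · intro hx
      obtain ⟨q, rfl⟩ := pX_surj x
      obtain ⟨m, n, hmn⟩ := exists_F0 q.1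
      have h5 := congrArg Subtype.val (pX_aQ m n q)
      rw [pX_val] at h5
      refine ⟨(⟨_, hmn⟩, actW m q.2), ?_, h5⟩
      intro h
      apply hx
      have h4 := (hSi (aQ m n q)).mpr h
      rwa [pX_aQ] at h4
    · rintro ⟨q, hq, he⟩ hx
      apply hq
      rw [← hSi]
      have : pX ((q.1 : ℂ), q.2) = x := Subtype.ext he
      rwa [this]
  rw [h3]
  exact h2

/-- the deck group action -/
@[reducible] noncomputable def actQ : AddAction (ℤ × ℤ) (ℂ × WW) where
  vadd g q := aQ g.1 g.2 q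
  zero_vadd q := aQ_zero q
  add_vadd g h q := aQ_add g.1 g.2 h.1 h.2 q

attribute [local instance] actQ

theorem vadd_eq (g : ℤ × ℤ) (q : ℂ × WW) : g +ᵥ q = aQ g.1 g.2 q := rfl

theorem disj_nhds (q : ℂ × WW) (m n : ℤ)
    (h : ∃ x y : ℂ × WW, ‖x.1 - q.1‖ < 1 / 12 ∧ ‖y.1 - q.1‖ < 1 / 12 ∧ aQ m n x = y) :
    m = 0 ∧ n = 0 := by
  obtain ⟨x, y, hx, hy, rfl⟩ := h
  have h1 : ‖(m : ℂ) / 6 + n * Complex.I‖ < 1 / 6 := by
    have e : (m : ℂ) / 6 + n * Complex.I = ((aQ m n x).1 - q.1) - (x.1 - q.1) := by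
      show _ = (x.1 + (m : ℂ) / 6 + n * Complex.I - q.1) - (x.1 - q.1)
      ring
    rw [e]
    refine (norm_sub_le _ _).trans_lt ?_
    linarith
  have e1 : ((m : ℂ) / 6 + n * Complex.I).re = (m : ℝ) / 6 := by
    simp [Complex.add_re, Complex.mul_re]
  have e2 : ((m : ℂ) / 6 + n * Complex.I).im = (n : ℝ) := by
    simp [Complex.add_im, Complex.mul_im]
  have h2 := (Complex.abs_re_le_norm _).trans_lt h1
  have h3 := (Complex.abs_im_le_norm _).trans_lt h1
  rw [e1, abs_lt] at h2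
  rw [e2, abs_lt] at h3
  constructor
  · have h4 : (m : ℝ) < 1 := by linarith [h2.2]
    have h5 : (-1 : ℝ) < m := by linarith [h2.1]
    have h6 : m < 1 := by exact_mod_cast h4
    have h7 : -1 < m := by exact_mod_cast h5
    omega
  · have h4 : (n : ℝ) < 1 := by linarith [h3.2]
    have h5 : (-1 : ℝ) < n := by linarith [h3.1]
    have h6 : n < 1 := by exact_mod_cast h4
    have h7 : -1 < n := by exact_mod_cast h5
    omega

theorem quot_pX : IsAddQuotientCoveringMap pX (ℤ × ℤ) where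
  toIsQuotientMap := isOpenMap_pX.isQuotientMap pX.continuous pX_surj
  continuous_const_vadd g := (aQ g.1 g.2).continuous
  apply_eq_iff_mem_orbit {e₁ e₂} := by
    constructor
    · intro h
      obtain ⟨m, n, h2⟩ := pX_eq h.symm
      exact ⟨(m, n), h2.symm⟩
    · rintro ⟨g, rfl⟩
      exact pX_aQ g.1 g.2 e₂
  disjoint e := by
    refine ⟨{x | ‖x.1 - e.1‖ < 1 / 12}, ?_, ?_⟩
    · apply IsOpen.mem_nhds
      · exact isOpen_lt (by fun_prop) continuous_const
      · show ‖e.1 - e.1‖ < 1 / 12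
        simp
    · rintro g ⟨y, ⟨x, hx, hxy⟩, hy⟩
      have := disj_nhds e g.1 g.2 ⟨x, y, hx, hy, hxy⟩
      exact Prod.ext this.1 this.2

theorem covering_pX : IsCoveringMap pX := quot_pX.isCoveringMap

/-- contraction of the simplex to its first vertex -/
noncomputable def cr (n : ℕ) : C(unitInterval × stdSimplex ℝ (Fin (n + 1)),
    stdSimplex ℝ (Fin (n + 1))) :=
  ⟨fun p => ⟨(1 - (p.1 : ℝ)) • (Sc.vert n 0).1 + (p.1 : ℝ) • p.2.1,
    (convex_stdSimplex ℝ _) (Sc.vert n 0).2 p.2.2 (by linarith [p.1.2.2]) p.1.2.1 (by ring)⟩, by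
    apply Continuous.subtype_mk
    fun_prop⟩

theorem cr_zero (n : ℕ) (x : stdSimplex ℝ (Fin (n + 1))) : cr n (0, x) = Sc.vert n 0 := by
  apply Subtype.ext
  show (1 - ((0 : unitInterval) : ℝ)) • (Sc.vert n 0).1 + ((0 : unitInterval) : ℝ) • x.1 = _
  simp

theorem cr_one (n : ℕ) (x : stdSimplex ℝ (Fin (n + 1))) : cr n (1, x) = x := by
  apply Subtype.ext
  show (1 - ((1 : unitInterval) : ℝ)) • (Sc.vert n 0).1 + ((1 : unitInterval) : ℝ) • x.1 = _
  simp

/-- simplices lift -/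
theorem lift_simplex (n : ℕ) (σ : Sing XX n) : ∃ τ : Sing (ℂ × WW) n, pX.comp τ = σ := by
  obtain ⟨e0, he0⟩ := pX_surj (σ (Sc.vert n 0))
  have H0 : ∀ a, (σ.comp (cr n)) (0, a) = pX ((ContinuousMap.const _ e0) a) := by
    intro a
    show σ (cr n (0, a)) = pX e0
    rw [cr_zero, he0]
  refine ⟨(covering_pX.liftHomotopy (σ.comp (cr n)) (ContinuousMap.const _ e0) H0).comp
    ⟨fun x => (1, x), by fun_prop⟩, ?_⟩
  ext1 x
  have h := congrFun (covering_pX.liftHomotopy_lifts (σ.comp (cr n)) (ContinuousMap.const _ e0) H0)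
    (1, x)
  have h2 : (σ.comp (cr n)) (1, x) = σ x := by
    show σ (cr n (1, x)) = σ x
    rw [cr_one]
  exact h.trans h2

theorem lift_unique (n : ℕ) (σ τ : Sing (ℂ × WW) n) (h : pX.comp σ = pX.comp τ) :
    ∃ k l : ℤ, τ = (aQ k l).comp σ := by
  have h0 : pX (σ (Sc.vert n 0)) = pX (τ (Sc.vert n 0)) := DFunLike.congr_fun h _
  obtain ⟨k, l, hkl⟩ := pX_eq h0
  refine ⟨k, l, ?_⟩
  have : PreconnectedSpace (stdSimplex ℝ (Fin (n + 1))) :=
    isPreconnected_iff_preconnectedSpace.mp (convex_stdSimplex ℝ (Fin (n + 1))).isPreconnected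
  have h1 := covering_pX.eq_of_comp_eq τ.continuous ((aQ k l).comp σ).continuous (by
    funext x
    show pX (τ x) = pX (aQ k l (σ x))
    rw [pX_aQ]
    exact (DFunLike.congr_fun h x).symm) (Sc.vert n 0) hkl
  exact ContinuousMap.ext fun x => congrFun h1 x

end Pool.Agent.R866.TF
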