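import Pool.Agent.R866.TF.Rel

/-! Augmentation, constant simplices, spaces homotopy equivalent to finite sets. -/

set_option linter.all false

namespace Pool.Agent.R866.TF

open Finsupp Pool.Agent.Helper922.HB

universe u v w

variable {X : Type u} [TopologicalSpace X] {Y : Type v} [TopologicalSpace Y]

/-- sum of the coefficients of a chain -/
noncomputable def ep (X : Type u) [TopologicalSpace X] (n : ℕ) : (Sing X n →₀ ℤ) →ₗ[ℤ] ℤ :=
  Finsupp.linearCombination ℤ (fun _ => (1 : ℤ))

theorem ep_single (n : ℕ) (σ : Sing X n) (a : ℤ) : ep X n (single σ a) = a := by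
  simp [ep]

theorem ep_push (f : C(X, Y)) (n : ℕ) (z : Sing X n →₀ ℤ) : ep Y n (push f n z) = ep X n z := by
  have : (ep Y n).comp (push f n) = ep X n := by
    apply Finsupp.lhom_ext'
    intro σ
    apply LinearMap.ext_ring
    simp only [LinearMap.comp_apply, lsingle_apply]
    rw [push_single, ep_single, ep_single]
  exact LinearMap.congr_fun this z

theorem ep_bdry (z : Sing X 1 →₀ ℤ) : ep X 0 (bdry X 0 z) = 0 := by
  have : (ep X 0).comp (bdry X 0) = 0 := by
    apply Finsupp.lhom_ext'
    intro σ
    apply LinearMap.ext_ring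
    simp only [LinearMap.comp_apply, lsingle_apply, LinearMap.zero_apply]
    rw [bdry_single, map_sum]
    simp only [map_smul, ep_single]
    simp [Fin.sum_univ_succ]
  exact LinearMap.congr_fun this z

/-- the constant simplex -/
def cs (x : X) (m : ℕ) : Sing X m := ContinuousMap.const _ x

theorem sface_cs (x : X) (m : ℕ) (i : Fin (m + 2)) : sface m i (cs x (m + 1)) = cs x m := rfl

theorem sum_signs (n : ℕ) : ∑ i : Fin n, (-1 : ℤ) ^ (i : ℕ) = if Even n then 0 else 1 := by
  induction n with
  | zero => simp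
  | succ n ih =>
    rw [Fin.sum_univ_castSucc]
    simp only [Fin.val_castSucc, Fin.val_last, ih]
    rcases Nat.even_or_odd n with h | h
    · rw [if_pos h, h.neg_one_pow, if_neg (by simpa [Nat.even_add_one] using h)]
      simp
    · rw [if_neg (by simpa using h), h.neg_one_pow,
        if_pos (by simpa [Nat.even_add_one] using h)]
      simp

/-- combinations of constant simplices -/
noncomputable def cc (X : Type u) [TopologicalSpace X] (m : ℕ) : (X →₀ ℤ) →ₗ[ℤ] (Sing X m →₀ ℤ) :=
  Finsupp.lmapDomain ℤ ℤ (fun x => cs x m)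

theorem cc_single (m : ℕ) (x : X) (a : ℤ) : cc X m (single x a) = single (cs x m) a := by
  simp [cc]

theorem bdry_cc (m : ℕ) (z : X →₀ ℤ) : bdry X m (cc X (m + 1) z) =
    (if Even m then (0 : ℤ) else 1) • cc X m z := by
  have : (bdry X m).comp (cc X (m + 1)) = (if Even m then (0 : ℤ) else 1) • cc X m := by
    apply Finsupp.lhom_ext'
    intro x
    apply LinearMap.ext_ring
    simp only [LinearMap.comp_apply, lsingle_apply, LinearMap.smul_apply]
    rw [cc_single, cc_single, bdry_single]
    simp only [sface_cs]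
    rw [← Finset.sum_smul, sum_signs]
    congr 1
    simp [Nat.even_add]
  exact LinearMap.congr_fun this z

theorem cc_inj (m : ℕ) : Function.Injective (cc X m) := by
  apply Finsupp.mapDomain_injective
  intro x y h
  have := DFunLike.congr_fun h (Sc.vert m 0)
  exact this

/-- a positive degree cycle made of constant simplices bounds -/
theorem cc_Bdy (m : ℕ) (z : X →₀ ℤ) (h : cc X (m + 1) z ∈ Cyc X (m + 1)) :
    cc X (m + 1) z ∈ Bdy X (m + 1) := by
  rcases Nat.even_or_odd m with he | ho
  · refine ⟨cc X (m + 2) z, ?_⟩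
    rw [bdry_cc, if_neg (by simpa [Nat.even_add_one] using he), one_smul]
  · have h1 : bdry X m (cc X (m + 1) z) = 0 := h
    rw [bdry_cc, if_neg (by simpa using ho), one_smul] at h1
    have h2 : z = 0 := cc_inj m (by rw [h1, map_zero])
    rw [h2, map_zero]
    exact Submodule.zero_mem _

/-- the vertex of a simplex, pushed by a map -/
noncomputable def vx (f : X → Y) (m : ℕ) : (Sing X m →₀ ℤ) →ₗ[ℤ] (Y →₀ ℤ) :=
  Finsupp.lmapDomain ℤ ℤ (fun σ => f (σ (Sc.vert m 0)))

theorem vx_single (f : X → Y) (m : ℕ) (σ : Sing X m) (a : ℤ) :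
    vx f m (single σ a) = single (f (σ (Sc.vert m 0))) a := by
  simp [vx]

theorem conn_simplex (m : ℕ) : IsPreconnected (Set.univ : Set (stdSimplex ℝ (Fin (m + 1)))) := by
  have h : IsPreconnected (stdSimplex ℝ (Fin (m + 1))) :=
    (convex_stdSimplex ℝ (Fin (m + 1))).isPreconnected
  have := isPreconnected_iff_preconnectedSpace.mp h
  exact isPreconnected_univ

/-- continuous functions with finite image are constant on simplices -/
theorem const_of_finite [T1Space Y] (f : C(X, Y)) (hf : (Set.range f).Finite) (m : ℕ)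
    (σ : Sing X m) (s t : stdSimplex ℝ (Fin (m + 1))) : f (σ s) = f (σ t) := by
  have hc : Continuous fun s => f (σ s) := by fun_prop
  exact (conn_simplex m).constant_of_mapsTo (T := Set.range f) hf.isDiscrete
    (f := fun s => f (σ s)) hc.continuousOn (fun s _ => ⟨_, rfl⟩) (Set.mem_univ s) (Set.mem_univ t)

theorem push_eq_cc [T1Space Y] (f : C(X, Y)) (hf : (Set.range f).Finite) (m : ℕ)
    (z : Sing X m →₀ ℤ) : push f m z = cc Y m (vx f m z) := by
  have : push f m = (cc Y m).comp (vx f m) := by
    apply Finsupp.lhom_ext'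
    intro σ
    apply LinearMap.ext_ring
    simp only [LinearMap.comp_apply, lsingle_apply]
    rw [push_single, vx_single, cc_single]
    congr 1
    ext t
    exact const_of_finite f hf m σ t _
  exact LinearMap.congr_fun this z

theorem vx_bdry [T1Space Y] (f : C(X, Y)) (hf : (Set.range f).Finite)
    (z : Sing X 1 →₀ ℤ) : vx f 0 (bdry X 0 z) = 0 := by
  have : (vx f 0).comp (bdry X 0) = 0 := by
    apply Finsupp.lhom_ext'
    intro σ
    apply LinearMap.ext_ring
    simp only [LinearMap.comp_apply, lsingle_apply, LinearMap.zero_apply]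
    rw [bdry_single, map_sum]
    simp only [map_smul, vx_single]
    have h : ∀ i : Fin 2, f ((sface 0 i σ) (Sc.vert 0 0)) = f (σ (Sc.vert 1 0)) := fun i =>
      const_of_finite f hf 1 σ _ _
    simp only [h]
    simp [Fin.sum_univ_succ]
  exact LinearMap.congr_fun this z

/-- vanishing of homology -/
def Ac (X : Type u) [TopologicalSpace X] (n : ℕ) : Prop := ∀ z ∈ Cyc X n, z ∈ Bdy X n

/-- homological connectedness -/
def Cn (X : Type u) [TopologicalSpace X] : Prop := ∀ z : Sing X 0 →₀ ℤ, ep X 0 z = 0 → z ∈ Bdy X 0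

theorem Ac_of_disc [T1Space X] (H : C(X × unitInterval, X)) (f : C(X, X))
    (hf : (Set.range f).Finite) (h0 : ∀ x, H (x, 0) = x) (h1 : ∀ x, H (x, 1) = f x) (m : ℕ) :
    Ac X (m + 1) := by
  intro z hz
  have h2 := push_sub_mem_of_homotopy H (ContinuousMap.id X) f h0 h1 (m + 1) z hz
  rw [push_id] at h2
  have h3 : push f (m + 1) z ∈ Bdy X (m + 1) := by
    have h4 := push_mem_Cyc f (m + 1) z hz
    rw [push_eq_cc f hf] at h4 ⊢
    exact cc_Bdy m _ h4
  have h4 := (Bdy X (m + 1)).sub_mem h3 h2
  rwa [sub_sub_cancel] at h4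

/-- zero-chains with vanishing invariant bound -/
theorem mem_Bdy_zero_of_disc {Z : Type w} (H : C(X × unitInterval, X)) (k : X → Z) (s : Z → X)
    (hsk : Continuous fun x => s (k x))
    (h0 : ∀ x, H (x, 0) = x) (h1 : ∀ x, H (x, 1) = s (k x)) (z : Sing X 0 →₀ ℤ)
    (hz : Finsupp.lmapDomain ℤ ℤ (fun σ : Sing X 0 => k (σ (Sc.vert 0 0))) z = 0) :
    z ∈ Bdy X 0 := by
  have h2 := push_sub_mem_of_homotopy H (ContinuousMap.id X) ⟨fun x => s (k x), hsk⟩ h0 h1 0 z
    Submodule.mem_top
  rw [push_id] at h2
  have h3 : push (⟨fun x => s (k x), hsk⟩ : C(X, X)) 0 z = 0 := by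
    have : push (⟨fun x => s (k x), hsk⟩ : C(X, X)) 0 =
        (Finsupp.lmapDomain ℤ ℤ (fun z => cs (s z) 0)).comp
          (Finsupp.lmapDomain ℤ ℤ (fun σ : Sing X 0 => k (σ (Sc.vert 0 0)))) := by
      apply Finsupp.lhom_ext'
      intro σ
      apply LinearMap.ext_ring
      simp only [LinearMap.comp_apply, lsingle_apply, Finsupp.lmapDomain_apply,
        Finsupp.mapDomain_single]
      rw [push_single]
      congr 1
      ext t
      have : t = Sc.vert 0 0 := Subsingleton.elim (α := stdSimplex ℝ (Fin 1)) _ _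
      rw [this]
      rfl
    rw [this, LinearMap.comp_apply, hz, map_zero]
  rw [h3, zero_sub] at h2
  exact (Submodule.neg_mem_iff _).mp h2

theorem single_sub_mem_Bdy {x y : X} (h : Joined x y) :
    single (cs y 0) (1 : ℤ) - single (cs x 0) 1 ∈ Bdy X 0 := by
  obtain ⟨γ⟩ := h
  let H : C(PUnit.{1} × unitInterval, X) := ⟨fun p => γ p.2, by fun_prop⟩
  have := push_sub_mem_of_homotopy H (ContinuousMap.const _ x) (ContinuousMap.const _ y)
    (fun _ => γ.source) (fun _ => γ.target) 0 (single (cs PUnit.unit 0) 1) Submodule.mem_top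
  rw [push_single, push_single] at this
  exact this

theorem zero_chain_mem {x : X} (h : ∀ y, Joined x y) (z : Sing X 0 →₀ ℤ) :
    z - ep X 0 z • single (cs x 0) (1 : ℤ) ∈ Bdy X 0 := by
  have := supp_map Set.univ (LinearMap.id -
    (LinearMap.toSpanSingleton ℤ (Sing X 0 →₀ ℤ) (single (cs x 0) 1)).comp (ep X 0)) (Bdy X 0) (by
      intro σ _
      simp only [LinearMap.sub_apply, LinearMap.id_apply, LinearMap.comp_apply, ep_single,
        LinearMap.toSpanSingleton_apply, one_smul]
      have e : σ = cs (σ (Sc.vert 0 0)) 0 := by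
        ext t
        have : t = Sc.vert 0 0 := Subsingleton.elim (α := stdSimplex ℝ (Fin 1)) _ _
        rw [this]
        rfl
      rw [e]
      exact single_sub_mem_Bdy (h _)) z (by simp)
  exact this

theorem Cn_of_joined {x : X} (h : ∀ y, Joined x y) : Cn X := by
  intro z hz
  have := zero_chain_mem h z
  rwa [hz, zero_smul, sub_zero] at this

/-- contractible spaces are acyclic -/
theorem Ac_of_contr (H : C(X × unitInterval, X)) (x : X) (h0 : ∀ y, H (y, 0) = y)
    (h1 : ∀ y, H (y, 1) = x) (n : ℕ) : Ac X (n + 1) := by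
  intro z hz
  have h2 := push_sub_mem_of_homotopy H (ContinuousMap.id X) (ContinuousMap.const X x) h0 h1
    (n + 1) z hz
  rw [push_id] at h2
  have h3 : push (ContinuousMap.const X x) (n + 1) z ∈ Bdy X (n + 1) := by
    have e : push (ContinuousMap.const X x) (n + 1) z = cc X (n + 1) (single x (ep X (n + 1) z)) := by
      have : push (ContinuousMap.const X x) (n + 1) =
          (cc X (n + 1)).comp ((Finsupp.lsingle x).comp (ep X (n + 1))) := by
        apply Finsupp.lhom_ext'
        intro σ
        apply LinearMap.ext_ring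
        simp only [LinearMap.comp_apply, lsingle_apply]
        rw [push_single, ep_single, cc_single]
        rfl
      rw [this]
      rfl
    have h4 := push_mem_Cyc (ContinuousMap.const X x) (n + 1) z hz
    rw [e] at h4 ⊢
    exact cc_Bdy n _ h4
  have h4 := (Bdy X (n + 1)).sub_mem h3 h2
  rwa [sub_sub_cancel] at h4

end Pool.Agent.R866.TF
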