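import Mathlib

/-! Symmetrised tensors (products of linear forms). -/

set_option linter.all false

namespace Pool.Agent.R866.TF

open Finset

variable {α : Type*} [Fintype α] {k : ℕ}

/-- the linear form with coefficients `u` -/
def lf (u T : α → ℂ) : ℂ := ∑ a, u a * T a

theorem lf_add (u u' T : α → ℂ) : lf (u + u') T = lf u T + lf u' T := by
  simp only [lf, Pi.add_apply, add_mul, Finset.sum_add_distrib]

theorem lf_smul (c : ℂ) (u T : α → ℂ) : lf (c • u) T = c * lf u T := by
  simp only [lf, Pi.smul_apply, smul_eq_mul, Finset.mul_sum, mul_assoc]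

/-- the symmetrised product of vectors -/
def sy (S : Fin k → α → ℂ) (i : Fin k → α) : ℂ :=
  ∑ π : Equiv.Perm (Fin k), ∏ j, S (π j) (i j)

/-- the polynomial function attached to a tensor -/
def pf (F : (Fin k → α) → ℂ) (T : α → ℂ) : ℂ := ∑ i, F i * ∏ j, T (i j)

theorem pf_sy [DecidableEq α] (S : Fin k → α → ℂ) (T : α → ℂ) :
    pf (sy S) T = (k.factorial : ℂ) * ∏ j, lf (S j) T := by
  unfold pf sy
  simp only [Finset.sum_mul]
  rw [Finset.sum_comm]
  have h1 : ∀ π : Equiv.Perm (Fin k),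
      ∑ i : Fin k → α, (∏ j, S (π j) (i j)) * ∏ j, T (i j) = ∏ j, lf (S j) T := by
    intro π
    have h2 : ∑ i : Fin k → α, (∏ j, S (π j) (i j)) * ∏ j, T (i j) =
        ∏ j, lf (S (π j)) T := by
      unfold lf
      rw [Finset.prod_univ_sum]
      rw [Fintype.piFinset_univ]
      refine Finset.sum_congr rfl fun i _ => ?_
      rw [Finset.prod_mul_distrib]
    rw [h2]
    exact Equiv.prod_comp π (fun j => lf (S j) T)
  rw [Finset.sum_congr rfl (fun π _ => h1 π), Finset.sum_const, Finset.card_univ,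
    Fintype.card_perm, Fintype.card_fin, nsmul_eq_mul]

theorem pf_smul (c : ℂ) (F : (Fin k → α) → ℂ) (T : α → ℂ) : pf (c • F) T = c * pf F T := by
  simp only [pf, Pi.smul_apply, smul_eq_mul, Finset.mul_sum, mul_assoc]

theorem sy_smul (c : Fin k → ℂ) (S : Fin k → α → ℂ) :
    sy (fun j => c j • S j) = (∏ j, c j) • sy S := by
  funext i
  unfold sy
  simp only [Pi.smul_apply, smul_eq_mul, Finset.mul_sum]
  refine Finset.sum_congr rfl fun π _ => ?_
  rw [Finset.prod_mul_distrib, Equiv.prod_comp π c]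

theorem sy_perm (S : Fin k → α → ℂ) (τ : Equiv.Perm (Fin k)) : sy (fun j => S (τ j)) = sy S := by
  funext i
  unfold sy
  exact (Equiv.sum_comp (Equiv.mulLeft τ)
    (fun π : Equiv.Perm (Fin k) => ∏ j, S (π j) (i j)))

/-- the linear form as a linear map -/
def lfm (u : α → ℂ) : (α → ℂ) →ₗ[ℂ] ℂ where
  toFun := lf u
  map_add' T T' := by simp only [lf, Pi.add_apply, mul_add, Finset.sum_add_distrib]
  map_smul' c T := by
    simp only [lf, Pi.smul_apply, smul_eq_mul, RingHom.id_apply, Finset.mul_sum]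
    refine Finset.sum_congr rfl fun a _ => ?_
    ring

theorem lfm_apply (u T : α → ℂ) : lfm u T = lf u T := rfl

theorem lf_single [DecidableEq α] (u : α → ℂ) (a : α) : lf u (Pi.single a 1) = u a := by
  unfold lf
  rw [Finset.sum_eq_single a]
  · simp
  · intro b _ hb
    simp [hb]
  · simp

/-- a product of linear forms vanishing on a hyperplane -/
theorem exists_prop {J : Type*} [Fintype J] (u : α → ℂ) (M : J → α → ℂ)
    (h : ∀ T, lf u T = 0 → ∏ j, lf (M j) T = 0) : ∃ j, ∃ c : ℂ, M j = c • u := by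
  classical
  let K := LinearMap.ker (lfm u)
  let p : J → Subspace ℂ K := fun j => LinearMap.ker ((lfm (M j)).comp K.subtype)
  have hcov : ⋃ j, (p j : Set K) = Set.univ := by
    apply Set.eq_univ_of_forall
    intro T
    have h1 := h T.1 (LinearMap.mem_ker.mp T.2)
    obtain ⟨j, _, hj⟩ := Finset.prod_eq_zero_iff.mp h1
    exact Set.mem_iUnion.mpr ⟨j, hj⟩
  obtain ⟨j, hj⟩ := Subspace.exists_eq_top_of_iUnion_eq_univ hcov
  refine ⟨j, ?_⟩
  have hle : ⨅ _i : Unit, LinearMap.ker (lfm u) ≤ LinearMap.ker (lfm (M j)) := by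
    rw [iInf_const]
    intro T hT
    have : (⟨T, hT⟩ : K) ∈ p j := by rw [hj]; trivial
    exact this
  have h2 := mem_span_of_iInf_ker_le_ker (L := fun _ : Unit => lfm u) hle
  rw [Set.range_const, Submodule.mem_span_singleton] at h2
  obtain ⟨c, hc⟩ := h2
  refine ⟨c, ?_⟩
  funext a
  have h3 := LinearMap.congr_fun hc (Pi.single a 1)
  rw [LinearMap.smul_apply, lfm_apply, lfm_apply, lf_single, lf_single] at h3
  exact h3.symm

theorem exists_ne (M : Fin k → α → ℂ) (hM : ∀ j, M j ≠ 0) : ∃ T, ∏ j, lf (M j) T ≠ 0 := by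
  by_contra hcon
  push Not at hcon
  obtain ⟨j, c, hc⟩ := exists_prop (0 : α → ℂ) M (fun T _ => hcon T)
  rw [smul_zero] at hc
  exact hM j hc

theorem sy_ne_zero (S : Fin k → α → ℂ) (hS : ∀ j, S j ≠ 0) : sy S ≠ 0 := by
  classical
  obtain ⟨T, hT⟩ := exists_ne S hS
  intro h
  have h1 := pf_sy S T
  rw [h] at h1
  have h2 : pf (0 : (Fin k → α) → ℂ) T = 0 := by simp [pf]
  rw [h2] at h1
  have h3 : (k.factorial : ℂ) ≠ 0 := by exact_mod_cast k.factorial_ne_zero
  exact (mul_ne_zero h3 hT) h1.symm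

/-- injectivity of the symmetrised product -/
theorem sy_inj (S S' : Fin k → α → ℂ) (hS' : ∀ j, S' j ≠ 0) (c : ℂ)
    (h : sy S = c • sy S') (j : Fin k) : ∃ l, ∃ a : ℂ, S l = a • S' j := by
  classical
  apply exists_prop
  intro T hT
  have h1 := pf_sy S T
  rw [h, pf_smul, pf_sy, Finset.prod_eq_zero (Finset.mem_univ j) hT] at h1
  have h3 : (k.factorial : ℂ) ≠ 0 := by exact_mod_cast k.factorial_ne_zero
  simp only [mul_zero] at h1
  exact (mul_eq_zero.mp h1.symm).resolve_left h3

/-- the derivative of the symmetrised product -/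
theorem sy_tangent (S D : Fin k → α → ℂ) (c : ℂ) (j : Fin k)
    (hj : ∀ l, l ≠ j → ∀ a : ℂ, S l ≠ a • S j)
    (h : ∀ T, ∑ l, (∏ m ∈ Finset.univ.erase l, lf (S m) T) * lf (D l) T =
      c * ∏ l, lf (S l) T) : ∃ a : ℂ, D j = a • S j := by
  classical
  have h1 : ∀ T, lf (S j) T = 0 →
      ∏ l, lf (Function.update S j (D j) l) T = 0 := by
    intro T hT
    have h2 := h T
    rw [Finset.prod_eq_zero (Finset.mem_univ j) hT, mul_zero,
      Finset.sum_eq_single j] at h2
    · rw [← Finset.mul_prod_erase _ _ (Finset.mem_univ j), Function.update_self]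
      rw [← h2, mul_comm]
      congr 1
      refine Finset.prod_congr rfl fun l hl => ?_
      rw [Function.update_of_ne (Finset.ne_of_mem_erase hl)]
    · intro l _ hl
      rw [Finset.prod_eq_zero (Finset.mem_erase.mpr ⟨hl.symm, Finset.mem_univ j⟩) hT, zero_mul]
    · simp
  obtain ⟨l, a, hl⟩ := exists_prop (S j) _ h1
  by_cases hlj : l = j
  · subst hlj
    rw [Function.update_self] at hl
    exact ⟨a, hl⟩
  · rw [Function.update_of_ne hlj] at hl
    exact absurd hl (hj l hlj a)

end Pool.Agent.R866.TF
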