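import Pool.Agent.R866.TF.W
import Pool.Agent.R866.TF.Ell
import Pool.Agent.R866.TF.Sym

/-! The quotient of `ℂ × W` and its projective embedding. -/

set_option linter.all false

open scoped LinearAlgebra.Projectivization Topology

namespace Pool.Agent.R866.TF

open Pool.Agent.Helper922.HB

/-- the index set of the homogeneous coordinates -/
abbrev K6 : Type := Fin 6 → Fin 3 × Fin 3

/-- the six tensors -/
noncomputable def Sg (z : ℂ) (v : Fin 3 → ℂ) (j : Fin 6) : Fin 3 × Fin 3 → ℂ :=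
  fun a => elU (z + ((j : ℕ) : ℂ) / 6) a.1 * dg ((j : ℕ) : ℤ) v a.2

/-- the homogeneous coordinates -/
noncomputable irreducible_def Ph (z : ℂ) (v : Fin 3 → ℂ) : K6 → ℂ := sy (Sg z v)

theorem tensor_ne {u v : Fin 3 → ℂ} (hu : u ≠ 0) (hv : v ≠ 0) :
    (fun a : Fin 3 × Fin 3 => u a.1 * v a.2) ≠ 0 := by
  obtain ⟨i, hi⟩ := Function.ne_iff.mp hu
  obtain ⟨j, hj⟩ := Function.ne_iff.mp hv
  intro h
  have := congrFun h (i, j)
  exact (mul_ne_zero hi hj) this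

theorem tensor_prop {u v u' v' : Fin 3 → ℂ} (hu : u ≠ 0) (hv : v ≠ 0) {c : ℂ}
    (h : (fun a : Fin 3 × Fin 3 => u a.1 * v a.2) = c • (fun a : Fin 3 × Fin 3 => u' a.1 * v' a.2)) :
    (∃ a : ℂ, u = a • u') ∧ ∃ b : ℂ, v = b • v' := by
  have h2 : ∀ i j, u i * v j = c * (u' i * v' j) := fun i j => congrFun h (i, j)
  obtain ⟨i, hi⟩ := Function.ne_iff.mp hu
  obtain ⟨j, hj⟩ := Function.ne_iff.mp hv
  have hi' : u i ≠ 0 := hi
  have hj' : v j ≠ 0 := hj
  constructor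
  · refine ⟨c * v' j / v j, ?_⟩
    funext k
    have := h2 k j
    simp only [Pi.smul_apply, smul_eq_mul]
    field_simp
    linear_combination this
  · refine ⟨c * u' i / u i, ?_⟩
    funext k
    have := h2 i k
    simp only [Pi.smul_apply, smul_eq_mul]
    field_simp
    linear_combination this

theorem Sg_ne (z : ℂ) {v : Fin 3 → ℂ} (hv : v ≠ 0) (j : Fin 6) : Sg z v j ≠ 0 :=
  tensor_ne (elU_ne _) (dg_ne _ hv)

theorem Ph_ne (z : ℂ) {v : Fin 3 → ℂ} (hv : v ≠ 0) : Ph z v ≠ 0 := by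
  rw [Ph_def]
  exact sy_ne_zero _ (Sg_ne z hv)

theorem Ph_smul (z a : ℂ) (v : Fin 3 → ℂ) : Ph z (a • v) = a ^ 6 • Ph z v := by
  have h : Sg z (a • v) = fun j => (fun _ : Fin 6 => a) j • Sg z v j := by
    funext j b
    simp only [Sg, dg_smul, Pi.smul_apply, smul_eq_mul]
    ring
  rw [Ph_def, Ph_def, h, sy_smul]
  simp

theorem elU_add_one (w : ℂ) : elU (w + 1) = elU w := elU_props.2.1 w

theorem elU_add_I (w : ℂ) : elU (w + Complex.I) = elU w := elU_props.2.2.1 w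

theorem Ph_one (z : ℂ) (v : Fin 3 → ℂ) : Ph (z + 1 / 6) (dg 1 v) = Ph z v := by
  have h : Sg (z + 1 / 6) (dg 1 v) = fun j => Sg z v (finRotate 6 j) := by
    funext j b
    unfold Sg
    rw [← dg_add]
    have h1 : elU (z + 1 / 6 + ((j : ℕ) : ℂ) / 6) = elU (z + ((finRotate 6 j : ℕ) : ℂ) / 6) := by
      fin_cases j
      · show elU (z + 1 / 6 + ((0 : ℕ) : ℂ) / 6) = elU (z + ((1 : ℕ) : ℂ) / 6)
        congr 1; push_cast; ring
      · show elU (z + 1 / 6 + ((1 : ℕ) : ℂ) / 6) = elU (z + ((2 : ℕ) : ℂ) / 6)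
        congr 1; push_cast; ring
      · show elU (z + 1 / 6 + ((2 : ℕ) : ℂ) / 6) = elU (z + ((3 : ℕ) : ℂ) / 6)
        congr 1; push_cast; ring
      · show elU (z + 1 / 6 + ((3 : ℕ) : ℂ) / 6) = elU (z + ((4 : ℕ) : ℂ) / 6)
        congr 1; push_cast; ring
      · show elU (z + 1 / 6 + ((4 : ℕ) : ℂ) / 6) = elU (z + ((5 : ℕ) : ℂ) / 6)
        congr 1; push_cast; ring
      · show elU (z + 1 / 6 + ((5 : ℕ) : ℂ) / 6) = elU (z + ((0 : ℕ) : ℂ) / 6)
        have : z + 1 / 6 + ((5 : ℕ) : ℂ) / 6 = (z + ((0 : ℕ) : ℂ) / 6) + 1 := by push_cast; ring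
        rw [this, elU_add_one]
    have h2 : dg (((j : ℕ) : ℤ) + 1) v = dg ((finRotate 6 j : ℕ) : ℤ) v := by
      fin_cases j
      · rfl
      · rfl
      · rfl
      · rfl
      · rfl
      · show dg 6 v = dg 0 v
        rw [dg_six, dg_zero]
    rw [h1, h2]
  rw [Ph_def, Ph_def, h, sy_perm]

theorem Ph_I (z : ℂ) (v : Fin 3 → ℂ) : Ph (z + Complex.I) v = Ph z v := by
  have h : Sg (z + Complex.I) v = Sg z v := by
    funext j b
    unfold Sg
    have : z + Complex.I + ((j : ℕ) : ℂ) / 6 = (z + ((j : ℕ) : ℂ) / 6) + Complex.I := by ring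
    rw [this, elU_add_I]
  rw [Ph_def, Ph_def, h]

theorem Ph_int (m : ℤ) (z : ℂ) (v : Fin 3 → ℂ) : Ph (z + m / 6) (dg m v) = Ph z v := by
  induction m using Int.induction_on generalizing z v with
  | zero => simp [dg_zero]
  | succ m ih =>
    have h1 : z + (((m : ℤ) + 1 : ℤ) : ℂ) / 6 = (z + ((m : ℤ) : ℂ) / 6) + 1 / 6 := by
      push_cast; ring
    rw [h1, add_comm (m : ℤ) 1, dg_add, Ph_one, ih]
  | pred m ih =>
    have h2 := Ph_one (z + ((-(m : ℤ) - 1 : ℤ) : ℂ) / 6) (dg (-(m : ℤ) - 1) v)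
    rw [← h2, ← dg_add]
    have h1 : z + ((-(m : ℤ) - 1 : ℤ) : ℂ) / 6 + 1 / 6 = z + ((-(m : ℤ) : ℤ) : ℂ) / 6 := by
      push_cast; ring
    have h3 : 1 + (-(m : ℤ) - 1) = -(m : ℤ) := by ring
    rw [h1, h3, ih]

theorem Ph_intI (n : ℤ) (z : ℂ) (v : Fin 3 → ℂ) : Ph (z + n * Complex.I) v = Ph z v := by
  induction n using Int.induction_on generalizing z with
  | zero => simp
  | succ m ih =>
    have h1 : z + (((m : ℤ) + 1 : ℤ) : ℂ) * Complex.I = (z + ((m : ℤ) : ℂ) * Complex.I) + Complex.I := by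
      push_cast; ring
    rw [h1, Ph_I, ih]
  | pred m ih =>
    have h2 := Ph_I (z + ((-(m : ℤ) - 1 : ℤ) : ℂ) * Complex.I) v
    rw [← h2]
    have h1 : z + ((-(m : ℤ) - 1 : ℤ) : ℂ) * Complex.I + Complex.I =
      z + ((-(m : ℤ) : ℤ) : ℂ) * Complex.I := by
      push_cast; ring
    rw [h1, ih]

theorem Ph_deck (m n : ℤ) (z : ℂ) (v : Fin 3 → ℂ) :
    Ph (z + m / 6 + n * Complex.I) (dg m v) = Ph z v := by
  rw [Ph_intI, Ph_int]

theorem dg_six_mul (k : ℤ) (v : Fin 3 → ℂ) : dg (6 * k) v = v := by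
  induction k using Int.induction_on generalizing v with
  | zero => simp [dg_zero]
  | succ m ih =>
    rw [mul_add, mul_one, dg_add, dg_six, ih]
  | pred m ih =>
    have h : dg (6 * (-(m : ℤ) - 1)) v = dg (6 * (-(m : ℤ) - 1)) (dg 6 v) := by rw [dg_six]
    rw [h, ← dg_add]
    have h2 : 6 * (-(m : ℤ) - 1) + 6 = 6 * (-(m : ℤ)) := by ring
    rw [h2, ih]

/-- the second component of the embedding -/
noncomputable irreducible_def ph (z : ℂ) (P : P2) : ℙ ℂ (K6 → ℂ) :=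
  Projectivization.mk ℂ (Ph z P.rep) (Ph_ne z P.rep_nonzero)

theorem ph_mk (z : ℂ) (v : Fin 3 → ℂ) (hv : v ≠ 0) :
    ph z (Projectivization.mk ℂ v hv) = Projectivization.mk ℂ (Ph z v) (Ph_ne z hv) := by
  obtain ⟨a, ha, h⟩ := rep_eq v hv
  rw [ph_def]
  apply mk_eq_of_smul _ _ (a ^ 6)
  rw [h, Ph_smul]

theorem ph_deck (m n : ℤ) (z : ℂ) (P : P2) :
    ph (z + m / 6 + n * Complex.I) (actP m P) = ph z P := by
  induction P using Projectivization.ind with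
  | h v hv =>
    rw [actP_mk, ph_mk, ph_mk]
    exact mk_congr _ _ (Ph_deck m n z v)

/-- injectivity modulo the deck group -/
theorem ph_inj {z z' : ℂ} {P P' : P2} (h : ph z P = ph z' P') :
    ∃ m n : ℤ, z' = z + m / 6 + n * Complex.I ∧ P' = actP m P := by
  induction P using Projectivization.ind with
  | h v hv =>
    induction P' using Projectivization.ind with
    | h v' hv' =>
      rw [ph_mk, ph_mk, mk_eq_iff] at h
      obtain ⟨a, ha, h⟩ := h
      rw [Ph_def, Ph_def] at h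
      obtain ⟨l, c, hl⟩ := sy_inj (Sg z v) (Sg z' v') (Sg_ne z' hv') a h 0
      obtain ⟨⟨c1, h1⟩, ⟨c2, h2⟩⟩ := tensor_prop (elU_ne _) (dg_ne _ hv) hl
      have h3 : ((0 : Fin 6) : ℕ) = 0 := rfl
      rw [h3] at h1 h2
      simp only [Nat.cast_zero, zero_div, add_zero] at h1 h2
      rw [dg_zero] at h2
      obtain ⟨m, n, hmn⟩ := elU_props.2.2.2.1 _ _ _ h1
      refine ⟨((l : ℕ) : ℤ) + 6 * (-m), -n, ?_, ?_⟩
      · push_cast
        linear_combination -hmn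
      · rw [actP_mk]
        have hc2 : c2 ≠ 0 := by
          rintro rfl
          rw [zero_smul] at h2
          exact dg_ne _ hv h2
        apply mk_eq_of_smul _ _ c2⁻¹
        rw [dg_add, dg_six_mul, h2, smul_smul, inv_mul_cancel₀ hc2, one_smul]

/-! ### local frames and continuity -/

/-- local frames for the six translates -/
theorem exists_frames (z0 : ℂ) : ∃ r : ℝ, 0 < r ∧ r ≤ 1 / 12 ∧ ∃ u : Fin 6 → ℂ → Fin 3 → ℂ,
    (∀ j, DifferentiableOn ℂ (u j) (Metric.ball z0 r)) ∧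
    (∀ j, ∀ z ∈ Metric.ball z0 r, ∃ c : ℂ, c ≠ 0 ∧ u j z = c • elU (z + ((j : ℕ) : ℂ) / 6)) ∧
    ∀ j, ∀ z ∈ Metric.ball z0 r, ∀ c : ℂ, deriv (u j) z ≠ c • u j z := by
  have H := fun j : Fin 6 => elU_props.2.2.2.2 (z0 + ((j : ℕ) : ℂ) / 6)
  choose r hr l hl hd hder using H
  have hball : ∀ (ρ : ℝ) (j : Fin 6), ρ ≤ r j → ∀ z ∈ Metric.ball z0 ρ,
      z + ((j : ℕ) : ℂ) / 6 ∈ Metric.ball (z0 + ((j : ℕ) : ℂ) / 6) (r j) := by
    intro ρ j hj z hz
    rw [Metric.mem_ball, dist_add_right]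
    exact lt_of_lt_of_le (Metric.mem_ball.mp hz) hj
  have hne : (Finset.univ : Finset (Fin 6)).Nonempty := ⟨0, Finset.mem_univ _⟩
  set ρ := min (1 / 12) (Finset.univ.inf' hne r) with hρ
  have hρr : ∀ j, ρ ≤ r j := fun j =>
    (min_le_right _ _).trans (Finset.inf'_le r (Finset.mem_univ j))
  have hρ0 : 0 < ρ := by
    apply lt_min (by norm_num)
    rw [Finset.lt_inf'_iff]
    intro j _
    exact hr j
  refine ⟨ρ, hρ0, min_le_left _ _,
    fun j z => l j (z + ((j : ℕ) : ℂ) / 6) • elU (z + ((j : ℕ) : ℂ) / 6), ?_, ?_, ?_⟩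
  · intro j
    have h1 : DifferentiableOn ℂ (fun z : ℂ => z + ((j : ℕ) : ℂ) / 6) (Metric.ball z0 ρ) := by
      fun_prop
    exact (hd j).comp h1 (hball ρ j (hρr j))
  · intro j z hz
    exact ⟨_, hl j _ (hball ρ j (hρr j) z hz), rfl⟩
  · intro j z hz c
    have h1 := deriv_comp_add_const (fun w => l j w • elU w) (((j : ℕ) : ℂ) / 6) z
    have h2 : deriv (fun z => l j (z + ((j : ℕ) : ℂ) / 6) • elU (z + ((j : ℕ) : ℂ) / 6)) z =
      deriv (fun w => l j w • elU w) (z + ((j : ℕ) : ℂ) / 6) := h1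
    rw [h2]
    exact hder j _ (hball ρ j (hρr j) z hz) c

/-- homogeneous coordinates with frames -/
noncomputable def PhL (u : Fin 6 → ℂ → Fin 3 → ℂ) (z : ℂ) (v : Fin 3 → ℂ) : K6 → ℂ :=
  sy (fun j a => u j z a.1 * dg ((j : ℕ) : ℤ) v a.2)

theorem PhL_eq {u : Fin 6 → ℂ → Fin 3 → ℂ} {z : ℂ} (v : Fin 3 → ℂ)
    (h : ∀ j : Fin 6, ∃ c : ℂ, c ≠ 0 ∧ u j z = c • elU (z + ((j : ℕ) : ℂ) / 6)) :
    ∃ c : ℂ, c ≠ 0 ∧ ∀ v, PhL u z v = c • Ph z v := by
  choose c hc hu using h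
  refine ⟨∏ j, c j, Finset.prod_ne_zero_iff.mpr (fun j _ => hc j), ?_⟩
  intro v
  rw [Ph_def]
  unfold PhL
  rw [← sy_smul]
  congr 1
  funext j a
  rw [hu]
  simp only [Sg, Pi.smul_apply, smul_eq_mul]
  ring

theorem continuous_ph : Continuous fun q : ℂ × P2 => ph q.1 q.2 := by
  rw [continuous_iff_continuousAt]
  rintro ⟨z0, P⟩
  induction P using Projectivization.ind with
  | h v hv =>
    obtain ⟨r, hr, -, u, hu, hc, -⟩ := exists_frames z0
    apply continuousAt_of_lift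
    -- the restriction to the ball
    have hmem : Metric.ball z0 r ×ˢ (Set.univ : Set {v : Fin 3 → ℂ // v ≠ 0}) ∈
        𝓝 ((z0, ⟨v, hv⟩) : ℂ × {v : Fin 3 → ℂ // v ≠ 0}) :=
      prod_mem_nhds (Metric.ball_mem_nhds z0 hr) Filter.univ_mem
    refine ContinuousOn.continuousAt ?_ hmem
    rw [continuousOn_iff_continuous_domRestrict]
    have hne : ∀ q : ↥(Metric.ball z0 r ×ˢ (Set.univ : Set {v : Fin 3 → ℂ // v ≠ 0})),
        PhL u q.1.1 q.1.2.1 ≠ 0 := by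
      intro q
      obtain ⟨c, hc0, h⟩ := PhL_eq q.1.2.1 (fun j => hc j q.1.1 q.2.1)
      rw [h]
      exact smul_ne_zero hc0 (Ph_ne _ q.1.2.2)
    have hcont : Continuous fun q : ↥(Metric.ball z0 r ×ˢ (Set.univ : Set {v : Fin 3 → ℂ // v ≠ 0})) =>
        PhL u q.1.1 q.1.2.1 := by
      unfold PhL sy
      apply continuous_pi
      intro i
      apply continuous_finsetSum
      intro π _
      apply continuous_finsetProd
      intro j _
      apply Continuous.mul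
      · have h1 : Continuous fun z : Metric.ball z0 r => u (π j) z.1 :=
          continuousOn_iff_continuous_domRestrict.mp (hu (π j)).continuousOn
        have h2 : Continuous fun q : ↥(Metric.ball z0 r ×ˢ (Set.univ : Set {v : Fin 3 → ℂ // v ≠ 0})) =>
          (⟨q.1.1, q.2.1⟩ : Metric.ball z0 r) := by fun_prop
        exact (continuous_apply (i j).1).comp (h1.comp h2)
      · have h1 : Continuous fun q : ↥(Metric.ball z0 r ×ˢ (Set.univ : Set {v : Fin 3 → ℂ // v ≠ 0})) =>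
          dg (((π j : Fin 6) : ℕ) : ℤ) q.1.2.1 :=
          (continuous_dg _).comp (continuous_subtype_val.comp
            (continuous_snd.comp continuous_subtype_val))
        exact (continuous_apply (i j).2).comp h1
    have hq4 : ∀ q : ↥(Metric.ball z0 r ×ˢ (Set.univ : Set {v : Fin 3 → ℂ // v ≠ 0})),
        ph q.1.1 (Projectivization.mk ℂ q.1.2.1 q.1.2.2) =
          Projectivization.mk ℂ (PhL u q.1.1 q.1.2.1) (hne q) := by
      intro q
      obtain ⟨c, hc0, h⟩ := PhL_eq q.1.2.1 (fun j => hc j q.1.1 q.2.1)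
      have e1 : (Projectivization.mk ℂ (PhL u q.1.1 q.1.2.1) (hne q) : ℙ ℂ (K6 → ℂ)) =
        Projectivization.mk ℂ (Ph q.1.1 q.1.2.1) (Ph_ne q.1.1 q.1.2.2) :=
        mk_eq_of_smul (hne q) (Ph_ne q.1.1 q.1.2.2) c (h q.1.2.1)
      exact (ph_mk q.1.1 q.1.2.1 q.1.2.2).trans e1.symm
    have h3 : Continuous fun q : ↥(Metric.ball z0 r ×ˢ (Set.univ : Set {v : Fin 3 → ℂ // v ≠ 0})) =>
        (Projectivization.mk ℂ (PhL u q.1.1 q.1.2.1) (hne q) : ℙ ℂ (K6 → ℂ)) :=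
      continuous_mk.comp (hcont.subtype_mk hne)
    have h4 : (fun q : ↥(Metric.ball z0 r ×ˢ (Set.univ : Set {v : Fin 3 → ℂ // v ≠ 0})) =>
        ph q.1.1 (Projectivization.mk ℂ q.1.2.1 q.1.2.2)) =
        fun q : ↥(Metric.ball z0 r ×ˢ (Set.univ : Set {v : Fin 3 → ℂ // v ≠ 0})) =>
        (Projectivization.mk ℂ (PhL u q.1.1 q.1.2.1) (hne q) : ℙ ℂ (K6 → ℂ)) := funext hq4
    rw [← h4] at h3
    exact h3

end Pool.Agent.R866.TF
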