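import Pool.Agent.R866.TF.QL

/-! Quotients by free actions of `ℤ²`. -/

set_option linter.all false

namespace Pool.Agent.R866.TF

open Finsupp

universe u v

/-- the alternating sum of the faces -/
noncomputable def bd {S : ℕ → Type u} (f : ∀ n, Fin (n + 2) → S (n + 1) → S n) (n : ℕ) :
    (S (n + 1) →₀ ℤ) →ₗ[ℤ] (S n →₀ ℤ) :=
  ∑ i : Fin (n + 2), ((-1 : ℤ) ^ (i : ℕ)) • Finsupp.lmapDomain ℤ ℤ (f n i)

theorem bd_single {S : ℕ → Type u} (f : ∀ n, Fin (n + 2) → S (n + 1) → S n) (n : ℕ)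
    (s : S (n + 1)) : bd f n (single s 1) =
      ∑ i : Fin (n + 2), ((-1 : ℤ) ^ (i : ℕ)) • single (f n i s) (1 : ℤ) := by
  simp [bd, LinearMap.sum_apply]

theorem bd_mp {S : ℕ → Type u} {T : ℕ → Type v} (fS : ∀ n, Fin (n + 2) → S (n + 1) → S n)
    (fT : ∀ n, Fin (n + 2) → T (n + 1) → T n) (p : ∀ n, S n → T n)
    (hp : ∀ n i s, fT n i (p (n + 1) s) = p n (fS n i s)) (n : ℕ) (z : S (n + 1) →₀ ℤ) :
    bd fT n (mp (p (n + 1)) z) = mp (p n) (bd fS n z) := by
  have : (bd fT n).comp (mp (p (n + 1))) = (mp (p n)).comp (bd fS n) := by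
    apply Finsupp.lhom_ext'
    intro s
    apply LinearMap.ext_ring
    simp only [LinearMap.comp_apply, lsingle_apply]
    rw [mp_single, bd_single, bd_single, map_sum]
    refine Finset.sum_congr rfl fun i _ => ?_
    rw [map_smul, mp_single, hp]
  exact LinearMap.congr_fun this z

theorem bd_supported {S : ℕ → Type u} (f : ∀ n, Fin (n + 2) → S (n + 1) → S n)
    (A : ∀ n, Set (S n)) (hA : ∀ n i s, s ∈ A (n + 1) → f n i s ∈ A n) (n : ℕ)
    (z : S (n + 1) →₀ ℤ) (hz : z ∈ supported ℤ ℤ (A (n + 1))) : bd f n z ∈ supported ℤ ℤ (A n) := by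
  refine supp_map _ (bd f n) _ ?_ z hz
  intro s hs
  rw [bd_single]
  apply Submodule.sum_mem
  intro i _
  apply Submodule.smul_mem
  exact Finsupp.single_mem_supported ℤ _ (hA n i s hs)

section

variable {S : ℕ → Type u} {T : ℕ → Type v} (h1 : ∀ n, S n ≃ S n)

/-- orbit relation -/
def orbS (n : ℕ) : Setoid (S n) where
  r s s' := ∃ k : ℤ, s' = (h1 n ^ k) s
  iseqv := by
    refine ⟨fun s => ⟨0, by simp⟩, ?_, ?_⟩
    · rintro s s' ⟨k, rfl⟩
      exact ⟨-k, by rw [← Equiv.Perm.mul_apply, ← zpow_add]; simp⟩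
    · rintro s s' s'' ⟨k, rfl⟩ ⟨l, rfl⟩
      exact ⟨l + k, by rw [← Equiv.Perm.mul_apply, ← zpow_add]⟩

/-- the orbit set -/
def Orb (n : ℕ) : Type u := Quotient (orbS h1 n)

/-- the orbit of an element -/
def om (n : ℕ) (s : S n) : Orb h1 n := Quotient.mk (orbS h1 n) s

theorem om_surj (n : ℕ) : Function.Surjective (om h1 n) := Quotient.mk_surjective

theorem om_eq (n : ℕ) (s s' : S n) : om h1 n s = om h1 n s' ↔ ∃ k : ℤ, s' = (h1 n ^ k) s :=
  Quotient.eq (r := orbS h1 n)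

theorem commute_zpow {A B : Type u} (h : A ≃ A) (g : B ≃ B) (f : A → B)
    (hf : ∀ a, f (h a) = g (f a)) (k : ℤ) (a : A) : f ((h ^ k) a) = (g ^ k) (f a) := by
  induction k using Int.induction_on generalizing a with
  | zero => simp
  | succ k ih =>
    rw [zpow_add_one, zpow_add_one, Equiv.Perm.mul_apply, Equiv.Perm.mul_apply, ih, hf]
  | pred k ih =>
    have e : ∀ a, f (h⁻¹ a) = g⁻¹ (f a) := by
      intro a
      have h3 : h (h⁻¹ a) = a := Equiv.apply_symm_apply h a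
      rw [Equiv.Perm.eq_inv_iff_eq, ← hf, h3]
    rw [zpow_sub_one, zpow_sub_one, Equiv.Perm.mul_apply, Equiv.Perm.mul_apply, ih, e]

theorem commute_zpow_self {A : Type u} (h g : A ≃ A) (hf : ∀ a, g (h a) = h (g a)) (k : ℤ)
    (a : A) : g ((h ^ k) a) = (h ^ k) (g a) :=
  commute_zpow h h g (fun a => hf a) k a

/-- faces of orbits -/
def fO (fS : ∀ n, Fin (n + 2) → S (n + 1) → S n)
    (hf : ∀ n i s, fS n i (h1 (n + 1) s) = h1 n (fS n i s)) (n : ℕ) (i : Fin (n + 2)) :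
    Orb h1 (n + 1) → Orb h1 n :=
  Quotient.lift (fun s => om h1 n (fS n i s)) (by
    rintro s s' ⟨k, rfl⟩
    show om h1 n (fS n i s) = om h1 n (fS n i ((h1 (n + 1) ^ k) s))
    rw [om_eq]
    exact ⟨k, commute_zpow (h1 (n + 1)) (h1 n) (fS n i) (hf n i) k s⟩)

/-- the map induced on orbits by a commuting automorphism -/
def hO (h2 : ∀ n, S n ≃ S n) (hc : ∀ n s, h1 n (h2 n s) = h2 n (h1 n s)) (n : ℕ) :
    Orb h1 n ≃ Orb h1 n where
  toFun := Quotient.lift (fun s => om h1 n (h2 n s)) (by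
    rintro s s' ⟨k, rfl⟩
    show om h1 n (h2 n s) = om h1 n (h2 n ((h1 n ^ k) s))
    rw [om_eq]
    exact ⟨k, commute_zpow_self (h1 n) (h2 n) (fun a => (hc n a).symm) k s⟩)
  invFun := Quotient.lift (fun s => om h1 n ((h2 n).symm s)) (by
    rintro s s' ⟨k, rfl⟩
    show om h1 n ((h2 n).symm s) = om h1 n ((h2 n).symm ((h1 n ^ k) s))
    rw [om_eq]
    refine ⟨k, commute_zpow_self (h1 n) (h2 n).symm (fun a => ?_) k s⟩
    rw [Equiv.symm_apply_eq, ← hc, Equiv.apply_symm_apply])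
  left_inv := by
    intro x
    obtain ⟨s, rfl⟩ := om_surj h1 n x
    show om h1 n ((h2 n).symm (h2 n s)) = om h1 n s
    rw [Equiv.symm_apply_apply]
  right_inv := by
    intro x
    obtain ⟨s, rfl⟩ := om_surj h1 n x
    show om h1 n (h2 n ((h2 n).symm s)) = om h1 n s
    rw [Equiv.apply_symm_apply]

theorem hO_om (h2 : ∀ n, S n ≃ S n) (hc : ∀ n s, h1 n (h2 n s) = h2 n (h1 n s)) (n : ℕ) (s : S n) :
    hO h1 h2 hc n (om h1 n s) = om h1 n (h2 n s) := rfl

end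

section QL2

variable {S : ℕ → Type u} {T : ℕ → Type v}
  (fS : ∀ n, Fin (n + 2) → S (n + 1) → S n) (fT : ∀ n, Fin (n + 2) → T (n + 1) → T n)
  (p : ∀ n, S n → T n) (h1 h2 : ∀ n, S n ≃ S n) (B : ∀ n, Set (T n))

theorem quotient_acyclic₂ (hp : ∀ n, Function.Surjective (p n))
    (hpf : ∀ n i s, fT n i (p (n + 1) s) = p n (fS n i s))
    (hp1 : ∀ n s, p n (h1 n s) = p n s) (hp2 : ∀ n s, p n (h2 n s) = p n s)
    (hf1 : ∀ n i s, fS n i (h1 (n + 1) s) = h1 n (fS n i s))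
    (hf2 : ∀ n i s, fS n i (h2 (n + 1) s) = h2 n (fS n i s))
    (hc : ∀ n s, h1 n (h2 n s) = h2 n (h1 n s))
    (hfib : ∀ n s s', p n s = p n s' → ∃ k l : ℤ, s' = (h1 n ^ k) ((h2 n ^ l) s))
    (hfree : ∀ n s (k l : ℤ), (h1 n ^ k) ((h2 n ^ l) s) = s → k = 0 ∧ l = 0)
    (hB : ∀ n i t, t ∈ B (n + 1) → fT n i t ∈ B n)
    (hdd : ∀ n z, bd fS n (bd fS (n + 1) z) = 0)
    (inj : ∀ n x, RC (bd fS) (fun n => p n ⁻¹' B n) n x →
      x - mp (h1 n) x ∈ RB (bd fS) (fun n => p n ⁻¹' B n) n →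
        x ∈ RB (bd fS) (fun n => p n ⁻¹' B n) n)
    (surj : ∀ n x, RC (bd fS) (fun n => p n ⁻¹' B n) n x →
      ∃ x', RC (bd fS) (fun n => p n ⁻¹' B n) n x' ∧
      x - (x' - mp (h1 n) x') ∈ RB (bd fS) (fun n => p n ⁻¹' B n) n)
    (n : ℕ) (y : T n →₀ ℤ) (hy : RC (bd fT) B n y) : y ∈ RB (bd fT) B n := by
  have hpk : ∀ n s (k : ℤ), p n ((h1 n ^ k) s) = p n s := by
    intro n s k
    induction k using Int.induction_on generalizing s with
    | zero => simp
    | succ k ih => rw [zpow_add_one, Equiv.Perm.mul_apply, ih, hp1]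
    | pred k ih =>
      rw [zpow_sub_one, Equiv.Perm.mul_apply, ih]
      have h3 : h1 n ((h1 n)⁻¹ s) = s := Equiv.apply_symm_apply (h1 n) s
      conv_rhs => rw [← h3]
      rw [hp1]
  let q : ∀ n, Orb h1 n → T n := fun n => Quotient.lift (p n) (by
    rintro s s' ⟨k, rfl⟩
    exact (hpk n s k).symm)
  have hq : ∀ n s, q n (om h1 n s) = p n s := fun n s => rfl
  have hOk : ∀ n s (k : ℤ), (hO h1 h2 hc n ^ k) (om h1 n s) = om h1 n ((h2 n ^ k) s) := by
    intro n s k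
    exact (commute_zpow (h2 n) (hO h1 h2 hc n) (om h1 n) (fun a => (hO_om h1 h2 hc n a).symm)
      k s).symm
  -- first step
  have step1 : ∀ n y, RC (bd (fO h1 fS hf1)) (fun n => q n ⁻¹' B n) n y →
      y ∈ RB (bd (fO h1 fS hf1)) (fun n => q n ⁻¹' B n) n := by
    apply quotient_acyclic (bd fS) (bd (fO h1 fS hf1)) (om h1) h1 (fun n => q n ⁻¹' B n)
      (om_surj h1)
    · exact bd_mp fS (fO h1 fS hf1) (om h1) (fun n i s => rfl)
    · intro n s
      rw [om_eq]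
      exact ⟨-1, by simp⟩
    · exact bd_mp fS fS (fun n => h1 n) hf1
    · intro n s s' h
      exact (om_eq h1 n s s').mp h
    · intro n s k hk
      exact (hfree n s k 0 (by simpa using hk)).1
    · apply bd_supported fS (fun n => om h1 n ⁻¹' (q n ⁻¹' B n))
      intro n i s hs
      show p n (fS n i s) ∈ B n
      rw [← hpf]
      exact hB n i _ hs
    · exact hdd
    · exact inj
    · exact surj
  -- second step
  apply quotient_acyclic (bd (fO h1 fS hf1)) (bd fT) q (hO h1 h2 hc) B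
  · intro n t
    obtain ⟨s, rfl⟩ := hp n t
    exact ⟨om h1 n s, rfl⟩
  · apply bd_mp (fO h1 fS hf1) fT q
    intro n i x
    obtain ⟨s, rfl⟩ := om_surj h1 (n + 1) x
    exact hpf n i s
  · intro n x
    obtain ⟨s, rfl⟩ := om_surj h1 n x
    exact hp2 n s
  · apply bd_mp (fO h1 fS hf1) (fO h1 fS hf1) (fun n => hO h1 h2 hc n)
    intro n i x
    obtain ⟨s, rfl⟩ := om_surj h1 (n + 1) x
    show om h1 n (fS n i (h2 (n + 1) s)) = om h1 n (h2 n (fS n i s))
    rw [hf2]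
  · intro n x x' hxx
    obtain ⟨s, rfl⟩ := om_surj h1 n x
    obtain ⟨s', rfl⟩ := om_surj h1 n x'
    obtain ⟨k, l, hkl⟩ := hfib n s s' hxx
    refine ⟨l, ?_⟩
    rw [hOk, hkl, om_eq]
    exact ⟨-k, by rw [← Equiv.Perm.mul_apply, ← zpow_add]; simp⟩
  · intro n x k hk
    obtain ⟨s, rfl⟩ := om_surj h1 n x
    rw [hOk, om_eq] at hk
    obtain ⟨j, hj⟩ := hk
    exact (hfree n s j k hj.symm).2
  · apply bd_supported (fO h1 fS hf1) (fun n => q n ⁻¹' B n)
    intro n i x hx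
    obtain ⟨s, rfl⟩ := om_surj h1 (n + 1) x
    show p n (fS n i s) ∈ B n
    rw [← hpf]
    exact hB n i _ hx
  · intro n z
    obtain ⟨w, rfl⟩ := Finsupp.mapDomain_surjective (om_surj h1 (n + 2)) z
    have e1 := bd_mp fS (fO h1 fS hf1) (om h1) (fun n i s => rfl) (n + 1) w
    have e2 := bd_mp fS (fO h1 fS hf1) (om h1) (fun n i s => rfl) n (bd fS (n + 1) w)
    simp only [mp, Finsupp.lmapDomain_apply] at e1 e2
    rw [e1, e2, hdd]
    simp
  · intro n x hx _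
    exact step1 n x hx
  · intro n x hx
    refine ⟨0, ?_, ?_⟩
    · cases n with
      | zero => trivial
      | succ n =>
        show bd _ n 0 ∈ _
        rw [map_zero]
        exact Submodule.zero_mem _
    · simpa using step1 n x hx
  · exact hy

end QL2

end Pool.Agent.R866.TF
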