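import Pool.Agent.R866.TF.W

/-! The relative homology of the family of cubics. -/

set_option linter.all false

open scoped LinearAlgebra.Projectivization

namespace Pool.Agent.R866.TF

open Pool.Agent.Helper922.HB

/-- the model with the first coordinate in `E` -/
def NE (E : Set ℂ) : Set (ℂ × ℂ) := {q | q.1 ∈ E ∧ q ∈ N0}

/-- the shrinking factor -/
noncomputable def shr (C s : ℝ) (x : ℂ) : ℂ := ((1 + s * C * ‖x‖ : ℝ) : ℂ)⁻¹ * x

theorem shr_norm {C s : ℝ} (hC : 0 ≤ C) (hs : 0 ≤ s) (x : ℂ) :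
    ‖shr C s x‖ = (1 + s * C * ‖x‖)⁻¹ * ‖x‖ := by
  have h : 0 ≤ 1 + s * C * ‖x‖ := by positivity
  unfold shr
  rw [norm_mul, norm_inv, Complex.norm_real, Real.norm_of_nonneg h]

theorem shr_le {C s : ℝ} (hC : 0 ≤ C) (hs : 0 ≤ s) (x : ℂ) : ‖shr C s x‖ ≤ ‖x‖ := by
  rw [shr_norm hC hs]
  have h : 1 ≤ 1 + s * C * ‖x‖ := by
    have : 0 ≤ s * C * ‖x‖ := by positivity
    linarith
  have h2 : (1 + s * C * ‖x‖)⁻¹ ≤ 1 := inv_le_one_of_one_le₀ h
  calc (1 + s * C * ‖x‖)⁻¹ * ‖x‖ ≤ 1 * ‖x‖ := mul_le_mul_of_nonneg_right h2 (norm_nonneg _)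
    _ = ‖x‖ := one_mul _

theorem shr_le' {C : ℝ} (hC : 0 < C) (x : ℂ) : ‖shr C 1 x‖ ≤ C⁻¹ := by
  rw [shr_norm hC.le zero_le_one, one_mul, inv_mul_le_iff₀ (by positivity)]
  have : (1 + C * ‖x‖) * C⁻¹ = C⁻¹ + ‖x‖ := by
    field_simp
  rw [this]
  have : 0 < C⁻¹ := by positivity
  linarith

theorem continuous_shr (C : ℝ) (hC : 0 ≤ C) {X : Type*} [TopologicalSpace X] {s : X → ℝ}
    {x : X → ℂ} (hs : Continuous s) (hs0 : ∀ a, 0 ≤ s a) (hx : Continuous x) :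
    Continuous fun a => shr C (s a) (x a) := by
  unfold shr
  apply Continuous.mul _ hx
  apply Continuous.inv₀
  · fun_prop
  · intro a
    have h1 : 0 < 1 + s a * C * ‖x a‖ := by
      have := hs0 a
      positivity
    exact_mod_cast h1.ne'

theorem exists_C (y : ℂ) : ∃ C : ℝ, 0 < C ∧ ‖y‖ * (C⁻¹) ^ 6 < 1 / 2 := by
  refine ⟨1 + 2 * ‖y‖, by positivity, ?_⟩
  have h1 : 1 ≤ 1 + 2 * ‖y‖ := by
    have := norm_nonneg y
    linarith
  have h2 : (1 + 2 * ‖y‖) ≤ (1 + 2 * ‖y‖) ^ 6 := le_self_pow₀ h1 (by norm_num)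
  rw [inv_pow, ← div_eq_mul_inv, div_lt_iff₀ (by positivity)]
  linarith

/-- the model pair is acyclic -/
theorem RAc_NE (E : Set ℂ) (hE : ∀ x ∈ E, ∀ r : ℝ, 0 < r → ((r : ℂ)) * x ∈ E) (y : ℂ) :
    RAc (Subtype.val ⁻¹' {q : ℂ × ℂ | q.2 = y} : Set (NE E)) := by
  obtain ⟨C, hC, hCy⟩ := exists_C y
  have hshE : ∀ x ∈ E, ∀ s : ℝ, 0 ≤ s → shr C s x ∈ E := by
    intro x hx s hs
    unfold shr
    have h1 : 0 < 1 + s * C * ‖x‖ := by positivity
    have := hE x hx (1 + s * C * ‖x‖)⁻¹ (by positivity)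
    rwa [Complex.ofReal_inv] at this
  have hN1 : ∀ q ∈ N0, ∀ s : ℝ, 0 ≤ s → (shr C s q.1, q.2) ∈ N0 := by
    intro q hq s hs
    have h1 := shr_le hC.le hs q.1
    have hq' : ‖q.2‖ * ‖q.1‖ ^ 6 < 1 / 2 := hq
    show ‖q.2‖ * ‖shr C s q.1‖ ^ 6 < 1 / 2
    refine lt_of_le_of_lt ?_ hq'
    gcongr
  have hN2 : ∀ q ∈ N0, ∀ s : ℝ, 0 ≤ s → s ≤ 1 →
      (shr C 1 q.1, ((1 - s : ℝ) : ℂ) * q.2 + (s : ℂ) * y) ∈ N0 := by
    intro q hq s hs hs1
    have hq' : ‖q.2‖ * ‖shr C 1 q.1‖ ^ 6 < 1 / 2 := hN1 q hq 1 zero_le_one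
    have h2 : ‖y‖ * ‖shr C 1 q.1‖ ^ 6 < 1 / 2 := by
      refine lt_of_le_of_lt ?_ hCy
      gcongr
      exact shr_le' hC q.1
    show ‖((1 - s : ℝ) : ℂ) * q.2 + (s : ℂ) * y‖ * ‖shr C 1 q.1‖ ^ 6 < 1 / 2
    have h3 : ‖((1 - s : ℝ) : ℂ) * q.2 + (s : ℂ) * y‖ ≤ (1 - s) * ‖q.2‖ + s * ‖y‖ := by
      refine (norm_add_le _ _).trans ?_
      rw [norm_mul, norm_mul, Complex.norm_real, Complex.norm_real,
        Real.norm_of_nonneg hs, Real.norm_of_nonneg (by linarith)]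
    have h4 : ‖((1 - s : ℝ) : ℂ) * q.2 + (s : ℂ) * y‖ * ‖shr C 1 q.1‖ ^ 6 ≤
        ((1 - s) * ‖q.2‖ + s * ‖y‖) * ‖shr C 1 q.1‖ ^ 6 := by
      gcongr
    have h5 : ((1 - s) * ‖q.2‖ + s * ‖y‖) * ‖shr C 1 q.1‖ ^ 6 =
        (1 - s) * (‖q.2‖ * ‖shr C 1 q.1‖ ^ 6) + s * (‖y‖ * ‖shr C 1 q.1‖ ^ 6) := by ring
    rw [h5] at h4
    rcases eq_or_lt_of_le hs with h0 | hs0
    · rw [← h0] at h4 ⊢
      refine lt_of_le_of_lt h4 ?_
      simpa using hq'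
    · nlinarith
  let H : C(NE E × unitInterval, NE E) :=
    ⟨fun p => ⟨(shr C p.2 p.1.1.1, p.1.1.2), hshE _ p.1.2.1 _ p.2.2.1, hN1 _ p.1.2.2 _ p.2.2.1⟩, by
      apply Continuous.subtype_mk
      apply Continuous.prodMk
      · exact continuous_shr C hC.le (by fun_prop) (fun p => p.2.2.1) (by fun_prop)
      · fun_prop⟩
  let K : C(NE E × unitInterval, NE E) :=
    ⟨fun p => ⟨(shr C 1 p.1.1.1, ((1 - p.2 : ℝ) : ℂ) * p.1.1.2 + (p.2 : ℝ) * y),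
        hshE _ p.1.2.1 _ zero_le_one, hN2 _ p.1.2.2 _ p.2.2.1 p.2.2.2⟩, by
      apply Continuous.subtype_mk
      apply Continuous.prodMk
      · exact continuous_shr C hC.le (by fun_prop) (fun p => zero_le_one) (by fun_prop)
      · fun_prop⟩
  apply RAc_of_two H K
  · intro q hq s
    exact hq
  · intro q hq s
    have hq' : q.1.2 = y := hq
    show ((1 - s : ℝ) : ℂ) * q.1.2 + (s : ℝ) * y = y
    rw [hq']
    push_cast
    ring
  · intro q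
    apply Subtype.ext
    apply Prod.ext
    · show shr C ((0 : unitInterval) : ℝ) q.1.1 = q.1.1
      unfold shr
      simp
    · rfl
  · intro q
    apply Subtype.ext
    apply Prod.ext
    · rfl
    · show q.1.2 = ((1 - ((0 : unitInterval) : ℝ) : ℝ) : ℂ) * q.1.2 + (((0 : unitInterval) : ℝ) : ℂ) * y
      simp
  · intro q
    show ((1 - ((1 : unitInterval) : ℝ) : ℝ) : ℂ) * q.1.2 + (((1 : unitInterval) : ℝ) : ℂ) * y = y
    simp

theorem RAcO_of_model (O : Set WW) (E : Set ℂ) (hE : ∀ x ∈ E, ∀ r : ℝ, 0 < r → ((r : ℂ)) * x ∈ E)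
    (hON : O ⊆ WN) (h1 : ∀ w ∈ O, xi w ∈ E) (h2 : ∀ q : N0, q.1.1 ∈ E → gI q ∈ O) (y : ℂ) :
    RAcO O (Wy y) := by
  apply RAcO_of_RAc
  let f : C(O, NE E) := ⟨fun w => ⟨(xi w.1, w.1.1.1), h1 w.1 w.2, xi_mem (hON w.2)⟩, by
    apply Continuous.subtype_mk
    apply Continuous.prodMk
    · exact continuous_xi continuous_subtype_val (fun w => hON w.2)
    · fun_prop⟩
  let g : C(NE E, O) := ⟨fun q => ⟨gI ⟨q.1, q.2.2⟩, h2 ⟨q.1, q.2.2⟩ q.2.1⟩, by fun_prop⟩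
  refine RAc_of_retract f g ?_ ?_ ?_ (RAc_NE E hE y)
  · intro w hw
    exact hw
  · intro q hq
    exact hq
  · intro w
    apply Subtype.ext
    exact gI_xi (hON w.2)

theorem RAcO_WN (y : ℂ) : RAcO WN (Wy y) :=
  RAcO_of_model WN Set.univ (fun _ _ _ _ => trivial) (fun _ h => h) (fun _ _ => trivial)
    (fun q _ => gI_mem q) y

theorem gI_WA_iff (q : N0) : gI q ∈ WA ↔ q.1.1 ≠ 0 := by
  show (Projectivization.mk ℂ (vi q.1) (vi_ne q.1) : P2).rep 2 ≠ 0 ↔ _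
  rw [rep_ne_iff]
  show q.1.1 ^ 3 ≠ 0 ↔ _
  rw [Ne, pow_eq_zero_iff (by norm_num)]

theorem RAcO_WAN (y : ℂ) : RAcO (WA ∩ WN) (Wy y) := by
  apply RAcO_of_model (WA ∩ WN) {x | x ≠ 0} _ Set.inter_subset_right
  · rintro w ⟨h1, h2⟩
    have := gI_xi h2
    rw [← this, gI_WA_iff] at h1
    exact h1
  · intro q hq
    exact ⟨(gI_WA_iff q).mpr hq, gI_mem q⟩
  · intro x hx r hr
    exact mul_ne_zero (by exact_mod_cast hr.ne') hx

theorem actW_maps (m : ℤ) (y : ℂ) : Set.MapsTo (actW m) (Wy y) (Wy y) := fun _ h => h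

/-- the relation `G² - G + 1 = 0` on the relative homology of the family of cubics -/
theorem Psi_W (y : ℂ) (n : ℕ) (c : Sing WW n →₀ ℤ) (hc : RCy (Wy y) n c) :
    Psi (actW 1) n c ∈ RBd (Wy y) n := by
  obtain ⟨u, hu, hu2, hcu⟩ := excise WA WN (Wy y) isOpen_WA isOpen_WN cover_W (RAcO_WN y)
    (RAcO_WAN y) hc
  obtain ⟨u', rfl⟩ := exists_lift hu
  have e1 : push gA n (push fA n u') = push (sub WA) n u' := by
    rw [push_push]
    congr 2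
    ext1 w
    exact gA_fA w
  have hc2 : RCy (Mf y) n (push fA n u') := by
    cases n with
    | zero => trivial
    | succ n =>
      have h1 : bdry WW n (push (sub WA) (n + 1) u') ∈ sp (Wy y) n := hu2
      show bdry _ n _ ∈ _
      rw [bdry_push] at h1 ⊢
      have h2 : bdry WA n u' ∈ sp (Subtype.val ⁻¹' (Wy y) : Set WA) n := by
        obtain ⟨w, hw⟩ := exists_lift (sp_inter (push_sub_mem_sp WA (bdry WA n u')) h1)
        have e : bdry WA n u' = push (inclusionMap (Set.inter_subset_left : WA ∩ Wy y ⊆ WA)) n w := by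
          apply mvx_inj_sub WA n
          rw [push_push, ← hw]
          rfl
        rw [e]
        exact push_mem_sp_of_maps _ (fun x => x.2.2) w
      refine push_mem_sp fA ?_ h2
      intro w hw
      have h3 : (gA (fA w)).1.1 = y := by
        rw [gA_fA]
        exact hw
      exact h3
  have h4 := push_mem_RBd gA (gA_maps y) (Psi_aff y n _ hc2)
  rw [← Psi_push gA Ga (actW 1) gA_Ga, e1] at h4
  have h5 := Psi_mem_RBd (actW 1) (actW_maps 1 y) n hcu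
  rw [map_sub] at h5
  have := Submodule.add_mem _ h5 h4
  rwa [sub_add_cancel] at this

end Pool.Agent.R866.TF
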