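import Pool.Agent.R866.TF.Cov
import Pool.Agent.R866.TF.WR
import Pool.Agent.R866.TF.QL2

/-! The total space is a `ℤ`-homology fibre bundle over `ℂ`. -/

set_option linter.all false

open scoped LinearAlgebra.Projectivization Topology

namespace Pool.Agent.R866.TF

open Pool.Agent.Helper922.HB

/-! ### the relation on `ℂ × W` -/

/-- the preimage of the fibre -/
def Qy (y : ℂ) : Set (ℂ × WW) := {q | q.2.1.1 = y}

/-- the inclusion of `W` -/
noncomputable def iW : C(WW, ℂ × WW) := ⟨fun w => (0, w), by fun_prop⟩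

/-- the projection to `W` -/
noncomputable def qW : C(ℂ × WW, WW) := ⟨fun q => q.2, by fun_prop⟩

theorem aQ_maps (m n : ℤ) (y : ℂ) : Set.MapsTo (aQ m n) (Qy y) (Qy y) := fun _ h => h

theorem Psi_Q (y : ℂ) (n : ℕ) (c : Sing (ℂ × WW) n →₀ ℤ) (hc : RCy (Qy y) n c) :
    Psi (aQ 1 0) n c ∈ RBd (Qy y) n := by
  have mq : Set.MapsTo qW (Qy y) (Wy y) := fun _ h => h
  have mi : Set.MapsTo iW (Wy y) (Qy y) := fun _ h => h
  have hd : RCy (Wy y) n (push qW n c) := hc.push qW mq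
  -- `c` comes from `W`
  have e1 : c - push iW n (push qW n c) ∈ RBd (Qy y) n := by
    let H : C((ℂ × WW) × unitInterval, ℂ × WW) :=
      ⟨fun p => (((p.2 : ℝ) : ℂ) * p.1.1, p.1.2), by fun_prop⟩
    have := push_sub_mem_RBd H (iW.comp qW) (ContinuousMap.id _) (P := Qy y) (Q := Qy y)
      (fun x hx t => hx) (fun x => by
        show ((((0 : unitInterval) : ℝ) : ℂ) * x.1, x.2) = (0, x.2)
        simp) (fun x => by
        show ((((1 : unitInterval) : ℝ) : ℂ) * x.1, x.2) = x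
        simp) hc
    rwa [push_id, ← push_push] at this
  have e2 : ∀ d : Sing WW n →₀ ℤ, RCy (Wy y) n d →
      push (aQ 1 0) n (push iW n d) - push iW n (push (actW 1) n d) ∈ RBd (Qy y) n := by
    intro d hd
    let H : C(WW × unitInterval, ℂ × WW) :=
      ⟨fun p => (((p.2 : ℝ) : ℂ) / 6, actW 1 p.1), by fun_prop⟩
    have := push_sub_mem_RBd H (iW.comp (actW 1)) ((aQ 1 0).comp iW) (P := Wy y) (Q := Qy y)
      (fun x hx t => hx) (fun x => by
        show ((((0 : unitInterval) : ℝ) : ℂ) / 6, actW 1 x) = (0, actW 1 x)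
        simp) (fun x => by
        show ((((1 : unitInterval) : ℝ) : ℂ) / 6, actW 1 x) =
          (0 + ((1 : ℤ) : ℂ) / 6 + ((0 : ℤ) : ℂ) * Complex.I, actW 1 x)
        simp) hd
    rwa [← push_push, ← push_push] at this
  set d := push qW n c with hdd
  have a1 : push (aQ 1 0) n c - push iW n (push (actW 1) n d) ∈ RBd (Qy y) n := by
    have h1 := push_mem_RBd (aQ 1 0) (aQ_maps 1 0 y) e1
    rw [map_sub] at h1
    have := Submodule.add_mem _ h1 (e2 d hd)
    rwa [sub_add_sub_cancel] at this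
  have a2 : push (aQ 1 0) n (push (aQ 1 0) n c) -
      push iW n (push (actW 1) n (push (actW 1) n d)) ∈ RBd (Qy y) n := by
    have h1 := push_mem_RBd (aQ 1 0) (aQ_maps 1 0 y) a1
    rw [map_sub] at h1
    have := Submodule.add_mem _ h1 (e2 _ (hd.push (actW 1) (actW_maps 1 y)))
    rwa [sub_add_sub_cancel] at this
  have a3 := push_mem_RBd iW mi (Psi_W y n d hd)
  rw [Psi_apply, map_add, map_sub] at a3
  have h3 := Submodule.add_mem _ (Submodule.add_mem _ (Submodule.sub_mem _ a2 a1) e1) a3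
  rw [Psi_apply]
  have e : push (aQ 1 0) n (push (aQ 1 0) n c) -
      push iW n (push (actW 1) n (push (actW 1) n d)) -
      (push (aQ 1 0) n c - push iW n (push (actW 1) n d)) + (c - push iW n d) +
      (push iW n (push (actW 1) n (push (actW 1) n d)) - push iW n (push (actW 1) n d) +
        push iW n d) = push (aQ 1 0) n (push (aQ 1 0) n c) - push (aQ 1 0) n c + c := by abel
  rwa [e] at h3

/-! ### the automorphisms of the simplices -/

/-- deck transformations on simplices -/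
noncomputable def hS (m n : ℤ) (k : ℕ) : Sing (ℂ × WW) k ≃ Sing (ℂ × WW) k where
  toFun σ := (aQ m n).comp σ
  invFun σ := (aQ (-m) (-n)).comp σ
  left_inv σ := by
    ext1 x
    show aQ (-m) (-n) (aQ m n (σ x)) = σ x
    rw [← aQ_add, neg_add_cancel, neg_add_cancel, aQ_zero]
  right_inv σ := by
    ext1 x
    show aQ m n (aQ (-m) (-n) (σ x)) = σ x
    rw [← aQ_add, add_neg_cancel, add_neg_cancel, aQ_zero]

theorem hS_apply (m n : ℤ) (k : ℕ) (σ : Sing (ℂ × WW) k) : hS m n k σ = (aQ m n).comp σ := rfl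

theorem hS_mul (m n m' n' : ℤ) (k : ℕ) : hS m n k * hS m' n' k = hS (m + m') (n + n') k := by
  ext1 σ
  rw [Equiv.Perm.mul_apply]
  ext1 x
  show aQ m n (aQ m' n' (σ x)) = aQ (m + m') (n + n') (σ x)
  rw [aQ_add]

theorem hS_zero (k : ℕ) : hS 0 0 k = 1 := by
  ext1 σ
  ext1 x
  show aQ 0 0 (σ x) = σ x
  rw [aQ_zero]

theorem hS_inv (m n : ℤ) (k : ℕ) : (hS m n k)⁻¹ = hS (-m) (-n) k := by
  rw [inv_eq_iff_mul_eq_one, hS_mul, add_neg_cancel, add_neg_cancel, hS_zero]

theorem hS_zpow (m n : ℤ) (k : ℕ) (a : ℤ) : (hS m n k) ^ a = hS (a * m) (a * n) k := by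
  induction a using Int.induction_on with
  | zero => simp [hS_zero]
  | succ a ih =>
    rw [zpow_add_one, ih, hS_mul]
    congr 1 <;> ring
  | pred a ih =>
    rw [zpow_sub_one, ih, hS_inv, hS_mul]
    congr 1 <;> ring

theorem hS_zpow2 (k : ℕ) (a b : ℤ) (σ : Sing (ℂ × WW) k) :
    ((hS 1 0 k) ^ a) (((hS 0 1 k) ^ b) σ) = (aQ a b).comp σ := by
  rw [hS_zpow, hS_zpow, ← Equiv.Perm.mul_apply, hS_mul, hS_apply]
  congr 1
  congr 1 <;> ring

/-- the fibre of the total space -/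
def Xy (y : ℂ) : Set XX := {x | x.1.1 = y}

theorem preim_ss (y : ℂ) (n : ℕ) :
    (fun σ : Sing (ℂ × WW) n => pX.comp σ) ⁻¹' (ss (Xy y) n) = ss (Qy y) n := by
  ext σ
  constructor
  · rintro h _ ⟨x, rfl⟩
    exact h ⟨x, rfl⟩
  · rintro h _ ⟨x, rfl⟩
    exact h ⟨x, rfl⟩

/-- the pair (total space, fibre) is acyclic -/
theorem RAc_X (y : ℂ) : RAc (Xy y) := by
  intro n z hz
  have hset : (fun n => (fun σ : Sing (ℂ × WW) n => pX.comp σ) ⁻¹' (ss (Xy y) n)) =
      ss (Qy y) := funext fun n => preim_ss y n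
  refine quotient_acyclic₂ (S := fun n => Sing (ℂ × WW) n) (T := fun n => Sing XX n)
    (fun n => sface n) (fun n => sface n) (fun n σ => pX.comp σ)
    (fun n => hS 1 0 n) (fun n => hS 0 1 n) (ss (Xy y)) ?_ ?_ ?_ ?_ ?_ ?_ ?_ ?_ ?_ ?_ ?_ ?_ ?_ n z hz
  · intro n σ
    exact lift_simplex n σ
  · intro n i σ
    rfl
  · intro n σ
    ext1 x
    exact pX_aQ 1 0 (σ x)
  · intro n σ
    ext1 x
    exact pX_aQ 0 1 (σ x)
  · intro n i σ
    rfl
  · intro n i σ
    rfl
  · intro n σ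
    show (hS 1 0 n * hS 0 1 n) σ = (hS 0 1 n * hS 1 0 n) σ
    rw [hS_mul, hS_mul]
    rfl
  · intro n σ τ h
    obtain ⟨k, l, hkl⟩ := lift_unique n σ τ h
    exact ⟨k, l, by rw [hS_zpow2]; exact hkl⟩
  · intro n σ k l h
    rw [hS_zpow2] at h
    exact aQ_fixed (DFunLike.congr_fun h (Sc.vert n 0))
  · intro n i τ h
    exact (range_sface n i τ).trans h
  · intro n w
    exact bdry_bdry n w
  · intro n x hx hxx
    rw [hset] at hx hxx ⊢
    have hx' : RCy (Qy y) n x := hx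
    have h1 : x - push (aQ 1 0) n x ∈ RBd (Qy y) n := hxx
    have h2 := push_mem_RBd (aQ 1 0) (aQ_maps 1 0 y) h1
    rw [map_sub] at h2
    have h3 := Psi_Q y n x hx'
    rw [Psi_apply] at h3
    have h4 := Submodule.add_mem _ h3 h2
    have e : push (aQ 1 0) n (push (aQ 1 0) n x) - push (aQ 1 0) n x + x +
      (push (aQ 1 0) n x - push (aQ 1 0) n (push (aQ 1 0) n x)) = x := by abel
    rw [e] at h4
    exact h4
  · intro n x hx
    rw [hset] at hx ⊢
    have hx' : RCy (Qy y) n x := hx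
    refine ⟨push (aQ 1 0) n x, hx'.push (aQ 1 0) (aQ_maps 1 0 y), ?_⟩
    have h3 := Psi_Q y n x hx'
    rw [Psi_apply] at h3
    have e : push (aQ 1 0) n (push (aQ 1 0) n x) - push (aQ 1 0) n x + x =
      x - (push (aQ 1 0) n x - push (aQ 1 0) n (push (aQ 1 0) n x)) := by abel
    rw [e] at h3
    exact h3

/-- the first projection is a `ℤ`-homology fibre bundle -/
theorem bundle_X : IsZHomologyFiberBundle (fun x : XX => x.1.1) := by
  refine ⟨{Set.univ}, ?_, ?_, ?_⟩
  · rintro U rfl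
    exact isOpen_univ
  · intro y
    exact ⟨Set.univ, rfl, trivial⟩
  · rintro U rfl y hy n
    have h1 : HE (sub ((fun x : XX => x.1.1) ⁻¹' {y})) := (RAc_X y).HE
    have h2 : HE (sub ((fun x : XX => x.1.1) ⁻¹' (Set.univ : Set ℂ))) := by
      refine HE_of_homeo (Homeomorph.Set.univ XX) _ (fun x => rfl)
    have h3 : HE (inclusionMap (Set.preimage_mono (Set.singleton_subset_iff.mpr hy) :
        (fun x : XX => x.1.1) ⁻¹' {y} ⊆ (fun x : XX => x.1.1) ⁻¹' Set.univ)) :=
      HE.of_comp_left h2 h1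
    exact (HE_iff_bijective _).mp h3 n

end Pool.Agent.R866.TF
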