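import Pool.Agent.R866.TF.Proj

/-! Submersivity of the first projection does not depend on the local parametrisation. -/

set_option linter.all false

open scoped LinearAlgebra.Projectivization Topology

namespace Pool.Agent.R866.TF

open Pool.Agent.Helper922.HB

variable {ι : Type} [Fintype ι] {d : ℕ} {X : Set (ℂ × ℙ ℂ (ι → ℂ))}

/-- the affine coordinates of a parametrisation -/
noncomputable def Fc (P : LocalParam d X) (i0 : ι) (v : Fin d → ℂ) : ℂ × (ι → ℂ) :=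
  (P.a v, fun i => P.φ v i / P.φ v i0)

theorem Fc_eq (P C : LocalParam d X) (i0 : ι) {v w : Fin d → ℂ} (hv : v ∈ P.V) (hw : w ∈ C.V)
    (h : P.pt v hv = C.pt w hw) : Fc P i0 v = Fc C i0 w := by
  have h1 : P.a v = C.a w := congrArg Prod.fst h
  have h2 : Projectivization.mk ℂ (P.φ v) (P.φ_ne v hv) = Projectivization.mk ℂ (C.φ w) (C.φ_ne w hw) :=
    congrArg Prod.snd h
  rw [mk_eq_iff] at h2
  obtain ⟨a, ha, h2⟩ := h2
  apply Prod.ext
  · exact h1
  · funext i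
    show P.φ v i / P.φ v i0 = C.φ w i / C.φ w i0
    rw [h2]
    simp only [Pi.smul_apply, smul_eq_mul]
    rw [mul_div_mul_left _ _ ha]

theorem coord_ne (P C : LocalParam d X) {i0 : ι} {v w : Fin d → ℂ} (hv : v ∈ P.V) (hw : w ∈ C.V)
    (h : P.pt v hv = C.pt w hw) (h0 : C.φ w i0 ≠ 0) : P.φ v i0 ≠ 0 := by
  have h2 : Projectivization.mk ℂ (P.φ v) (P.φ_ne v hv) = Projectivization.mk ℂ (C.φ w) (C.φ_ne w hw) :=
    congrArg Prod.snd h
  rw [mk_eq_iff] at h2
  obtain ⟨a, ha, h2⟩ := h2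
  rw [h2]
  exact mul_ne_zero ha h0

theorem Fc_diff (P : LocalParam d X) {i0 : ι} {v : Fin d → ℂ} (hv : v ∈ P.V)
    (h0 : P.φ v i0 ≠ 0) : DifferentiableAt ℂ (Fc P i0) v := by
  have h1 : DifferentiableAt ℂ P.a v := P.holo_a.differentiableAt (P.isOpen_V.mem_nhds hv)
  have h2 : DifferentiableAt ℂ P.φ v := P.holo_φ.differentiableAt (P.isOpen_V.mem_nhds hv)
  have h3 := differentiableAt_pi.mp h2
  apply DifferentiableAt.prodMk h1
  rw [differentiableAt_pi]
  intro i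
  have h4 : DifferentiableAt ℂ (fun u => P.φ u i) v := h3 i
  have h5 : DifferentiableAt ℂ (fun u => P.φ u i0) v := h3 i0
  show DifferentiableAt ℂ (fun u => P.φ u i / P.φ u i0) v
  simp only [div_eq_mul_inv]
  exact h4.fun_mul (h5.fun_inv h0)

/-- the affine coordinates form an immersion -/
theorem Fc_inj (P : LocalParam d X) {i0 : ι} {v : Fin d → ℂ} (hv : v ∈ P.V)
    (h0 : P.φ v i0 ≠ 0) (h : Fin d → ℂ) (hh : fderiv ℂ (Fc P i0) v h = 0) : h = 0 := by
  have h1 : DifferentiableAt ℂ P.a v := P.holo_a.differentiableAt (P.isOpen_V.mem_nhds hv)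
  have h2 : DifferentiableAt ℂ P.φ v := P.holo_φ.differentiableAt (P.isOpen_V.mem_nhds hv)
  have l0 : HasDerivAt (fun s : ℂ => Fc P i0 (v + s • h)) (fderiv ℂ (Fc P i0) v h) 0 :=
    (Fc_diff P hv h0).hasFDerivAt.hasLineDerivAt h
  have l1 : HasDerivAt (fun s : ℂ => P.a (v + s • h)) (fderiv ℂ P.a v h) 0 :=
    h1.hasFDerivAt.hasLineDerivAt h
  have l2 : HasDerivAt (fun s : ℂ => P.φ (v + s • h)) (fderiv ℂ P.φ v h) 0 :=
    h2.hasFDerivAt.hasLineDerivAt h
  rw [hh] at l0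
  have l3 := hasDerivAt_pi.mp l2
  have hv0 : v + (0 : ℂ) • h = v := by simp
  apply P.immersion v hv h
  · have := l0.fst
    exact l1.unique this
  · refine ⟨fderiv ℂ P.φ v h i0 / P.φ v i0, ?_⟩
    funext i
    have l4 := hasDerivAt_pi.mp l0.snd i
    have l5 := (l3 i).div (l3 i0) (by rw [hv0]; exact h0)
    have l6 := l5.unique l4
    rw [hv0] at l6
    rw [div_eq_iff (pow_ne_zero 2 h0)] at l6
    simp only [Pi.zero_apply, Prod.snd_zero, zero_mul] at l6
    simp only [Pi.smul_apply, smul_eq_mul]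
    field_simp
    linear_combination l6

/-- chart independence -/
theorem submersive_of (C P : LocalParam d X) {v w : Fin d → ℂ} (hv : v ∈ P.V) (hw : w ∈ C.V)
    (h : P.pt v hv = C.pt w hw) (ha : ContDiffAt ℂ 1 C.a w) (hφ : ContDiffAt ℂ 1 C.φ w)
    (hs : ∃ k, fderiv ℂ C.a w k ≠ 0) : ∃ k, fderiv ℂ P.a v k ≠ 0 := by
  obtain ⟨i0, hi0⟩ := Function.ne_iff.mp (C.φ_ne w hw)
  have hi0' : C.φ w i0 ≠ 0 := hi0
  have hPi0 := coord_ne P C hv hw h hi0'
  -- strict derivative of the affine coordinates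
  have hFC : ContDiffAt ℂ 1 (Fc C i0) w := by
    apply ContDiffAt.prodMk ha
    rw [contDiffAt_pi]
    intro i
    have h3 := contDiffAt_pi.mp hφ
    exact (h3 i).div (h3 i0) hi0'
  have hstr : HasStrictFDerivAt (Fc C i0) (fderiv ℂ (Fc C i0) w) w :=
    hFC.hasStrictFDerivAt one_ne_zero
  set L := fderiv ℂ (Fc C i0) w with hL
  have hker : LinearMap.ker (L : (Fin d → ℂ) →ₗ[ℂ] ℂ × (ι → ℂ)) = ⊥ := by
    rw [Submodule.eq_bot_iff]
    intro k hk
    exact Fc_inj C hw hi0' k hk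
  obtain ⟨M0, hM0⟩ := LinearMap.exists_leftInverse_of_injective _ hker
  let M : (ℂ × (ι → ℂ)) →L[ℂ] (Fin d → ℂ) := LinearMap.toContinuousLinearMap M0
  have hML : ∀ k, M (L k) = k := fun k => LinearMap.congr_fun hM0 k
  have hG : HasStrictFDerivAt (fun u => M (Fc C i0 u))
      ((ContinuousLinearEquiv.refl ℂ (Fin d → ℂ) : (Fin d → ℂ) →L[ℂ] (Fin d → ℂ))) w := by
    have h1 := (M.hasStrictFDerivAt (x := Fc C i0 w)).comp w hstr
    have h2 : M.comp L = ((ContinuousLinearEquiv.refl ℂ (Fin d → ℂ) :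
      (Fin d → ℂ) →L[ℂ] (Fin d → ℂ))) := by
      ext1 k
      exact hML k
    rw [← h2]
    exact h1
  let σ0 := hG.localInverse _ _ w
  have hσ0 : ∀ᶠ u in 𝓝 w, σ0 (M (Fc C i0 u)) = u := hG.eventually_left_inverse
  have hσ0d : DifferentiableAt ℂ σ0 (M (Fc C i0 w)) := hG.to_localInverse.differentiableAt
  let τ : (Fin d → ℂ) → (Fin d → ℂ) := fun u => σ0 (M (Fc P i0 u))
  have hFvw : Fc P i0 v = Fc C i0 w := Fc_eq P C i0 hv hw h
  have hτv : τ v = w := by
    show σ0 (M (Fc P i0 v)) = w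
    rw [hFvw]
    exact hσ0.self_of_nhds
  have hτd : DifferentiableAt ℂ τ v := by
    have h1 : DifferentiableAt ℂ (fun u => M (Fc P i0 u)) v :=
      M.differentiableAt.comp v (Fc_diff P hv hPi0)
    have h2 : DifferentiableAt ℂ σ0 (M (Fc P i0 v)) := by
      rw [hFvw]
      exact hσ0d
    exact h2.comp v h1
  -- eventually the points agree
  have hev : ∀ᶠ u in 𝓝 v, ∃ (hu : u ∈ P.V) (hu' : τ u ∈ C.V), P.pt u hu = C.pt (τ u) hu' := by
    obtain ⟨N, hN1, hN2, hN3⟩ := eventually_nhds_iff.mp hσ0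
    set N' : Set C.V := Subtype.val ⁻¹' N with hN'
    have hO : IsOpen ((fun v : C.V => (⟨(C.a v, Projectivization.mk ℂ (C.φ v) (C.φ_ne v v.2)),
        C.mem v v.2⟩ : X)) '' N') :=
      C.openEmbedding.isOpenMap _ (hN2.preimage continuous_subtype_val)
    have hO2 := hO.preimage P.openEmbedding.continuous
    have hO3 := P.isOpen_V.isOpenMap_subtype_val _ hO2
    have hmem : v ∈ Subtype.val '' ((fun v : P.V => (⟨(P.a v, Projectivization.mk ℂ (P.φ v)
        (P.φ_ne v v.2)), P.mem v v.2⟩ : X)) ⁻¹' ((fun v : C.V => (⟨(C.a v,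
          Projectivization.mk ℂ (C.φ v) (C.φ_ne v v.2)), C.mem v v.2⟩ : X)) '' N')) := by
      refine ⟨⟨v, hv⟩, ⟨⟨w, hw⟩, hN3, ?_⟩, rfl⟩
      apply Subtype.ext
      exact h.symm
    filter_upwards [hO3.mem_nhds hmem] with u hu
    obtain ⟨⟨u', hu'⟩, ⟨⟨w', hw'⟩, hwN, hww⟩, rfl⟩ := hu
    have hww2 : C.pt w' hw' = P.pt u' hu' := congrArg Subtype.val hww
    have h5 : τ u' = w' := by
      show σ0 (M (Fc P i0 u')) = w'
      rw [Fc_eq P C i0 hu' hw' hww2.symm]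
      exact hN1 w' hwN
    refine ⟨hu', ?_, ?_⟩
    · show τ u' ∈ C.V
      rw [h5]
      exact hw'
    · have : ∀ (x : Fin d → ℂ) (hx : x ∈ C.V), x = w' → P.pt u' hu' = C.pt x hx := by
        rintro x hx rfl
        exact hww2.symm
      exact this _ _ h5
  have hCa : DifferentiableAt ℂ C.a (τ v) := by
    rw [hτv]
    exact C.holo_a.differentiableAt (C.isOpen_V.mem_nhds hw)
  have hCF : DifferentiableAt ℂ (Fc C i0) (τ v) := by
    rw [hτv]
    exact Fc_diff C hw hi0'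
  have e1 : P.a =ᶠ[𝓝 v] fun u => C.a (τ u) := by
    filter_upwards [hev] with u ⟨hu, hu', h6⟩
    exact congrArg Prod.fst h6
  have e2 : Fc P i0 =ᶠ[𝓝 v] fun u => Fc C i0 (τ u) := by
    filter_upwards [hev] with u ⟨hu, hu', h6⟩
    exact Fc_eq P C i0 hu hu' h6
  have d1 : fderiv ℂ P.a v = (fderiv ℂ C.a w).comp (fderiv ℂ τ v) := by
    rw [e1.fderiv_eq]
    have := fderiv_comp v hCa hτd
    rw [hτv] at this
    exact this
  have d2 : fderiv ℂ (Fc P i0) v = L.comp (fderiv ℂ τ v) := by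
    rw [e2.fderiv_eq]
    have := fderiv_comp v hCF hτd
    rw [hτv] at this
    exact this
  have hinj : Function.Injective ((fderiv ℂ τ v) : (Fin d → ℂ) →ₗ[ℂ] (Fin d → ℂ)) := by
    rw [← LinearMap.ker_eq_bot, Submodule.eq_bot_iff]
    intro k hk
    have hk' : fderiv ℂ τ v k = 0 := hk
    apply Fc_inj P hv hPi0 k
    rw [d2, ContinuousLinearMap.comp_apply, hk', map_zero]
  have hsurj := LinearMap.injective_iff_surjective.mp hinj
  obtain ⟨k, hk⟩ := hs
  obtain ⟨k', hk'⟩ := hsurj k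
  have hk'' : fderiv ℂ τ v k' = k := hk'
  refine ⟨k', ?_⟩
  rw [d1, ContinuousLinearMap.comp_apply, hk'']
  exact hk

end Pool.Agent.R866.TF
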