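import Pool.Agent.R866.TF.Par2
import Pool.Agent.R866.TF.Trans
import Pool.Agent.R866.TF.Hom

/-! Assembly. -/

set_option linter.all false

open scoped LinearAlgebra.Projectivization Topology

namespace Pool.Agent.R866.TF

open Pool.Agent.Helper922.HB

/-! ### points and parametrisations -/

theorem pt_prm (Ch : WChart) {z0 : ℂ} (fr : LFrame z0) (z : ℂ) (hz : z ∈ Metric.ball z0 fr.r)
    (q : ℂ × ℂ) (hq : q ∈ Ch.D) : ∃ h : ![z, q.1, q.2] ∈ (prm Ch fr).V,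
      (prm Ch fr).pt ![z, q.1, q.2] h = (pX (z, Ch.g ⟨q, hq⟩)).1 := by
  have hv : ![z, q.1, q.2] ∈ pV Ch fr := ⟨hz, hq⟩
  refine ⟨hv, ?_⟩
  have h := pm_pt (⟨_, hv⟩ : pV Ch fr)
  exact h.symm

theorem contDiffAt_prm_a (Ch : WChart) {z0 : ℂ} (fr : LFrame z0) {v : Fin 3 → ℂ}
    (hv : v ∈ (prm Ch fr).V) : ContDiffAt ℂ 1 (prm Ch fr).a v :=
  (contDiffOn_pa (fr := fr)).contDiffAt (isOpen_pV.mem_nhds hv)

theorem contDiffAt_prm_φ (Ch : WChart) {z0 : ℂ} (fr : LFrame z0) {v : Fin 3 → ℂ}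
    (hv : v ∈ (prm Ch fr).V) : ContDiffAt ℂ 1 (prm Ch fr).φ v :=
  contDiffOn_pφ.contDiffAt (isOpen_pV.mem_nhds hv)

theorem fderiv_prm_a (Ch : WChart) {z0 : ℂ} (fr : LFrame z0) {v : Fin 3 → ℂ}
    (hv : v ∈ (prm Ch fr).V) (h : Fin 3 → ℂ) :
    fderiv ℂ (prm Ch fr).a v h = fderiv ℂ Ch.τ (pr2 v) (pr2 h) := fderiv_pa hv h

/-- points and charts -/
theorem exists_point (p : ℂ × ℙ ℂ (K6 → ℂ)) (hp : p ∈ XX) :
    (∃ (z : ℂ) (q : ℂ × ℂ), p = (pX (z, gA q)).1) ∨ ∃ (z : ℂ) (q : N0), p = (pX (z, gI q)).1 := by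
  obtain ⟨z, w, rfl⟩ := hp
  rcases cover_W w with h | h
  · left
    refine ⟨z, fA ⟨w, h⟩, ?_⟩
    rw [gA_fA, pX_val]
  · right
    refine ⟨z, ⟨(xi w, w.1.1), xi_mem h⟩, ?_⟩
    rw [gI_xi h, pX_val]

theorem submanifold_XX : IsClosedSubmanifold 3 XX := by
  refine ⟨isClosed_XX, ?_⟩
  intro p hp
  rcases exists_point p hp with ⟨z, q, h⟩ | ⟨z, q, h⟩
  · obtain ⟨fr⟩ := exists_LFrame z
    obtain ⟨h1, h2⟩ := pt_prm chA fr z (Metric.mem_ball_self fr.r_pos) q trivial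
    exact ⟨prm chA fr, _, h1, h2.trans h.symm⟩
  · obtain ⟨fr⟩ := exists_LFrame z
    obtain ⟨h1, h2⟩ := pt_prm chI fr z (Metric.mem_ball_self fr.r_pos) q.1 q.2
    exact ⟨prm chI fr, _, h1, h2.trans h.symm⟩

theorem fderiv_tau (q h : ℂ × ℂ) :
    fderiv ℂ (fun q : ℂ × ℂ => q.2 ^ 2 - q.1 ^ 3) q h = 2 * q.2 * h.2 - 3 * q.1 ^ 2 * h.1 := by
  have h1 : HasFDerivAt (fun q : ℂ × ℂ => q.1) (ContinuousLinearMap.fst ℂ ℂ ℂ) q := hasFDerivAt_fst
  have h2 : HasFDerivAt (fun q : ℂ × ℂ => q.2) (ContinuousLinearMap.snd ℂ ℂ ℂ) q := hasFDerivAt_snd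
  have h3 : HasFDerivAt (fun q : ℂ × ℂ => q.2 ^ 2 - q.1 ^ 3)
    ((2 • q.2 ^ (2 - 1)) • ContinuousLinearMap.snd ℂ ℂ ℂ -
      (3 • q.1 ^ (3 - 1)) • ContinuousLinearMap.fst ℂ ℂ ℂ) q := (h2.pow 2).sub (h1.pow 3)
  rw [h3.fderiv]
  simp

/-- the projection is a submersion at the points over `t ≠ 0` -/
theorem submersive_XX (p : ℂ × ℙ ℂ (K6 → ℂ)) (hp : p ∈ XX) (h0 : p.1 ≠ 0) :
    ProjSubmersiveAt 3 XX p := by
  intro P v hv hpt
  rcases exists_point p hp with ⟨z, q, h⟩ | ⟨z, q, h⟩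
  · obtain ⟨fr⟩ := exists_LFrame z
    obtain ⟨h1, h2⟩ := pt_prm chA fr z (Metric.mem_ball_self fr.r_pos) q trivial
    have h3 : P.pt v hv = (prm chA fr).pt ![z, q.1, q.2] h1 := by
      rw [hpt, h2]
      exact h
    apply submersive_of (prm chA fr) P hv h1 h3 (contDiffAt_prm_a chA fr h1)
      (contDiffAt_prm_φ chA fr h1)
    have ht : q.2 ^ 2 - q.1 ^ 3 ≠ 0 := by
      intro ht
      apply h0
      rw [h, pX_val]
      exact ht
    have key : ∀ k : Fin 3 → ℂ, fderiv ℂ (prm chA fr).a ![z, q.1, q.2] k =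
        2 * q.2 * k 2 - 3 * q.1 ^ 2 * k 1 := by
      intro k
      rw [fderiv_prm_a chA fr h1]
      exact fderiv_tau q (pr2 k)
    by_cases hq2 : q.2 = 0
    · have hq1 : q.1 ≠ 0 := by
        intro hq1
        apply ht
        rw [hq1, hq2]
        ring
      refine ⟨![0, 1, 0], ?_⟩
      rw [key]
      simp [hq2, hq1]
    · refine ⟨![0, 0, 1], ?_⟩
      rw [key]
      simp [hq2]
  · obtain ⟨fr⟩ := exists_LFrame z
    obtain ⟨h1, h2⟩ := pt_prm chI fr z (Metric.mem_ball_self fr.r_pos) q.1 q.2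
    have h3 : P.pt v hv = (prm chI fr).pt ![z, q.1.1, q.1.2] h1 := by
      rw [hpt, h2]
      exact h
    apply submersive_of (prm chI fr) P hv h1 h3 (contDiffAt_prm_a chI fr h1)
      (contDiffAt_prm_φ chI fr h1)
    refine ⟨![0, 0, 1], ?_⟩
    rw [fderiv_prm_a chI fr h1]
    show fderiv ℂ Prod.snd _ _ ≠ 0
    rw [fderiv_snd]
    show (1 : ℂ) ≠ 0
    exact one_ne_zero

/-- the point over the cusp -/
theorem not_submersive_XX : ∃ p ∈ XX, p.1 = 0 ∧ ¬ ProjSubmersiveAt 3 XX p := by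
  obtain ⟨fr⟩ := exists_LFrame 0
  obtain ⟨h1, h2⟩ := pt_prm chA fr 0 (Metric.mem_ball_self fr.r_pos) (0, 0) trivial
  refine ⟨(pX (0, gA (0, 0))).1, (pX (0, gA (0, 0))).2, ?_, ?_⟩
  · rw [pX_val]
    show (0 : ℂ) ^ 2 - 0 ^ 3 = 0
    ring
  · intro hs
    obtain ⟨k, hk⟩ := hs (prm chA fr) _ h1 h2
    apply hk
    rw [fderiv_prm_a chA fr h1]
    have := fderiv_tau (0, 0) (pr2 k)
    refine (show _ = _ from this).trans ?_
    simp

/-! ### the fibres are connected -/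

theorem connected_Mf (y : ℂ) : IsConnected (Mf y) := by
  rw [isConnected_iff_connectedSpace]
  have h : ∃ x : Mf y, ∀ q, Joined x q := by
    by_cases hy : y = 0
    · subst hy
      have h0 : (0 : ℂ × ℂ) ∈ Mf 0 := by
        show (0 : ℂ) ^ 2 - 0 ^ 3 = 0
        ring
      refine ⟨⟨0, h0⟩, ?_⟩
      intro q
      have hm : ∀ t : unitInterval, HP (q.1, t) ∈ Mf 0 := by
        intro t
        have h : q.1.2 ^ 2 - q.1.1 ^ 3 = 0 := q.2
        show (((1 - t : ℝ) : ℂ) ^ 3 * q.1.2) ^ 2 - (((1 - t : ℝ) : ℂ) ^ 2 * q.1.1) ^ 3 = 0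
        linear_combination ((1 - t : ℝ) : ℂ) ^ 6 * h
      have h7 : Joined q (⟨0, h0⟩ : Mf 0) := by
        refine ⟨⟨⟨fun t => ⟨HP (q.1, t), hm t⟩,
          (HP.continuous.comp (by fun_prop)).subtype_mk _⟩, ?_, ?_⟩⟩
        · exact Subtype.ext (HP_zero q.1)
        · exact Subtype.ext (HP_one q.1)
      exact h7.symm
    · exact Mf_pathConnected hy
  obtain ⟨x, hx⟩ := h
  have : PathConnectedSpace (Mf y) := ⟨⟨x⟩, fun a b => (hx a).symm.trans (hx b)⟩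
  infer_instance

theorem connected_Wy (y : ℂ) : IsConnected (Wy y) := by
  have h1 : IsConnected (gA '' (Mf y)) := (connected_Mf y).image _ gA.continuous.continuousOn
  set E : Set ℂ := {x | ‖y‖ * ‖x‖ ^ 6 < 1 / 2} with hE
  have hstar : StarConvex ℝ (0 : ℂ) E := by
    intro x hx a b ha hb hab
    have hx' : ‖y‖ * ‖x‖ ^ 6 < 1 / 2 := hx
    show ‖y‖ * ‖a • (0 : ℂ) + b • x‖ ^ 6 < 1 / 2
    refine lt_of_le_of_lt ?_ hx'
    rw [smul_zero, zero_add, norm_smul, Real.norm_of_nonneg hb]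
    have hb1 : b ≤ 1 := by linarith
    have h2 : b * ‖x‖ ≤ ‖x‖ := by
      have := mul_le_mul_of_nonneg_right hb1 (norm_nonneg x)
      linarith
    gcongr
  have h0E : (0 : ℂ) ∈ E := by
    show ‖y‖ * ‖(0 : ℂ)‖ ^ 6 < 1 / 2
    simp
  have hEc : IsConnected E := (hstar.isPathConnected h0E).isConnected
  have hmap : Continuous fun x : E => gI ⟨(x.1, y), x.2⟩ := by
    apply gI.continuous.comp
    apply Continuous.subtype_mk
    fun_prop
  have h2 : IsConnected (Set.range fun x : E => gI ⟨(x.1, y), x.2⟩) := by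
    have : ConnectedSpace E := isConnected_iff_connectedSpace.mp hEc
    exact isConnected_range hmap
  -- a common point
  obtain ⟨C, hC, hCy⟩ := exists_C y
  have hCE : ((C⁻¹ : ℝ) : ℂ) ∈ E := by
    show ‖y‖ * ‖((C⁻¹ : ℝ) : ℂ)‖ ^ 6 < 1 / 2
    rw [Complex.norm_real, Real.norm_of_nonneg (by positivity)]
    exact hCy
  have hCA : gI ⟨(((C⁻¹ : ℝ) : ℂ), y), hCE⟩ ∈ WA := by
    rw [gI_WA_iff]
    have : C⁻¹ ≠ 0 := by positivity
    show ((C⁻¹ : ℝ) : ℂ) ≠ 0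
    exact_mod_cast this
  have h3 : (gA '' (Mf y) ∩ Set.range fun x : E => gI ⟨(x.1, y), x.2⟩).Nonempty := by
    refine ⟨gI ⟨(((C⁻¹ : ℝ) : ℂ), y), hCE⟩, ⟨fA ⟨_, hCA⟩, ?_, gA_fA ⟨_, hCA⟩⟩, ⟨⟨_, hCE⟩, rfl⟩⟩
    have h4 : (gA (fA ⟨_, hCA⟩)).1.1 = y := by
      rw [gA_fA]
      rfl
    exact h4
  have h5 : gA '' (Mf y) ∪ (Set.range fun x : E => gI ⟨(x.1, y), x.2⟩) = Wy y := by
    ext w
    constructor
    · rintro (⟨q, hq, rfl⟩ | ⟨x, rfl⟩)
      · exact gA_maps y hq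
      · rfl
    · intro hw
      have hw' : w.1.1 = y := hw
      rcases cover_W w with h | h
      · left
        refine ⟨fA ⟨w, h⟩, ?_, gA_fA ⟨w, h⟩⟩
        have h4 : (gA (fA ⟨w, h⟩)).1.1 = y := by
          rw [gA_fA]
          exact hw'
        exact h4
      · right
        have hx := xi_mem h
        have hx2 : xi w ∈ E := by
          show ‖y‖ * ‖xi w‖ ^ 6 < 1 / 2
          rw [← hw']
          exact hx
        refine ⟨⟨xi w, hx2⟩, ?_⟩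
        have h6 : ∀ (y' : ℂ) (hy : (xi w, y') ∈ N0), w.1.1 = y' → gI ⟨(xi w, y'), hy⟩ = w := by
          rintro y' hy rfl
          exact gI_xi h
        exact h6 y hx2 hw'
  rw [← h5]
  exact h1.union h3 h2

theorem connected_fibre (t : ℂ) : IsConnected {p ∈ XX | p.1 = t} := by
  have h1 : IsConnected ((Set.univ : Set ℂ) ×ˢ Wy t) := isConnected_univ.prod (connected_Wy t)
  have h2 : IsConnected ((fun q : ℂ × WW => (pX q).1) '' ((Set.univ : Set ℂ) ×ˢ Wy t)) :=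
    h1.image _ (continuous_subtype_val.comp pX.continuous).continuousOn
  have h3 : (fun q : ℂ × WW => (pX q).1) '' ((Set.univ : Set ℂ) ×ˢ Wy t) = {p ∈ XX | p.1 = t} := by
    ext p
    constructor
    · rintro ⟨q, ⟨_, hq⟩, rfl⟩
      refine ⟨(pX q).2, ?_⟩
      show (pX q).1.1 = t
      rw [pX_val]
      exact hq
    · rintro ⟨⟨z, w, rfl⟩, hp⟩
      exact ⟨(z, w), ⟨trivial, hp⟩, rfl⟩
  rwa [h3] at h2

end Pool.Agent.R866.TF
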