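import Pool.Agent.R866.TF.Disc

/-! The Milnor fibre of the cusp. -/

set_option linter.all false

namespace Pool.Agent.R866.TF

open Finsupp Pool.Agent.Helper922.HB

universe u v w

section general

variable {X : Type u} [TopologicalSpace X] {Y : Type v} [TopologicalSpace Y]

/-- zero-chains with vanishing invariant bound -/
theorem mem_Bdy_zero_of_disc' {Z : Type w} (H : C(X × unitInterval, X)) (f : C(X, X)) (k : X → Z)
    (hk : ∀ x x', k x = k x' → f x = f x')
    (h0 : ∀ x, H (x, 0) = x) (h1 : ∀ x, H (x, 1) = f x) (z : Sing X 0 →₀ ℤ)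
    (hz : Finsupp.lmapDomain ℤ ℤ (fun σ : Sing X 0 => k (σ (Sc.vert 0 0))) z = 0) :
    z ∈ Bdy X 0 := by
  have h2 := push_sub_mem_of_homotopy H (ContinuousMap.id X) f h0 h1 0 z Submodule.mem_top
  rw [push_id] at h2
  have h3 : push f 0 z = 0 := by
    by_cases hX : Nonempty X
    · obtain ⟨x⟩ := hX
      have hfac : (fun σ : Sing X 0 => f.comp σ).FactorsThrough
          (fun σ : Sing X 0 => k (σ (Sc.vert 0 0))) := by
        intro σ τ h
        ext t
        have : t = Sc.vert 0 0 := Subsingleton.elim (α := stdSimplex ℝ (Fin 1)) _ _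
        rw [this]
        exact hk _ _ h
      have e := hfac.extend_comp (fun _ => cs x 0)
      have : push f 0 = (Finsupp.lmapDomain ℤ ℤ (Function.extend
          (fun σ : Sing X 0 => k (σ (Sc.vert 0 0))) (fun σ : Sing X 0 => f.comp σ)
            (fun _ => cs x 0))).comp
          (Finsupp.lmapDomain ℤ ℤ (fun σ : Sing X 0 => k (σ (Sc.vert 0 0)))) := by
        rw [← Finsupp.lmapDomain_comp, e]
        rfl
      rw [this, LinearMap.comp_apply, hz, map_zero]
    · have : IsEmpty (Sing X 0) := ⟨fun σ => hX ⟨σ (Sc.vert 0 0)⟩⟩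
      have : z = 0 := Subsingleton.elim _ _
      rw [this, map_zero]
  rw [h3, zero_sub] at h2
  exact (Submodule.neg_mem_iff _).mp h2

/-- the operator `G² - G + 1` -/
noncomputable def Psi (G : C(X, X)) (n : ℕ) : (Sing X n →₀ ℤ) →ₗ[ℤ] (Sing X n →₀ ℤ) :=
  push (G.comp G) n - push G n + LinearMap.id

theorem Psi_apply (G : C(X, X)) (n : ℕ) (z : Sing X n →₀ ℤ) :
    Psi G n z = push G n (push G n z) - push G n z + z := by
  rw [push_push]
  rfl

theorem Psi_push (f : C(X, Y)) (G : C(X, X)) (G' : C(Y, Y)) (h : ∀ x, f (G x) = G' (f x)) (n : ℕ)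
    (z : Sing X n →₀ ℤ) : Psi G' n (push f n z) = push f n (Psi G n z) := by
  have h1 : ∀ w : Sing X n →₀ ℤ, push G' n (push f n w) = push f n (push G n w) := by
    intro w
    rw [push_push, push_push]
    congr 2
    ext x
    exact (h x).symm
  rw [Psi_apply, Psi_apply, h1, h1, map_add, map_sub]

theorem bdry_Psi (G : C(X, X)) (n : ℕ) (z : Sing X (n + 1) →₀ ℤ) :
    bdry X n (Psi G (n + 1) z) = Psi G n (bdry X n z) := by
  rw [Psi_apply, Psi_apply, map_add, map_sub, bdry_push, bdry_push]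

theorem Psi_mem_Bdy (G : C(X, X)) (n : ℕ) (z : Sing X n →₀ ℤ) (hz : z ∈ Bdy X n) :
    Psi G n z ∈ Bdy X n := by
  obtain ⟨w, rfl⟩ := hz
  exact ⟨_, bdry_Psi G n w⟩

theorem Psi_mem_Cyc (G : C(X, X)) (n : ℕ) (z : Sing X n →₀ ℤ) (hz : z ∈ Cyc X n) :
    Psi G n z ∈ Cyc X n := by
  cases n with
  | zero => exact Submodule.mem_top
  | succ n =>
    change bdry X n _ = 0
    have : bdry X n z = 0 := hz
    rw [bdry_Psi, this, map_zero]

theorem Psi_mem_sp (G : C(X, X)) {P : Set X} (hG : Set.MapsTo G P P) (n : ℕ) {z : Sing X n →₀ ℤ}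
    (hz : z ∈ sp P n) : Psi G n z ∈ sp P n := by
  rw [Psi_apply]
  exact Submodule.add_mem _ (Submodule.sub_mem _ (push_mem_sp G hG (push_mem_sp G hG hz))
    (push_mem_sp G hG hz)) hz

theorem Psi_mem_RBd (G : C(X, X)) {P : Set X} (hG : Set.MapsTo G P P) (n : ℕ)
    {z : Sing X n →₀ ℤ} (hz : z ∈ RBd P n) : Psi G n z ∈ RBd P n := by
  obtain ⟨f, g, hg, rfl⟩ := mem_RBd_iff.mp hz
  rw [map_add, ← bdry_Psi]
  exact Submodule.add_mem _ (mem_RBd_of_bdry _) (mem_RBd_of_sp (Psi_mem_sp G hG n hg))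

/-- Mayer-Vietoris step: a class which dies on the overlap -/
theorem mv_die (U V : Set X) (n : ℕ) (hU : Ac U (n + 1)) (hV : Ac V (n + 1))
    (u : Sing U (n + 1) →₀ ℤ) (v : Sing V (n + 1) →₀ ℤ) (d : Sing ↥(U ∩ V) n →₀ ℤ)
    (hd : d ∈ Bdy ↥(U ∩ V) n) (hu : bdry U n u = push (inl U V) n d)
    (hv : bdry V n v = - push (inr U V) n d) :
    push (sub U) (n + 1) u + push (sub V) (n + 1) v ∈ Bdy X (n + 1) := by
  obtain ⟨w, rfl⟩ := hd
  have h1 : u - push (inl U V) (n + 1) w ∈ Bdy U (n + 1) := by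
    apply hU
    change bdry U n _ = 0
    rw [map_sub, bdry_push, hu, sub_self]
  have h2 : v + push (inr U V) (n + 1) w ∈ Bdy V (n + 1) := by
    apply hV
    change bdry V n _ = 0
    rw [map_add, bdry_push, hv, neg_add_cancel]
  have h3 := Submodule.add_mem _ (push_mem_Bdy (sub U) _ _ h1) (push_mem_Bdy (sub V) _ _ h2)
  rw [map_sub, map_add, mvx_push_inl, mvx_push_inr] at h3
  have e : push (sub U) (n + 1) u - push (sub (U ∩ V)) (n + 1) w +
      (push (sub V) (n + 1) v + push (sub (U ∩ V)) (n + 1) w) =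
      push (sub U) (n + 1) u + push (sub V) (n + 1) v := by abel
  rwa [e] at h3

end general

/-! ### roots -/

/-- principal square root -/
noncomputable def rt2 (w : ℂ) : ℂ := w ^ (((2 : ℕ) : ℂ)⁻¹)

/-- principal cube root -/
noncomputable def rt3 (w : ℂ) : ℂ := w ^ (((3 : ℕ) : ℂ)⁻¹)

theorem rt2_sq (w : ℂ) : rt2 w ^ 2 = w := Complex.cpow_nat_inv_pow w (by norm_num)

theorem rt3_cube (w : ℂ) : rt3 w ^ 3 = w := Complex.cpow_nat_inv_pow w (by norm_num)

theorem rt2_one : rt2 1 = 1 := Complex.one_cpow _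

theorem rt3_one : rt3 1 = 1 := Complex.one_cpow _

theorem rt2_ne {w : ℂ} (h : w ≠ 0) : rt2 w ≠ 0 := by
  intro h0
  apply h
  rw [← rt2_sq w, h0]
  ring

theorem rt3_ne {w : ℂ} (h : w ≠ 0) : rt3 w ≠ 0 := by
  intro h0
  apply h
  rw [← rt3_cube w, h0]
  ring

theorem slit_of_re {w : ℂ} (h : 1 / 3 < w.re) : w ∈ Complex.slitPlane := by
  left
  linarith

theorem ne_of_re {w : ℂ} (h : 1 / 3 < w.re) : w ≠ 0 := by
  intro h0
  rw [h0] at h
  norm_num at h

theorem continuous_rt2 {X : Type u} [TopologicalSpace X] {f : X → ℂ} (hf : Continuous f)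
    (h : ∀ x, f x ∈ Complex.slitPlane) : Continuous fun x => rt2 (f x) :=
  hf.cpow continuous_const h

theorem continuous_rt3 {X : Type u} [TopologicalSpace X] {f : X → ℂ} (hf : Continuous f)
    (h : ∀ x, f x ∈ Complex.slitPlane) : Continuous fun x => rt3 (f x) :=
  hf.cpow continuous_const h

/-- primitive cube root of unity -/
noncomputable def w3 : ℂ := Complex.exp (2 * Real.pi * Complex.I / 3)

theorem w3_cube : w3 ^ 3 = 1 := by
  unfold w3
  rw [← Complex.exp_nat_mul]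
  have : ((3 : ℕ) : ℂ) * (2 * Real.pi * Complex.I / 3) = 2 * Real.pi * Complex.I := by
    push_cast
    ring
  rw [this, Complex.exp_two_pi_mul_I]

theorem w3_ne_one : w3 ≠ 1 := by
  intro h
  unfold w3 at h
  rw [Complex.exp_eq_one_iff] at h
  obtain ⟨n, hn⟩ := h
  have hpi : (2 * Real.pi * Complex.I : ℂ) ≠ 0 := by
    simp [Real.pi_ne_zero]
  have h1 : (1 : ℂ) = 3 * n := by
    have h2 : (2 * Real.pi * Complex.I : ℂ) * 1 = (2 * Real.pi * Complex.I) * (3 * n) := by
      linear_combination 3 * hn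
    exact mul_left_cancel₀ hpi h2
  have h3 : (1 : ℤ) = 3 * n := by exact_mod_cast h1
  omega

theorem w3_sum : w3 ^ 2 + w3 + 1 = 0 := by
  have h : (w3 - 1) * (w3 ^ 2 + w3 + 1) = 0 := by
    have := w3_cube
    linear_combination this
  exact (mul_eq_zero.mp h).resolve_left (sub_ne_zero.mpr w3_ne_one)

theorem cube_eq {u c : ℂ} (h : u ^ 3 = c ^ 3) : u = c ∨ u = w3 * c ∨ u = w3 * (w3 * c) := by
  have h1 : (u - c) * ((u - w3 * c) * (u - w3 * (w3 * c))) = 0 := by
    have h2 := w3_sum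
    have h3 := w3_cube
    linear_combination h + (-u ^ 2 * c + u * c ^ 2 * w3) * h2 + (-c ^ 3) * h3
  rcases mul_eq_zero.mp h1 with h | h
  · exact Or.inl (sub_eq_zero.mp h)
  · rcases mul_eq_zero.mp h with h | h
    · exact Or.inr (Or.inl (sub_eq_zero.mp h))
    · exact Or.inr (Or.inr (sub_eq_zero.mp h))

end Pool.Agent.R866.TF
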