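import Pool.Agent.R866.TF.Mil

/-! The Milnor fibre of the cusp: the relation `G² - G + 1 = 0`. -/

set_option linter.all false

namespace Pool.Agent.R866.TF

open Finsupp Pool.Agent.Helper922.HB

/-- affine Milnor fibre `y² - x³ = y₀` -/
def Mf (y0 : ℂ) : Set (ℂ × ℂ) := {q | q.2 ^ 2 - q.1 ^ 3 = y0}

/-- the automorphism of order 6 -/
noncomputable def Ga : C(ℂ × ℂ, ℂ × ℂ) := ⟨fun q => (w3 * q.1, -q.2), by fun_prop⟩

theorem Ga_mem {y0 : ℂ} {q : ℂ × ℂ} (h : q ∈ Mf y0) : Ga q ∈ Mf y0 := by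
  have h' : q.2 ^ 2 - q.1 ^ 3 = y0 := h
  show (-q.2) ^ 2 - (w3 * q.1) ^ 3 = y0
  rw [mul_pow, w3_cube, ← h']
  ring

theorem Ga_maps (y0 : ℂ) : Set.MapsTo Ga (Mf y0) (Mf y0) := fun _ h => Ga_mem h

section Fibre

variable (y0 : ℂ)

/-- the automorphism of the fibre -/
noncomputable def GM : C(Mf y0, Mf y0) := ⟨fun q => ⟨Ga q.1, Ga_mem q.2⟩, by fun_prop⟩

/-- the coordinate `a = y²/y₀` -/
noncomputable def ca (q : ℂ × ℂ) : ℂ := q.2 ^ 2 / y0

/-- the coordinate `b = -x³/y₀` -/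
noncomputable def cb (q : ℂ × ℂ) : ℂ := -(q.1 ^ 3) / y0

variable {y0} (hy : y0 ≠ 0)

include hy in
theorem ca_add_cb {q : ℂ × ℂ} (h : q ∈ Mf y0) : ca y0 q + cb y0 q = 1 := by
  have h' : q.2 ^ 2 - q.1 ^ 3 = y0 := h
  unfold ca cb
  rw [← add_div, ← sub_eq_add_neg, h', div_self hy]

include hy in
theorem ca_mul (q : ℂ × ℂ) : y0 * ca y0 q = q.2 ^ 2 := by
  unfold ca
  field_simp

include hy in
theorem cb_mul (q : ℂ × ℂ) : y0 * cb y0 q = -(q.1 ^ 3) := by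
  unfold cb
  field_simp

theorem ca_Ga (q : ℂ × ℂ) : ca y0 (Ga q) = ca y0 q := by
  show (-q.2) ^ 2 / y0 = q.2 ^ 2 / y0
  rw [neg_sq]

theorem cb_Ga (q : ℂ × ℂ) : cb y0 (Ga q) = cb y0 q := by
  show -((w3 * q.1) ^ 3) / y0 = -(q.1 ^ 3) / y0
  rw [mul_pow, w3_cube, one_mul]

theorem continuous_ca : Continuous (ca y0) := by
  unfold ca
  fun_prop

theorem continuous_cb : Continuous (cb y0) := by
  unfold cb
  fun_prop

variable (y0) in
/-- the part `Re a > 1/3` -/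
def MA : Set (Mf y0) := {q | 1 / 3 < (ca y0 q.1).re}

variable (y0) in
/-- the part `Re b > 1/3` -/
def MB : Set (Mf y0) := {q | 1 / 3 < (cb y0 q.1).re}

theorem isOpen_MA : IsOpen (MA y0) :=
  isOpen_lt continuous_const (Complex.continuous_re.comp (continuous_ca.comp continuous_subtype_val))

theorem isOpen_MB : IsOpen (MB y0) :=
  isOpen_lt continuous_const (Complex.continuous_re.comp (continuous_cb.comp continuous_subtype_val))

include hy in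
theorem cover_M (q : Mf y0) : q ∈ MA y0 ∨ q ∈ MB y0 := by
  have h := congrArg Complex.re (ca_add_cb hy q.2)
  rw [Complex.add_re, Complex.one_re] at h
  by_cases h1 : 1 / 3 < (ca y0 q.1).re
  · exact Or.inl h1
  · right
    show 1 / 3 < (cb y0 q.1).re
    linarith

/-- general points: `(x·β, y·α)` with `α² = a'/a`, `β³ = b'/b`, `a' + b' = 1` -/
theorem mem_Mf_of {x y a b x' y' : ℂ} (hx : x' ^ 3 = -(y0 * b)) (hy' : y' ^ 2 = y0 * a)
    (hab : a + b = 1) : (x', y') ∈ Mf y0 := by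
  show y' ^ 2 - x' ^ 3 = y0
  rw [hx, hy']
  linear_combination y0 * hab

/-- `y/√a` -/
noncomputable def kA (y0 : ℂ) (q : ℂ × ℂ) : ℂ := q.2 / rt2 (ca y0 q)

/-- `x/∛b` -/
noncomputable def kB (y0 : ℂ) (q : ℂ × ℂ) : ℂ := q.1 / rt3 (cb y0 q)

include hy in
theorem kA_sq {q : ℂ × ℂ} (h : ca y0 q ≠ 0) : kA y0 q ^ 2 = y0 := by
  unfold kA
  rw [div_pow, rt2_sq, ← ca_mul hy q]
  field_simp

include hy in
theorem kB_cube {q : ℂ × ℂ} (h : cb y0 q ≠ 0) : kB y0 q ^ 3 = -y0 := by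
  unfold kB
  rw [div_pow, rt3_cube, div_eq_iff h]
  linear_combination cb_mul hy q

theorem kA_Ga (q : ℂ × ℂ) : kA y0 (Ga q) = - kA y0 q := by
  unfold kA
  rw [ca_Ga]
  show -q.2 / _ = _
  rw [neg_div]

theorem kB_Ga (q : ℂ × ℂ) : kB y0 (Ga q) = w3 * kB y0 q := by
  unfold kB
  rw [cb_Ga]
  show w3 * q.1 / _ = _
  rw [mul_div_assoc]

/-- interpolated parameter, real part -/
theorem re_interp {a a' : ℂ} (h : 1 / 3 < a.re) (h' : 1 / 3 < a'.re) {t : ℝ} (h0 : 0 ≤ t)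
    (h1 : t ≤ 1) : 1 / 3 < (((1 - t : ℝ) : ℂ) * a + (t : ℂ) * a').re := by
  simp only [Complex.add_re, Complex.re_ofReal_mul]
  rcases eq_or_lt_of_le h0 with rfl | h0
  · simpa using h
  · nlinarith

end Fibre

/-! ### the part `A` -/

section PartA

variable {y0 : ℂ} (hy : y0 ≠ 0)

/-- the parameter `a_s` on `A` -/
noncomputable def aA (y0 : ℂ) (q : ℂ × ℂ) (t : ℝ) : ℂ :=
  (((1 - (1 - (1 - t) ^ 3) : ℝ)) : ℂ) * ca y0 q + ((1 - (1 - t) ^ 3 : ℝ) : ℂ) * 1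

theorem cube_mem {t : ℝ} (h0 : 0 ≤ t) (h1 : t ≤ 1) : 0 ≤ 1 - (1 - t) ^ 3 ∧ 1 - (1 - t) ^ 3 ≤ 1 := by
  have h2 : 0 ≤ (1 - t) ^ 3 := pow_nonneg (by linarith) 3
  have h3 : (1 - t) ^ 3 ≤ 1 := pow_le_one₀ (by linarith) (by linarith)
  constructor <;> linarith

theorem sq_mem {t : ℝ} (h0 : 0 ≤ t) (h1 : t ≤ 1) : 0 ≤ 1 - (1 - t) ^ 2 ∧ 1 - (1 - t) ^ 2 ≤ 1 := by
  have h2 : 0 ≤ (1 - t) ^ 2 := pow_nonneg (by linarith) 2
  have h3 : (1 - t) ^ 2 ≤ 1 := pow_le_one₀ (by linarith) (by linarith)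
  constructor <;> linarith

theorem aA_re {q : ℂ × ℂ} (h : 1 / 3 < (ca y0 q).re) {t : ℝ} (h0 : 0 ≤ t) (h1 : t ≤ 1) :
    1 / 3 < (aA y0 q t).re := by
  obtain ⟨h2, h3⟩ := cube_mem h0 h1
  exact re_interp h (by norm_num) h2 h3

/-- the deformation of `A` -/
noncomputable def dA (y0 : ℂ) (q : ℂ × ℂ) (t : ℝ) : ℂ × ℂ :=
  (((1 - t : ℝ) : ℂ) * q.1, kA y0 q * rt2 (aA y0 q t))

include hy in
theorem dA_mem {q : ℂ × ℂ} (hq : q ∈ Mf y0) (h : 1 / 3 < (ca y0 q).re) (t : ℝ) :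
    dA y0 q t ∈ Mf y0 := by
  have hab := ca_add_cb hy hq
  apply mem_Mf_of (x := q.1) (y := q.2) (a := aA y0 q t) (b := 1 - aA y0 q t)
  · rw [mul_pow]
    have h1 : q.1 ^ 3 = -(y0 * cb y0 q) := by rw [cb_mul hy]; ring
    rw [h1]
    unfold aA
    have h2 : cb y0 q = 1 - ca y0 q := by rw [← hab]; ring
    rw [h2]
    push_cast
    ring
  · rw [mul_pow, kA_sq hy (ne_of_re h), rt2_sq]
  · ring

theorem ca_dA {hy : y0 ≠ 0} {q : ℂ × ℂ} (h : 1 / 3 < (ca y0 q).re) (t : ℝ) :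
    ca y0 (dA y0 q t) = aA y0 q t := by
  unfold ca dA
  show (kA y0 q * rt2 (aA y0 q t)) ^ 2 / y0 = _
  rw [mul_pow, kA_sq hy (ne_of_re h), rt2_sq]
  field_simp

theorem dA_zero {q : ℂ × ℂ} (h : 1 / 3 < (ca y0 q).re) : dA y0 q 0 = q := by
  have h1 : aA y0 q 0 = ca y0 q := by
    unfold aA
    simp
  unfold dA
  rw [h1]
  apply Prod.ext
  · simp
  · show kA y0 q * rt2 (ca y0 q) = q.2
    unfold kA
    exact div_mul_cancel₀ _ (rt2_ne (ne_of_re h))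

theorem dA_one {q : ℂ × ℂ} : dA y0 q 1 = (0, kA y0 q) := by
  have h1 : aA y0 q 1 = 1 := by
    unfold aA
    simp
  unfold dA
  rw [h1, rt2_one]
  simp

theorem continuous_kA {X : Type*} [TopologicalSpace X] {f : X → ℂ × ℂ} (hf : Continuous f)
    (h : ∀ x, 1 / 3 < (ca y0 (f x)).re) : Continuous fun x => kA y0 (f x) := by
  unfold kA
  apply Continuous.div (by fun_prop)
  · exact continuous_rt2 (continuous_ca.comp hf) (fun x => slit_of_re (h x))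
  · intro x
    exact rt2_ne (ne_of_re (h x))

theorem continuous_kB {X : Type*} [TopologicalSpace X] {f : X → ℂ × ℂ} (hf : Continuous f)
    (h : ∀ x, 1 / 3 < (cb y0 (f x)).re) : Continuous fun x => kB y0 (f x) := by
  unfold kB
  apply Continuous.div (by fun_prop)
  · exact continuous_rt3 (continuous_cb.comp hf) (fun x => slit_of_re (h x))
  · intro x
    exact rt3_ne (ne_of_re (h x))

theorem continuous_dA {X : Type*} [TopologicalSpace X] {f : X → ℂ × ℂ} (hf : Continuous f)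
    (h : ∀ x, 1 / 3 < (ca y0 (f x)).re) {t : X → ℝ} (ht : Continuous t)
    (h0 : ∀ x, 0 ≤ t x) (h1 : ∀ x, t x ≤ 1) : Continuous fun x => dA y0 (f x) (t x) := by
  have hca : Continuous fun x => ca y0 (f x) := continuous_ca.comp hf
  have haA : Continuous fun x => aA y0 (f x) (t x) := by
    unfold aA
    fun_prop
  unfold dA
  apply Continuous.prodMk
  · fun_prop
  · exact (continuous_kA hf h).mul (continuous_rt2 haA fun x => slit_of_re (aA_re (h x) (h0 x) (h1 x)))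

/-- the homotopy on `A` -/
noncomputable def HA : C(MA y0 × unitInterval, MA y0) :=
  ⟨fun p => ⟨⟨dA y0 p.1.1.1 p.2, dA_mem hy p.1.1.2 p.1.2 _⟩, by
    show 1 / 3 < (ca y0 (dA y0 p.1.1.1 p.2)).re
    rw [ca_dA (hy := hy) p.1.2]
    exact aA_re p.1.2 p.2.2.1 p.2.2.2⟩, by
    apply Continuous.subtype_mk
    apply Continuous.subtype_mk
    exact continuous_dA (by fun_prop) (fun p => p.1.2) (by fun_prop) (fun p => p.2.2.1)
      (fun p => p.2.2.2)⟩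

theorem HA_zero (q : MA y0) : HA hy (q, 0) = q := by
  apply Subtype.ext
  apply Subtype.ext
  exact dA_zero q.2

theorem HA_one (q : MA y0) : (HA hy (q, 1)).1.1 = (0, kA y0 q.1.1) := dA_one

theorem sq_finite (y0 : ℂ) : {v : ℂ | v ^ 2 = y0}.Finite := by
  apply Set.Finite.subset (Set.toFinite ({rt2 y0, -rt2 y0} : Set ℂ))
  intro v hv
  have h : v ^ 2 = rt2 y0 ^ 2 := by rw [rt2_sq]; exact hv
  rcases sq_eq_sq_iff_eq_or_eq_neg.mp h with h | h
  · exact Or.inl h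
  · exact Or.inr h

theorem cube_finite (y0 : ℂ) : {v : ℂ | v ^ 3 = y0}.Finite := by
  apply Set.Finite.subset (Set.toFinite ({rt3 y0, w3 * rt3 y0, w3 * (w3 * rt3 y0)} : Set ℂ))
  intro v hv
  have h : v ^ 3 = rt3 y0 ^ 3 := by rw [rt3_cube]; exact hv
  rcases cube_eq h with h | h | h
  · exact Or.inl h
  · exact Or.inr (Or.inl h)
  · exact Or.inr (Or.inr h)

theorem finite_of_maps {X Z Z' : Type*} (f : X → Z) (g : Z → Z') (hg : Function.Injective g)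
    {s : Set Z'} (hs : s.Finite) (h : ∀ x, g (f x) ∈ s) : (Set.range f).Finite := by
  apply Set.Finite.of_finite_image (f := g) _ hg.injOn
  apply hs.subset
  rintro _ ⟨_, ⟨x, rfl⟩, rfl⟩
  exact h x

include hy in
theorem Ac_MA (m : ℕ) : Ac (MA y0) (m + 1) := by
  apply Ac_of_disc (HA hy) ⟨fun q => HA hy (q, 1), by fun_prop⟩ _ (HA_zero hy) (fun _ => rfl)
  apply finite_of_maps _ (fun q : MA y0 => q.1.1)
    (Subtype.val_injective.comp Subtype.val_injective)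
    (s := {0} ×ˢ {v : ℂ | v ^ 2 = y0}) ((Set.finite_singleton 0).prod (sq_finite y0))
  intro q
  show (HA hy (q, 1)).1.1 ∈ _
  rw [HA_one]
  exact ⟨rfl, kA_sq hy (ne_of_re q.2)⟩

end PartA

/-! ### the part `B` -/

section PartB

variable {y0 : ℂ} (hy : y0 ≠ 0)

/-- the parameter `b_s` on `B` -/
noncomputable def bB (y0 : ℂ) (q : ℂ × ℂ) (t : ℝ) : ℂ :=
  (((1 - (1 - (1 - t) ^ 2) : ℝ)) : ℂ) * cb y0 q + ((1 - (1 - t) ^ 2 : ℝ) : ℂ) * 1

theorem bB_re {q : ℂ × ℂ} (h : 1 / 3 < (cb y0 q).re) {t : ℝ} (h0 : 0 ≤ t) (h1 : t ≤ 1) :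
    1 / 3 < (bB y0 q t).re := by
  obtain ⟨h2, h3⟩ := sq_mem h0 h1
  exact re_interp h (by norm_num) h2 h3

/-- the deformation of `B` -/
noncomputable def dB (y0 : ℂ) (q : ℂ × ℂ) (t : ℝ) : ℂ × ℂ :=
  (kB y0 q * rt3 (bB y0 q t), ((1 - t : ℝ) : ℂ) * q.2)

include hy in
theorem dB_mem {q : ℂ × ℂ} (hq : q ∈ Mf y0) (h : 1 / 3 < (cb y0 q).re) (t : ℝ) :
    dB y0 q t ∈ Mf y0 := by
  have hab := ca_add_cb hy hq
  apply mem_Mf_of (x := q.1) (y := q.2) (a := 1 - bB y0 q t) (b := bB y0 q t)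
  · rw [mul_pow, kB_cube hy (ne_of_re h), rt3_cube]
    ring
  · rw [mul_pow]
    have h1 : q.2 ^ 2 = y0 * ca y0 q := by rw [ca_mul hy]
    rw [h1]
    unfold bB
    have h2 : ca y0 q = 1 - cb y0 q := by rw [← hab]; ring
    rw [h2]
    push_cast
    ring
  · ring

theorem cb_dB {hy : y0 ≠ 0} {q : ℂ × ℂ} (h : 1 / 3 < (cb y0 q).re) (t : ℝ) :
    cb y0 (dB y0 q t) = bB y0 q t := by
  unfold cb dB
  show -((kB y0 q * rt3 (bB y0 q t)) ^ 3) / y0 = _
  rw [mul_pow, kB_cube hy (ne_of_re h), rt3_cube]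
  field_simp

theorem dB_zero {q : ℂ × ℂ} (h : 1 / 3 < (cb y0 q).re) : dB y0 q 0 = q := by
  have h1 : bB y0 q 0 = cb y0 q := by
    unfold bB
    simp
  unfold dB
  rw [h1]
  apply Prod.ext
  · show kB y0 q * rt3 (cb y0 q) = q.1
    unfold kB
    exact div_mul_cancel₀ _ (rt3_ne (ne_of_re h))
  · simp

theorem dB_one {q : ℂ × ℂ} : dB y0 q 1 = (kB y0 q, 0) := by
  have h1 : bB y0 q 1 = 1 := by
    unfold bB
    simp
  unfold dB
  rw [h1, rt3_one]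
  simp

theorem continuous_dB {X : Type*} [TopologicalSpace X] {f : X → ℂ × ℂ} (hf : Continuous f)
    (h : ∀ x, 1 / 3 < (cb y0 (f x)).re) {t : X → ℝ} (ht : Continuous t)
    (h0 : ∀ x, 0 ≤ t x) (h1 : ∀ x, t x ≤ 1) : Continuous fun x => dB y0 (f x) (t x) := by
  have hca : Continuous fun x => cb y0 (f x) := continuous_cb.comp hf
  have haA : Continuous fun x => bB y0 (f x) (t x) := by
    unfold bB
    fun_prop
  unfold dB
  apply Continuous.prodMk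
  · exact (continuous_kB hf h).mul (continuous_rt3 haA fun x => slit_of_re (bB_re (h x) (h0 x) (h1 x)))
  · fun_prop

/-- the homotopy on `B` -/
noncomputable def HBb : C(MB y0 × unitInterval, MB y0) :=
  ⟨fun p => ⟨⟨dB y0 p.1.1.1 p.2, dB_mem hy p.1.1.2 p.1.2 _⟩, by
    show 1 / 3 < (cb y0 (dB y0 p.1.1.1 p.2)).re
    rw [cb_dB (hy := hy) p.1.2]
    exact bB_re p.1.2 p.2.2.1 p.2.2.2⟩, by
    apply Continuous.subtype_mk
    apply Continuous.subtype_mk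
    exact continuous_dB (by fun_prop) (fun p => p.1.2) (by fun_prop) (fun p => p.2.2.1)
      (fun p => p.2.2.2)⟩

theorem HBb_zero (q : MB y0) : HBb hy (q, 0) = q := by
  apply Subtype.ext
  apply Subtype.ext
  exact dB_zero q.2

theorem HBb_one (q : MB y0) : (HBb hy (q, 1)).1.1 = (kB y0 q.1.1, 0) := dB_one

include hy in
theorem Ac_MB (m : ℕ) : Ac (MB y0) (m + 1) := by
  apply Ac_of_disc (HBb hy) ⟨fun q => HBb hy (q, 1), by fun_prop⟩ _ (HBb_zero hy) (fun _ => rfl)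
  apply finite_of_maps _ (fun q : MB y0 => q.1.1)
    (Subtype.val_injective.comp Subtype.val_injective)
    (s := {v : ℂ | v ^ 3 = -y0} ×ˢ {0}) ((cube_finite (-y0)).prod (Set.finite_singleton 0))
  intro q
  show (HBb hy (q, 1)).1.1 ∈ _
  rw [HBb_one]
  exact ⟨kB_cube hy (ne_of_re q.2), rfl⟩

end PartB

end Pool.Agent.R866.TF
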