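import Pool.Agent.R866.TF.Mil2

/-! The Milnor fibre of the cusp: the overlap, and the conclusion. -/

set_option linter.all false

namespace Pool.Agent.R866.TF

open Finsupp Pool.Agent.Helper922.HB

section PartAB

variable {y0 : ℂ} (hy : y0 ≠ 0)

/-- the parameters on the overlap -/
noncomputable def aC (y0 : ℂ) (q : ℂ × ℂ) (t : ℝ) : ℂ :=
  ((1 - t : ℝ) : ℂ) * ca y0 q + (t : ℂ) * (1 / 2)

/-- the parameters on the overlap -/
noncomputable def bC (y0 : ℂ) (q : ℂ × ℂ) (t : ℝ) : ℂ :=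
  ((1 - t : ℝ) : ℂ) * cb y0 q + (t : ℂ) * (1 / 2)

theorem aC_re {q : ℂ × ℂ} (h : 1 / 3 < (ca y0 q).re) {t : ℝ} (h0 : 0 ≤ t) (h1 : t ≤ 1) :
    1 / 3 < (aC y0 q t).re := re_interp h (by norm_num) h0 h1

theorem bC_re {q : ℂ × ℂ} (h : 1 / 3 < (cb y0 q).re) {t : ℝ} (h0 : 0 ≤ t) (h1 : t ≤ 1) :
    1 / 3 < (bC y0 q t).re := re_interp h (by norm_num) h0 h1

/-- the deformation of the overlap -/
noncomputable def dC (y0 : ℂ) (q : ℂ × ℂ) (t : ℝ) : ℂ × ℂ :=
  (kB y0 q * rt3 (bC y0 q t), kA y0 q * rt2 (aC y0 q t))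

include hy in
theorem dC_mem {q : ℂ × ℂ} (hq : q ∈ Mf y0) (ha : 1 / 3 < (ca y0 q).re) (hb : 1 / 3 < (cb y0 q).re)
    (t : ℝ) : dC y0 q t ∈ Mf y0 := by
  have hab := ca_add_cb hy hq
  apply mem_Mf_of (x := q.1) (y := q.2) (a := aC y0 q t) (b := bC y0 q t)
  · rw [mul_pow, kB_cube hy (ne_of_re hb), rt3_cube]
    ring
  · rw [mul_pow, kA_sq hy (ne_of_re ha), rt2_sq]
  · unfold aC bC
    push_cast
    linear_combination (1 - (t : ℂ)) * hab

theorem ca_dC {hy : y0 ≠ 0} {q : ℂ × ℂ} (h : 1 / 3 < (ca y0 q).re) (t : ℝ) :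
    ca y0 (dC y0 q t) = aC y0 q t := by
  unfold ca dC
  show (kA y0 q * rt2 (aC y0 q t)) ^ 2 / y0 = _
  rw [mul_pow, kA_sq hy (ne_of_re h), rt2_sq]
  field_simp

theorem cb_dC {hy : y0 ≠ 0} {q : ℂ × ℂ} (h : 1 / 3 < (cb y0 q).re) (t : ℝ) :
    cb y0 (dC y0 q t) = bC y0 q t := by
  unfold cb dC
  show -((kB y0 q * rt3 (bC y0 q t)) ^ 3) / y0 = _
  rw [mul_pow, kB_cube hy (ne_of_re h), rt3_cube]
  field_simp

theorem dC_zero {q : ℂ × ℂ} (ha : 1 / 3 < (ca y0 q).re) (hb : 1 / 3 < (cb y0 q).re) :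
    dC y0 q 0 = q := by
  have h1 : bC y0 q 0 = cb y0 q := by
    unfold bC
    simp
  have h2 : aC y0 q 0 = ca y0 q := by
    unfold aC
    simp
  unfold dC
  rw [h1, h2]
  apply Prod.ext
  · show kB y0 q * rt3 (cb y0 q) = q.1
    unfold kB
    exact div_mul_cancel₀ _ (rt3_ne (ne_of_re hb))
  · show kA y0 q * rt2 (ca y0 q) = q.2
    unfold kA
    exact div_mul_cancel₀ _ (rt2_ne (ne_of_re ha))

theorem dC_one {q : ℂ × ℂ} : dC y0 q 1 = (kB y0 q * rt3 (1 / 2), kA y0 q * rt2 (1 / 2)) := by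
  have h1 : bC y0 q 1 = 1 / 2 := by
    unfold bC
    simp
  have h2 : aC y0 q 1 = 1 / 2 := by
    unfold aC
    simp
  unfold dC
  rw [h1, h2]

theorem continuous_dC {X : Type*} [TopologicalSpace X] {f : X → ℂ × ℂ} (hf : Continuous f)
    (ha : ∀ x, 1 / 3 < (ca y0 (f x)).re) (hb : ∀ x, 1 / 3 < (cb y0 (f x)).re)
    {t : X → ℝ} (ht : Continuous t)
    (h0 : ∀ x, 0 ≤ t x) (h1 : ∀ x, t x ≤ 1) : Continuous fun x => dC y0 (f x) (t x) := by
  have hca : Continuous fun x => ca y0 (f x) := continuous_ca.comp hf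
  have hcb : Continuous fun x => cb y0 (f x) := continuous_cb.comp hf
  have haC : Continuous fun x => aC y0 (f x) (t x) := by
    unfold aC
    fun_prop
  have hbC : Continuous fun x => bC y0 (f x) (t x) := by
    unfold bC
    fun_prop
  unfold dC
  apply Continuous.prodMk
  · exact (continuous_kB hf hb).mul
      (continuous_rt3 hbC fun x => slit_of_re (bC_re (hb x) (h0 x) (h1 x)))
  · exact (continuous_kA hf ha).mul
      (continuous_rt2 haC fun x => slit_of_re (aC_re (ha x) (h0 x) (h1 x)))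

/-- the homotopy on the overlap -/
noncomputable def HC : C(↥(MA y0 ∩ MB y0) × unitInterval, ↥(MA y0 ∩ MB y0)) :=
  ⟨fun p => ⟨⟨dC y0 p.1.1.1 p.2, dC_mem hy p.1.1.2 p.1.2.1 p.1.2.2 _⟩, by
    constructor
    · show 1 / 3 < (ca y0 (dC y0 p.1.1.1 p.2)).re
      rw [ca_dC (hy := hy) p.1.2.1]
      exact aC_re p.1.2.1 p.2.2.1 p.2.2.2
    · show 1 / 3 < (cb y0 (dC y0 p.1.1.1 p.2)).re
      rw [cb_dC (hy := hy) p.1.2.2]
      exact bC_re p.1.2.2 p.2.2.1 p.2.2.2⟩, by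
    apply Continuous.subtype_mk
    apply Continuous.subtype_mk
    exact continuous_dC (by fun_prop) (fun p => p.1.2.1) (fun p => p.1.2.2) (by fun_prop)
      (fun p => p.2.2.1) (fun p => p.2.2.2)⟩

theorem HC_zero (q : ↥(MA y0 ∩ MB y0)) : HC hy (q, 0) = q := by
  apply Subtype.ext
  apply Subtype.ext
  exact dC_zero q.2.1 q.2.2

theorem HC_one (q : ↥(MA y0 ∩ MB y0)) : (HC hy (q, 1)).1.1 =
    (kB y0 q.1.1 * rt3 (1 / 2), kA y0 q.1.1 * rt2 (1 / 2)) := dC_one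

theorem half_rt : rt3 (1 / 2) ≠ 0 ∧ rt2 (1 / 2) ≠ 0 :=
  ⟨rt3_ne (by norm_num), rt2_ne (by norm_num)⟩

include hy in
theorem Ac_MC (m : ℕ) : Ac ↥(MA y0 ∩ MB y0) (m + 1) := by
  apply Ac_of_disc (HC hy) ⟨fun q => HC hy (q, 1), by fun_prop⟩ _ (HC_zero hy) (fun _ => rfl)
  apply finite_of_maps _ (fun q : ↥(MA y0 ∩ MB y0) => q.1.1)
    (Subtype.val_injective.comp Subtype.val_injective)
    (s := (fun v : ℂ × ℂ => (v.1 * rt3 (1 / 2), v.2 * rt2 (1 / 2))) ''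
      ({v : ℂ | v ^ 3 = -y0} ×ˢ {v : ℂ | v ^ 2 = y0}))
      (((cube_finite (-y0)).prod (sq_finite y0)).image _)
  intro q
  show (HC hy (q, 1)).1.1 ∈ _
  rw [HC_one]
  exact ⟨(kB y0 q.1.1, kA y0 q.1.1),
    ⟨kB_cube hy (ne_of_re q.2.2), kA_sq hy (ne_of_re q.2.1)⟩, rfl⟩

/-- `G` on the parts -/
noncomputable def GA : C(MA y0, MA y0) := ⟨fun q => ⟨GM y0 q.1, by
  show 1 / 3 < (ca y0 (Ga q.1.1)).re
  rw [ca_Ga]
  exact q.2⟩, by fun_prop⟩

/-- `G` on the parts -/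
noncomputable def GB : C(MB y0, MB y0) := ⟨fun q => ⟨GM y0 q.1, by
  show 1 / 3 < (cb y0 (Ga q.1.1)).re
  rw [cb_Ga]
  exact q.2⟩, by fun_prop⟩

/-- `G` on the parts -/
noncomputable def GC : C(↥(MA y0 ∩ MB y0), ↥(MA y0 ∩ MB y0)) := ⟨fun q => ⟨GM y0 q.1, by
  constructor
  · show 1 / 3 < (ca y0 (Ga q.1.1)).re
    rw [ca_Ga]
    exact q.2.1
  · show 1 / 3 < (cb y0 (Ga q.1.1)).re
    rw [cb_Ga]
    exact q.2.2⟩, by fun_prop⟩

/-- the invariant of a point of the overlap -/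
noncomputable def kC (q : ↥(MA y0 ∩ MB y0)) : ℂ × ℂ := (kB y0 q.1.1, kA y0 q.1.1)

/-- the invariant of zero-chains -/
noncomputable def KC : (Sing ↥(MA y0 ∩ MB y0) 0 →₀ ℤ) →ₗ[ℤ] (ℂ × ℂ →₀ ℤ) :=
  Finsupp.lmapDomain ℤ ℤ (fun σ => kC (σ (Sc.vert 0 0)))

theorem KC_single (σ : Sing ↥(MA y0 ∩ MB y0) 0) (a : ℤ) :
    KC (single σ a) = single (kC (σ (Sc.vert 0 0))) a := by
  simp [KC]

theorem KC_push (d : Sing ↥(MA y0 ∩ MB y0) 0 →₀ ℤ) : KC (push GC 0 d) = mp Ga (KC d) := by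
  have : (KC (y0 := y0)).comp (push GC 0) = (mp Ga).comp (KC (y0 := y0)) := by
    apply Finsupp.lhom_ext'
    intro σ
    apply LinearMap.ext_ring
    simp only [LinearMap.comp_apply, lsingle_apply]
    rw [push_single, KC_single, KC_single, mp_single]
    congr 1
    show (kB y0 (Ga _), kA y0 (Ga _)) = _
    rw [kB_Ga, kA_Ga]
    rfl
  exact LinearMap.congr_fun this d

include hy in
theorem KC_supp (d : Sing ↥(MA y0 ∩ MB y0) 0 →₀ ℤ) :
    KC d ∈ supported ℤ ℤ {z : ℂ × ℂ | z.1 ^ 3 = -y0 ∧ z.2 ^ 2 = y0} := by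
  refine supp_map Set.univ KC _ ?_ d (by simp)
  intro σ _
  rw [KC_single]
  apply Finsupp.single_mem_supported
  exact ⟨kB_cube hy (ne_of_re (σ _).2.2), kA_sq hy (ne_of_re (σ _).2.1)⟩

/-- algebra: zero marginals -/
theorem marg (r c : ℂ) (δ : ℂ × ℂ →₀ ℤ)
    (hδ : δ ∈ supported ℤ ℤ {z : ℂ × ℂ | z.1 ^ 3 = c ^ 3 ∧ z.2 ^ 2 = r ^ 2})
    (h1 : mp (Prod.fst : ℂ × ℂ → ℂ) δ = 0) (h2 : mp (Prod.snd : ℂ × ℂ → ℂ) δ = 0) :
    mp Ga (mp Ga δ) - mp Ga δ + δ = 0 := by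
  let F : ℂ × ℂ → ℂ × ℂ := fun z => (z.1, -z.2)
  let R : ℂ × ℂ → ℂ × ℂ := fun z => (w3 * z.1, z.2)
  have e1 : δ + mp F δ = 0 := by
    have := supp_map _ (LinearMap.id + mp F -
      (mp (fun u : ℂ => (u, r)) + mp (fun u : ℂ => (u, -r))).comp (mp (Prod.fst : ℂ × ℂ → ℂ)))
      ⊥ (by
        rintro ⟨u, v⟩ ⟨_, hv⟩
        simp only [LinearMap.add_apply, LinearMap.sub_apply, LinearMap.comp_apply,
          LinearMap.id_apply, mp_single, Submodule.mem_bot, F]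
        rcases sq_eq_sq_iff_eq_or_eq_neg.mp hv with h | h
        · simp only at h
          rw [h]
          abel
        · simp only at h
          rw [h, neg_neg]
          abel) δ hδ
    simp only [LinearMap.add_apply, LinearMap.sub_apply, LinearMap.comp_apply,
          LinearMap.id_apply, Submodule.mem_bot] at this
    rw [h1, map_zero, map_zero, add_zero, sub_zero] at this
    exact this
  have e2 : δ + mp R δ + mp R (mp R δ) = 0 := by
    have := supp_map _ (LinearMap.id + mp R + (mp R).comp (mp R) -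
      (mp (fun v : ℂ => (c, v)) + mp (fun v : ℂ => (w3 * c, v)) +
        mp (fun v : ℂ => (w3 * (w3 * c), v))).comp (mp (Prod.snd : ℂ × ℂ → ℂ)))
      ⊥ (by
        rintro ⟨u, v⟩ ⟨hu, _⟩
        simp only [LinearMap.add_apply, LinearMap.sub_apply, LinearMap.comp_apply,
          LinearMap.id_apply, mp_single, Submodule.mem_bot, R]
        have h3 : ∀ x : ℂ, w3 * (w3 * (w3 * x)) = x := by
          intro x
          linear_combination x * w3_cube
        rcases cube_eq hu with h | h | h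
        · simp only at h
          rw [h]
          abel
        · simp only at h
          rw [h, h3]
          abel
        · simp only at h
          rw [h, h3]
          abel) δ hδ
    simp only [LinearMap.add_apply, LinearMap.sub_apply, LinearMap.comp_apply,
          LinearMap.id_apply, Submodule.mem_bot] at this
    rw [h2, map_zero, map_zero, map_zero, add_zero, add_zero, sub_zero] at this
    exact this
  have e3 : mp Ga δ = mp R (mp F δ) := by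
    simp only [mp, Finsupp.lmapDomain_apply, ← Finsupp.mapDomain_comp]
    rfl
  have e4 : mp Ga (mp Ga δ) = mp R (mp R δ) := by
    simp only [mp, Finsupp.lmapDomain_apply, ← Finsupp.mapDomain_comp]
    congr 1
    funext z
    show (w3 * (w3 * z.1), - -z.2) = (w3 * (w3 * z.1), z.2)
    rw [neg_neg]
  have e5 : mp F δ = -δ := by
    rw [eq_neg_iff_add_eq_zero, add_comm]
    exact e1
  rw [e4, e3, e5, map_neg, sub_neg_eq_add, ← e2]
  abel

/-- the first projection of the invariant -/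
theorem fst_KC (d : Sing ↥(MA y0 ∩ MB y0) 0 →₀ ℤ) (f : C(MB y0, ℂ)) (hf : ∀ q, f q = kB y0 q.1.1) :
    mp (Prod.fst : ℂ × ℂ → ℂ) (KC d) = vx f 0 (push (inr (MA y0) (MB y0)) 0 d) := by
  have : (mp (Prod.fst : ℂ × ℂ → ℂ)).comp (KC (y0 := y0)) =
      (vx f 0).comp (push (inr (MA y0) (MB y0)) 0) := by
    apply Finsupp.lhom_ext'
    intro σ
    apply LinearMap.ext_ring
    simp only [LinearMap.comp_apply, lsingle_apply]
    rw [push_single, KC_single, vx_single, mp_single, hf]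
    rfl
  exact LinearMap.congr_fun this d

/-- the second projection of the invariant -/
theorem snd_KC (d : Sing ↥(MA y0 ∩ MB y0) 0 →₀ ℤ) (f : C(MA y0, ℂ)) (hf : ∀ q, f q = kA y0 q.1.1) :
    mp (Prod.snd : ℂ × ℂ → ℂ) (KC d) = vx f 0 (push (inl (MA y0) (MB y0)) 0 d) := by
  have : (mp (Prod.snd : ℂ × ℂ → ℂ)).comp (KC (y0 := y0)) =
      (vx f 0).comp (push (inl (MA y0) (MB y0)) 0) := by
    apply Finsupp.lhom_ext'
    intro σ
    apply LinearMap.ext_ring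
    simp only [LinearMap.comp_apply, lsingle_apply]
    rw [push_single, KC_single, vx_single, mp_single, hf]
    rfl
  exact LinearMap.congr_fun this d

include hy in
/-- zero-chains bounding in both parts are killed by `G² - G + 1` -/
theorem Psi_overlap (u : Sing (MA y0) 1 →₀ ℤ) (v : Sing (MB y0) 1 →₀ ℤ)
    (d : Sing ↥(MA y0 ∩ MB y0) 0 →₀ ℤ) (hu : bdry _ 0 u = push (inl (MA y0) (MB y0)) 0 d)
    (hv : bdry _ 0 v = - push (inr (MA y0) (MB y0)) 0 d) : Psi GC 0 d ∈ Bdy ↥(MA y0 ∩ MB y0) 0 := by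
  apply mem_Bdy_zero_of_disc' (HC hy) ⟨fun q => HC hy (q, 1), by fun_prop⟩ kC _ (HC_zero hy)
    (fun _ => rfl)
  · show KC (Psi GC 0 d) = 0
    rw [Psi_apply, map_add, map_sub, KC_push, KC_push]
    have hs := KC_supp hy d
    apply marg (rt2 y0) (rt3 (-y0))
    · rw [rt2_sq, rt3_cube]
      exact hs
    · let f : C(MB y0, ℂ) := ⟨fun q => kB y0 q.1.1, continuous_kB (by fun_prop) (fun q => q.2)⟩
      rw [fst_KC d f (fun _ => rfl)]
      have hfin : (Set.range f).Finite := by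
        apply (cube_finite (-y0)).subset
        rintro _ ⟨q, rfl⟩
        exact kB_cube hy (ne_of_re q.2)
      have h2 := vx_bdry f hfin v
      rw [hv, map_neg, neg_eq_zero] at h2
      exact h2
    · let f : C(MA y0, ℂ) := ⟨fun q => kA y0 q.1.1, continuous_kA (by fun_prop) (fun q => q.2)⟩
      rw [snd_KC d f (fun _ => rfl)]
      have hfin : (Set.range f).Finite := by
        apply (sq_finite y0).subset
        rintro _ ⟨q, rfl⟩
        exact kA_sq hy (ne_of_re q.2)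
      have h2 := vx_bdry f hfin u
      rw [hu] at h2
      exact h2
  · intro q q' h
    apply Subtype.ext
    apply Subtype.ext
    show (HC hy (q, 1)).1.1 = (HC hy (q', 1)).1.1
    rw [HC_one, HC_one]
    have h1 : kB y0 q.1.1 = kB y0 q'.1.1 := congrArg Prod.fst h
    have h2 : kA y0 q.1.1 = kA y0 q'.1.1 := congrArg Prod.snd h
    rw [h1, h2]

include hy in
/-- `G² - G + 1` kills the homology of the fibre in positive degrees -/
theorem Psi_fibre (n : ℕ) (z : Sing (Mf y0) (n + 1) →₀ ℤ) (hz : z ∈ Cyc (Mf y0) (n + 1)) :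
    Psi (GM y0) (n + 1) z ∈ Bdy (Mf y0) (n + 1) := by
  obtain ⟨u, v, d, hd, h1, hu, hv⟩ := mv_split (MA y0) (MB y0) isOpen_MA isOpen_MB
    (cover_M hy) n z hz
  have key : Psi (GM y0) (n + 1) (push (sub (MA y0)) (n + 1) u + push (sub (MB y0)) (n + 1) v) ∈
      Bdy (Mf y0) (n + 1) := by
    rw [map_add, Psi_push (sub (MA y0)) GA (GM y0) (fun _ => rfl),
      Psi_push (sub (MB y0)) GB (GM y0) (fun _ => rfl)]
    apply mv_die (MA y0) (MB y0) n (Ac_MA hy n) (Ac_MB hy n) _ _ (Psi GC n d)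
    · cases n with
      | zero => exact Psi_overlap hy u v d hu hv
      | succ n => exact Psi_mem_Bdy _ _ _ (Ac_MC hy n d hd)
    · rw [bdry_Psi, hu, Psi_push (inl (MA y0) (MB y0)) GC GA (fun _ => rfl)]
    · rw [bdry_Psi, hv, map_neg, Psi_push (inr (MA y0) (MB y0)) GC GB (fun _ => rfl)]
  have h2 := Psi_mem_Bdy (GM y0) _ _ h1
  rw [map_sub] at h2
  have := Submodule.add_mem _ h2 key
  rwa [sub_add_cancel] at this

/-! connectedness -/

include hy in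
/-- the path from `(0, v)` to `(u, 0)` -/
theorem joined_uv {u v : ℂ} (hu : u ^ 3 = -y0) (hv : v ^ 2 = y0) :
    ∃ (h1 : ((0 : ℂ), v) ∈ Mf y0) (h2 : (u, (0 : ℂ)) ∈ Mf y0),
      Joined (⟨(0, v), h1⟩ : Mf y0) ⟨(u, 0), h2⟩ := by
  have h1 : ((0 : ℂ), v) ∈ Mf y0 := by
    show v ^ 2 - 0 ^ 3 = y0
    rw [hv]; ring
  have h2 : (u, (0 : ℂ)) ∈ Mf y0 := by
    show (0 : ℂ) ^ 2 - u ^ 3 = y0
    rw [hu]; ring
  refine ⟨h1, h2, ⟨⟨⟨fun t => ⟨((t : ℝ) * u, (Real.sqrt (1 - (t : ℝ) ^ 3) : ℝ) * v), ?_⟩, ?_⟩, ?_, ?_⟩⟩⟩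
  · show ((Real.sqrt (1 - (t : ℝ) ^ 3) : ℝ) * v) ^ 2 - ((t : ℝ) * u) ^ 3 = y0
    have h3 : 0 ≤ 1 - (t : ℝ) ^ 3 := by
      have := pow_le_one₀ t.2.1 t.2.2 (n := 3)
      linarith
    have h4 : ((Real.sqrt (1 - (t : ℝ) ^ 3) : ℝ) : ℂ) ^ 2 = 1 - ((t : ℝ) : ℂ) ^ 3 := by
      rw [← Complex.ofReal_pow, Real.sq_sqrt h3]
      push_cast
      ring
    rw [mul_pow, mul_pow, h4, hu, hv]
    ring
  · fun_prop
  · simp
  · simp

include hy in
theorem joined_base (q : Mf y0) (r : ℂ) (hr : r ^ 2 = y0) :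
    ∃ h : ((0 : ℂ), r) ∈ Mf y0, Joined (⟨(0, r), h⟩ : Mf y0) q := by
  obtain ⟨h1, h2, h3⟩ := joined_uv hy (rt3_cube (-y0)) hr
  refine ⟨h1, ?_⟩
  rcases cover_M hy q with hq | hq
  · have hk := kA_sq hy (ne_of_re hq)
    obtain ⟨h4, h5, h6⟩ := joined_uv hy (rt3_cube (-y0)) hk
    refine (h3.trans h6.symm).trans ?_
    have h7 : Joined q (⟨(0, kA y0 q.1), h4⟩ : Mf y0) := by
      refine ⟨⟨⟨fun t => (HA hy (⟨q, hq⟩, t)).1,
        continuous_subtype_val.comp ((HA hy).continuous.comp (by fun_prop))⟩, ?_, ?_⟩⟩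
      · show (HA hy (⟨q, hq⟩, 0)).1 = q
        rw [HA_zero]
      · apply Subtype.ext
        exact HA_one hy ⟨q, hq⟩
    exact h7.symm
  · have hk := kB_cube hy (ne_of_re hq)
    obtain ⟨h4, h5, h6⟩ := joined_uv hy hk hr
    refine h6.trans ?_
    have h7 : Joined q (⟨(kB y0 q.1, 0), h5⟩ : Mf y0) := by
      refine ⟨⟨⟨fun t => (HBb hy (⟨q, hq⟩, t)).1,
        continuous_subtype_val.comp ((HBb hy).continuous.comp (by fun_prop))⟩, ?_, ?_⟩⟩
      · show (HBb hy (⟨q, hq⟩, 0)).1 = q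
        rw [HBb_zero]
      · apply Subtype.ext
        exact HBb_one hy ⟨q, hq⟩
    exact h7.symm

include hy in
theorem Mf_pathConnected : ∃ x : Mf y0, ∀ q, Joined x q := by
  have h1 : ((0 : ℂ), rt2 y0) ∈ Mf y0 := by
    show rt2 y0 ^ 2 - 0 ^ 3 = y0
    rw [rt2_sq]; ring
  exact ⟨⟨_, h1⟩, fun q => (joined_base hy q (rt2 y0) (rt2_sq y0)).choose_spec⟩

end PartAB

/-! ### the pair -/

/-- the contraction of the plane -/
noncomputable def HP : C((ℂ × ℂ) × unitInterval, ℂ × ℂ) :=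
  ⟨fun p => (((1 - p.2 : ℝ) : ℂ) ^ 2 * p.1.1, ((1 - p.2 : ℝ) : ℂ) ^ 3 * p.1.2), by fun_prop⟩

theorem HP_zero (q : ℂ × ℂ) : HP (q, 0) = q := by
  apply Prod.ext
  · show ((1 - ((0 : unitInterval) : ℝ) : ℝ) : ℂ) ^ 2 * q.1 = q.1
    simp
  · show ((1 - ((0 : unitInterval) : ℝ) : ℝ) : ℂ) ^ 3 * q.2 = q.2
    simp

theorem HP_one (q : ℂ × ℂ) : HP (q, 1) = 0 := by
  apply Prod.ext
  · show ((1 - ((1 : unitInterval) : ℝ) : ℝ) : ℂ) ^ 2 * q.1 = 0
    simp
  · show ((1 - ((1 : unitInterval) : ℝ) : ℝ) : ℂ) ^ 3 * q.2 = 0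
    simp

theorem RAc_cusp : RAc (Mf 0) := by
  apply RAc_of_one HP
  · intro q hq t
    have h : q.2 ^ 2 - q.1 ^ 3 = 0 := hq
    show (((1 - t : ℝ) : ℂ) ^ 3 * q.2) ^ 2 - (((1 - t : ℝ) : ℂ) ^ 2 * q.1) ^ 3 = 0
    linear_combination ((1 - t : ℝ) : ℂ) ^ 6 * h
  · exact HP_zero
  · intro q
    rw [HP_one]
    show (0 : ℂ) ^ 2 - 0 ^ 3 = 0
    ring

/-- the relation on the relative homology of the affine part -/
theorem Psi_aff (y0 : ℂ) (n : ℕ) (c : Sing (ℂ × ℂ) n →₀ ℤ) (hc : RCy (Mf y0) n c) :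
    Psi Ga n c ∈ RBd (Mf y0) n := by
  by_cases hy : y0 = 0
  · subst hy
    exact Psi_mem_RBd Ga (Ga_maps 0) n (RAc_cusp n c hc)
  · cases n with
    | zero =>
      apply Psi_mem_RBd Ga (Ga_maps y0) 0
      obtain ⟨x, _⟩ := Mf_pathConnected hy
      have h1 := zero_chain_mem (X := ℂ × ℂ) (x := x.1)
        (fun q => (joinedIn_univ.mp ((convex_univ (𝕜 := ℝ)).isPathConnected
          Set.univ_nonempty |>.joinedIn x.1 trivial q trivial))) c
      obtain ⟨w, hw⟩ := h1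
      have h2 : c = bdry (ℂ × ℂ) 0 w + ep _ 0 c • single (cs x.1 0) (1 : ℤ) := by
        rw [hw]; abel
      rw [h2]
      refine Submodule.add_mem _ (mem_RBd_of_bdry _) (mem_RBd_of_sp (Submodule.smul_mem _ _ ?_))
      apply single_mem_sp
      rintro _ ⟨t, rfl⟩
      exact x.2
    | succ n =>
      obtain ⟨e, he⟩ := exists_lift (O := Mf y0) (z := bdry _ n c) hc
      have hecyc : e ∈ Cyc (Mf y0) n := by
        apply mem_Cyc_of_push (sub (Mf y0)) Subtype.val_injective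
        rw [he]
        exact Bdy_le_Cyc n ⟨c, rfl⟩
      have hPe : Psi (GM y0) n e ∈ Bdy (Mf y0) n := by
        cases n with
        | zero =>
          obtain ⟨x, hx⟩ := Mf_pathConnected hy
          apply Cn_of_joined hx
          have h0 : ep (Mf y0) 0 e = 0 := by
            rw [← ep_push (sub (Mf y0)), he, ep_bdry]
          rw [Psi_apply, map_add, map_sub, ep_push, ep_push, h0]
          simp
        | succ n => exact Psi_fibre hy n e hecyc
      obtain ⟨w, hw⟩ := hPe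
      have h3 : Psi Ga (n + 1) c - push (sub (Mf y0)) (n + 1) w ∈ Bdy (ℂ × ℂ) (n + 1) := by
        apply Ac_of_contr HP 0 HP_zero HP_one n
        change bdry (ℂ × ℂ) n _ = 0
        rw [map_sub, bdry_Psi, ← he, bdry_push, hw,
          Psi_push (sub (Mf y0)) (GM y0) Ga (fun _ => rfl), sub_self]
      obtain ⟨f, hf⟩ := h3
      have h4 : Psi Ga (n + 1) c = bdry _ (n + 1) f + push (sub (Mf y0)) (n + 1) w := by
        rw [hf]; abel
      rw [h4]
      exact Submodule.add_mem _ (mem_RBd_of_bdry _) (mem_RBd_of_sp (push_sub_mem_sp _ w))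

end Pool.Agent.R866.TF
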