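import Pool.Agent.R866.TF.Cov

/-! Local parametrisations of the total space. -/

set_option linter.all false

open scoped LinearAlgebra.Projectivization Topology

namespace Pool.Agent.R866.TF

open Pool.Agent.Helper922.HB

/-! ### derivatives of symmetrised products -/

section tangent

variable {α : Type*} [Fintype α] {k : ℕ}

theorem hasDerivAt_pf (F : ℂ → (Fin k → α) → ℂ) (F' : (Fin k → α) → ℂ)
    (hF : ∀ i, HasDerivAt (fun s => F s i) (F' i) 0) (T : α → ℂ) :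
    HasDerivAt (fun s => pf (F s) T) (pf F' T) 0 := by
  unfold pf
  apply HasDerivAt.fun_sum
  intro i _
  exact (hF i).mul_const _

theorem hasDerivAt_lf (S : ℂ → α → ℂ) (D : α → ℂ) (hS : ∀ a, HasDerivAt (fun s => S s a) (D a) 0)
    (T : α → ℂ) : HasDerivAt (fun s => lf (S s) T) (lf D T) 0 := by
  unfold lf
  apply HasDerivAt.fun_sum
  intro a _
  exact (hS a).mul_const _

/-- tangent vectors killed by the projectivised symmetrised product -/
theorem tangent_key (S : ℂ → Fin k → α → ℂ) (D : Fin k → α → ℂ)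
    (hS : ∀ j a, HasDerivAt (fun s => S s j a) (D j a) 0) (F' : (Fin k → α) → ℂ)
    (hF : ∀ i, HasDerivAt (fun s => sy (S s) i) (F' i) 0) (c : ℂ) (h : F' = c • sy (S 0))
    (j : Fin k) (hj : ∀ l, l ≠ j → ∀ a : ℂ, S 0 l ≠ a • S 0 j) : ∃ a : ℂ, D j = a • S 0 j := by
  classical
  apply sy_tangent (S 0) D c j hj
  intro T
  have h1 := hasDerivAt_pf (fun s => sy (S s)) F' hF T
  have h2 : HasDerivAt (fun s => ∏ l, lf (S s l) T)
      (∑ l, (∏ m ∈ Finset.univ.erase l, lf (S 0 m) T) • lf (D l) T) 0 :=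
    HasDerivAt.fun_finsetProd (u := Finset.univ) (f := fun l s => lf (S s l) T)
      (f' := fun l => lf (D l) T) (fun l _ => hasDerivAt_lf (fun s => S s l) (D l) (hS l) T)
  have h3 := h2.const_mul (k.factorial : ℂ)
  have h4 : (fun s => pf (sy (S s)) T) = fun s => (k.factorial : ℂ) * ∏ l, lf (S s l) T := by
    funext s
    exact pf_sy (S s) T
  rw [h4] at h1
  have h5 := h1.unique h3
  rw [h, pf_smul, pf_sy] at h5
  have h6 : (k.factorial : ℂ) ≠ 0 := by exact_mod_cast k.factorial_ne_zero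
  simp only [smul_eq_mul] at h5
  apply mul_left_cancel₀ h6
  rw [← h5]
  ring

end tangent

/-- holomorphic charts of the surface `W` -/
structure WChart where
  /-- domain -/
  D : Set (ℂ × ℂ)
  /-- first component -/
  τ : ℂ × ℂ → ℂ
  /-- homogeneous coordinates -/
  ν : ℂ × ℂ → Fin 3 → ℂ
  /-- the chart -/
  g : C(D, WW)
  isOpen_D : IsOpen D
  dτ : ContDiffOn ℂ 1 τ D
  dν : ContDiffOn ℂ 1 ν D
  ν_ne : ∀ q, ν q ≠ 0
  g_val : ∀ q : D, (g q).1 = (τ q, Projectivization.mk ℂ (ν q) (ν_ne q))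
  emb : Topology.IsOpenEmbedding g
  imm : ∀ q ∈ D, ∀ h : ℂ × ℂ, fderiv ℂ τ q h = 0 → (∃ c : ℂ, fderiv ℂ ν q h = c • ν q) → h = 0

/-- local frames near a point -/
structure LFrame (z0 : ℂ) where
  /-- radius -/
  r : ℝ
  /-- frames -/
  u : Fin 6 → ℂ → Fin 3 → ℂ
  r_pos : 0 < r
  r_le : r ≤ 1 / 12
  diff : ∀ j, DifferentiableOn ℂ (u j) (Metric.ball z0 r)
  eq : ∀ z ∈ Metric.ball z0 r, ∀ j : Fin 6, ∃ c : ℂ, c ≠ 0 ∧ u j z = c • elU (z + ((j : ℕ) : ℂ) / 6)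
  der : ∀ j, ∀ z ∈ Metric.ball z0 r, ∀ c : ℂ, deriv (u j) z ≠ c • u j z

theorem exists_LFrame (z0 : ℂ) : Nonempty (LFrame z0) := by
  obtain ⟨r, h1, h2, u, h3, h4, h5⟩ := exists_frames z0
  exact ⟨⟨r, u, h1, h2, h3, fun z hz j => h4 j z hz, h5⟩⟩

/-- coordinates -/
def pr2 (v : Fin 3 → ℂ) : ℂ × ℂ := (v 1, v 2)

/-- coordinates as a homeomorphism -/
def e3 : (Fin 3 → ℂ) ≃ₜ ℂ × (ℂ × ℂ) where
  toFun v := (v 0, pr2 v)
  invFun p := ![p.1, p.2.1, p.2.2]
  left_inv v := by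
    funext i
    fin_cases i <;> rfl
  right_inv p := rfl
  continuous_toFun := by
    unfold pr2
    fun_prop
  continuous_invFun := by
    apply continuous_pi
    intro i
    fin_cases i
    · exact continuous_fst
    · exact continuous_fst.comp continuous_snd
    · exact continuous_snd.comp continuous_snd

section param

variable (Ch : WChart) {z0 : ℂ} (fr : LFrame z0)

/-- domain of the parametrisation -/
def pV : Set (Fin 3 → ℂ) := {v | v 0 ∈ Metric.ball z0 fr.r ∧ pr2 v ∈ Ch.D}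

/-- the parametrisation -/
noncomputable def pφ (v : Fin 3 → ℂ) : K6 → ℂ := PhL fr.u (v 0) (Ch.ν (pr2 v))

/-- first component -/
noncomputable def pa (v : Fin 3 → ℂ) : ℂ := Ch.τ (pr2 v)

variable {Ch fr}

theorem pφ_eq {v : Fin 3 → ℂ} (hv : v ∈ pV Ch fr) :
    ∃ c : ℂ, c ≠ 0 ∧ pφ Ch fr v = c • Ph (v 0) (Ch.ν (pr2 v)) := by
  obtain ⟨c, hc, h⟩ := PhL_eq (Ch.ν (pr2 v)) (fr.eq (v 0) hv.1)
  exact ⟨c, hc, h _⟩

theorem pφ_ne {v : Fin 3 → ℂ} (hv : v ∈ pV Ch fr) : pφ Ch fr v ≠ 0 := by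
  obtain ⟨c, hc, h⟩ := pφ_eq hv
  rw [h]
  exact smul_ne_zero hc (Ph_ne _ (Ch.ν_ne _))

/-- the lift of the parametrisation -/
noncomputable def pm (v : pV Ch fr) : ℂ × WW := (v.1 0, Ch.g ⟨pr2 v.1, v.2.2⟩)

theorem pm_pt (v : pV Ch fr) : (pX (pm v)).1 =
    (pa Ch v.1, Projectivization.mk ℂ (pφ Ch fr v.1) (pφ_ne v.2)) := by
  have h1 := Ch.g_val ⟨pr2 v.1, v.2.2⟩
  have h2 : (pX (pm v)).1 = ((Ch.g ⟨pr2 v.1, v.2.2⟩).1.1, ph (v.1 0) (Ch.g ⟨pr2 v.1, v.2.2⟩).1.2) :=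
    pX_val _
  rw [h2, h1]
  apply Prod.ext
  · rfl
  · show ph (v.1 0) (Projectivization.mk ℂ (Ch.ν (pr2 v.1)) _) = _
    rw [ph_mk]
    obtain ⟨c, hc, h⟩ := pφ_eq v.2
    exact (mk_eq_of_smul _ _ c h).symm

theorem isOpen_pV : IsOpen (pV Ch fr) := by
  have h : pV Ch fr = e3 ⁻¹' (Metric.ball z0 fr.r ×ˢ Ch.D) := rfl
  rw [h]
  exact (Metric.isOpen_ball.prod Ch.isOpen_D).preimage e3.continuous

theorem emb_pm : Topology.IsOpenEmbedding (pm (Ch := Ch) (fr := fr)) := by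
  have h1 : Topology.IsOpenEmbedding (fun v : pV Ch fr => ((v.1 0, ⟨pr2 v.1, v.2.2⟩) : ℂ × Ch.D)) := by
    have h2 : Topology.IsOpenEmbedding (Prod.map (id : ℂ → ℂ) (Subtype.val : Ch.D → ℂ × ℂ)) :=
      Topology.IsOpenEmbedding.id.prodMap Ch.isOpen_D.isOpenEmbedding_subtypeVal
    have h3 : Topology.IsOpenEmbedding (fun v : pV Ch fr => e3 v.1) :=
      e3.isOpenEmbedding.comp isOpen_pV.isOpenEmbedding_subtypeVal
    exact Topology.IsOpenEmbedding.of_comp _ h2 h3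
  have h4 : Topology.IsOpenEmbedding (Prod.map (id : ℂ → ℂ) Ch.g) :=
    Topology.IsOpenEmbedding.id.prodMap Ch.emb
  exact h4.comp h1

theorem inj_pX_pm : Function.Injective (fun v : pV Ch fr => pX (pm v)) := by
  intro v v' h
  obtain ⟨m, n, hmn⟩ := pX_eq h
  have hb : ∀ v : pV Ch fr, ‖(pm v).1 - z0‖ < 1 / 12 := by
    intro v
    have := v.2.1
    rw [Metric.mem_ball, dist_eq_norm] at this
    exact lt_of_lt_of_le this fr.r_le
  obtain ⟨rfl, rfl⟩ := disj_nhds (z0, (pm v).2) m n ⟨pm v, pm v', hb v, hb v', hmn.symm⟩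
  rw [aQ_zero] at hmn
  exact (emb_pm.injective hmn).symm

theorem emb_param : Topology.IsOpenEmbedding (fun v : pV Ch fr => pX (pm v)) := by
  apply Topology.IsOpenEmbedding.of_continuous_injective_isOpenMap
  · exact pX.continuous.comp emb_pm.continuous
  · exact inj_pX_pm
  · exact isOpenMap_pX.comp emb_pm.isOpenMap

theorem contDiff_pr2 : ContDiff ℂ 1 pr2 := by
  unfold pr2
  fun_prop

theorem contDiffOn_pa : ContDiffOn ℂ 1 (pa Ch) (pV Ch fr) :=
  Ch.dτ.comp contDiff_pr2.contDiffOn (fun v hv => hv.2)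

theorem contDiffOn_dg {A : Type*} [NormedAddCommGroup A] [NormedSpace ℂ A] (m : ℤ)
    {f : A → Fin 3 → ℂ} {s : Set A} (hf : ContDiffOn ℂ 1 f s) (i : Fin 3) :
    ContDiffOn ℂ 1 (fun a => dg m (f a) i) s := by
  have h := contDiffOn_pi.mp hf
  fin_cases i
  · exact contDiffOn_const.mul (h 0)
  · exact contDiffOn_const.mul (h 1)
  · exact h 2

theorem contDiffOn_pφ : ContDiffOn ℂ 1 (pφ Ch fr) (pV Ch fr) := by
  unfold pφ PhL sy
  apply contDiffOn_pi.mpr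
  intro i
  apply ContDiffOn.sum
  intro π _
  apply contDiffOn_prod
  intro j _
  apply ContDiffOn.mul
  · have h1 : ContDiffOn ℂ 1 (fr.u (π j)) (Metric.ball z0 fr.r) :=
      (fr.diff (π j)).contDiffOn Metric.isOpen_ball
    have h2 : ContDiffOn ℂ 1 (fun v : Fin 3 → ℂ => v 0) (pV Ch fr) :=
      (contDiff_apply ℂ ℂ (0 : Fin 3)).contDiffOn
    have h3 := h1.comp h2 (fun v hv => hv.1)
    exact contDiffOn_pi.mp h3 (i j).1
  · apply contDiffOn_dg
    exact Ch.dν.comp contDiff_pr2.contDiffOn (fun v hv => hv.2)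

end param

end Pool.Agent.R866.TF
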