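import Pool.Agent.R866.TF.Par

/-! Local parametrisations of the total space: immersivity. -/

set_option linter.all false

open scoped LinearAlgebra.Projectivization Topology

namespace Pool.Agent.R866.TF

open Pool.Agent.Helper922.HB

theorem tensor_tan {u v x y : Fin 3 → ℂ} (hu : u ≠ 0) (hv : v ≠ 0) {c : ℂ}
    (h : (fun a : Fin 3 × Fin 3 => x a.1 * v a.2 + u a.1 * y a.2) =
      c • (fun a : Fin 3 × Fin 3 => u a.1 * v a.2)) :
    (∃ a : ℂ, x = a • u) ∧ ∃ b : ℂ, y = b • v := by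
  have h2 : ∀ i j, x i * v j + u i * y j = c * (u i * v j) := fun i j => congrFun h (i, j)
  obtain ⟨i, hi⟩ := Function.ne_iff.mp hu
  obtain ⟨j, hj⟩ := Function.ne_iff.mp hv
  have hi' : u i ≠ 0 := hi
  have hj' : v j ≠ 0 := hj
  constructor
  · refine ⟨(c * v j - y j) / v j, ?_⟩
    funext k
    have := h2 k j
    simp only [Pi.smul_apply, smul_eq_mul]
    field_simp
    linear_combination this
  · refine ⟨(c * u i - x i) / u i, ?_⟩
    funext k
    have := h2 i k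
    simp only [Pi.smul_apply, smul_eq_mul]
    field_simp
    linear_combination this

theorem sep_six (z : ℂ) (l : Fin 6) (hl : l ≠ 0) (c : ℂ) :
    elU (z + ((l : ℕ) : ℂ) / 6) ≠ c • elU z := by
  intro h
  obtain ⟨m, n, hmn⟩ := elU_props.2.2.2.1 _ _ _ h
  have h1 : ((l : ℕ) : ℂ) / 6 = m + n * Complex.I := by linear_combination hmn
  have h2 := congrArg Complex.re h1
  have e1 : (((l : ℕ) : ℂ) / 6).re = ((l : ℕ) : ℝ) / 6 := by
    have : (((l : ℕ) : ℂ) / 6) = ((((l : ℕ) : ℝ) / 6 : ℝ) : ℂ) := by push_cast; ring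
    rw [this, Complex.ofReal_re]
  have e2 : ((m : ℂ) + n * Complex.I).re = (m : ℝ) := by simp
  rw [e1, e2] at h2
  have h3 : ((l : ℕ) : ℝ) = 6 * (m : ℝ) := by linarith
  have h4 : ((l : ℕ) : ℤ) = 6 * m := by exact_mod_cast h3
  have h5 := l.2
  have h6 : (l : ℕ) ≠ 0 := fun h => hl (Fin.ext h)
  omega

section param

variable {Ch : WChart} {z0 : ℂ} {fr : LFrame z0}

/-- linear version of `pr2` -/
noncomputable def pr2L : (Fin 3 → ℂ) →L[ℂ] ℂ × ℂ :=
  (ContinuousLinearMap.proj 1).prod (ContinuousLinearMap.proj 2)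

theorem pr2L_apply (v : Fin 3 → ℂ) : pr2L v = pr2 v := rfl

theorem fderiv_pa {v : Fin 3 → ℂ} (hv : v ∈ pV Ch fr) (h : Fin 3 → ℂ) :
    fderiv ℂ (pa Ch) v h = fderiv ℂ Ch.τ (pr2 v) (pr2 h) := by
  have h1 : DifferentiableAt ℂ Ch.τ (pr2 v) :=
    ((Ch.dτ.differentiableOn one_ne_zero).differentiableAt (Ch.isOpen_D.mem_nhds hv.2))
  have h2 : HasFDerivAt (fun v : Fin 3 → ℂ => Ch.τ (pr2L v)) ((fderiv ℂ Ch.τ (pr2 v)).comp pr2L) v :=
    HasFDerivAt.comp v (g := Ch.τ) (f := pr2L) h1.hasFDerivAt pr2L.hasFDerivAt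
  have h3 : (fun v : Fin 3 → ℂ => Ch.τ (pr2L v)) = pa Ch := rfl
  rw [h3] at h2
  rw [h2.fderiv]
  rfl

theorem immersion_param {v : Fin 3 → ℂ} (hv : v ∈ pV Ch fr) (h : Fin 3 → ℂ)
    (ha : fderiv ℂ (pa Ch) v h = 0) (hc : ∃ c : ℂ, fderiv ℂ (pφ Ch fr) v h = c • pφ Ch fr v) :
    h = 0 := by
  obtain ⟨c, hc⟩ := hc
  have hνd : DifferentiableAt ℂ Ch.ν (pr2 v) :=
    ((Ch.dν.differentiableOn one_ne_zero).differentiableAt (Ch.isOpen_D.mem_nhds hv.2))
  have hφd : DifferentiableAt ℂ (pφ Ch fr) v :=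
    (contDiffOn_pφ.differentiableOn one_ne_zero).differentiableAt (isOpen_pV.mem_nhds hv)
  let S : ℂ → Fin 6 → Fin 3 × Fin 3 → ℂ := fun s j a =>
    fr.u j (v 0 + s * h 0) a.1 * dg ((j : ℕ) : ℤ) (Ch.ν (pr2 v + s • pr2 h)) a.2
  let ν' : Fin 3 → ℂ := fderiv ℂ Ch.ν (pr2 v) (pr2 h)
  let D : Fin 6 → Fin 3 × Fin 3 → ℂ := fun j a =>
    (h 0 • deriv (fr.u j) (v 0)) a.1 * dg ((j : ℕ) : ℤ) (Ch.ν (pr2 v)) a.2 +
      fr.u j (v 0) a.1 * dg ((j : ℕ) : ℤ) ν' a.2
  have hu : ∀ j, HasDerivAt (fun s => fr.u j (v 0 + s * h 0)) (h 0 • deriv (fr.u j) (v 0)) 0 := by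
    intro j
    have h1 : HasDerivAt (fr.u j) (deriv (fr.u j) (v 0)) (v 0 + 0 * h 0) := by
      rw [zero_mul, add_zero]
      exact ((fr.diff j).differentiableAt (Metric.isOpen_ball.mem_nhds hv.1)).hasDerivAt
    have h2 : HasDerivAt (fun s : ℂ => v 0 + s * h 0) (h 0) 0 := by
      have := ((hasDerivAt_id (0 : ℂ)).mul_const (h 0)).const_add (v 0)
      simpa using this
    exact HasDerivAt.scomp (0 : ℂ) h1 h2
  have hν : HasDerivAt (fun s : ℂ => Ch.ν (pr2 v + s • pr2 h)) ν' 0 :=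
    hνd.hasFDerivAt.hasLineDerivAt (pr2 h)
  have hdg : ∀ (m : ℤ) (i : Fin 3), HasDerivAt (fun s : ℂ => dg m (Ch.ν (pr2 v + s • pr2 h)) i)
      (dg m ν' i) 0 := by
    intro m i
    have h1 := hasDerivAt_pi.mp hν
    fin_cases i
    · exact (h1 0).const_mul (w3 ^ m)
    · exact (h1 1).const_mul ((-1) ^ m)
    · exact h1 2
  have hS : ∀ j a, HasDerivAt (fun s => S s j a) (D j a) 0 := by
    intro j a
    have h1 := ((hasDerivAt_pi.mp (hu j)) a.1).mul (hdg ((j : ℕ) : ℤ) a.2)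
    simp only [zero_mul, add_zero, zero_smul] at h1
    exact h1
  have hF : ∀ i, HasDerivAt (fun s => sy (S s) i) (fderiv ℂ (pφ Ch fr) v h i) 0 := by
    intro i
    have h1 := hφd.hasFDerivAt.hasLineDerivAt h
    have h2 : HasDerivAt (fun s : ℂ => pφ Ch fr (v + s • h)) (fderiv ℂ (pφ Ch fr) v h) 0 := h1
    exact hasDerivAt_pi.mp h2 i
  have hS0 : sy (S 0) = pφ Ch fr v := by
    unfold pφ PhL
    congr 1
    funext j a
    simp only [S, zero_mul, add_zero, zero_smul]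
  have hS0j : ∀ j a, S 0 j a = fr.u j (v 0) a.1 * dg ((j : ℕ) : ℤ) (Ch.ν (pr2 v)) a.2 := by
    intro j a
    simp only [S, zero_mul, add_zero, zero_smul]
  have hune : ∀ j, fr.u j (v 0) ≠ 0 := by
    intro j
    obtain ⟨c, hc, h⟩ := fr.eq (v 0) hv.1 j
    rw [h]
    exact smul_ne_zero hc (elU_ne _)
  have hj : ∀ l, l ≠ (0 : Fin 6) → ∀ a : ℂ, S 0 l ≠ a • S 0 0 := by
    intro l hl a hla
    have h1 : (fun b : Fin 3 × Fin 3 => fr.u l (v 0) b.1 * dg ((l : ℕ) : ℤ) (Ch.ν (pr2 v)) b.2) =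
        a • (fun b : Fin 3 × Fin 3 => fr.u 0 (v 0) b.1 * dg (((0 : Fin 6) : ℕ) : ℤ) (Ch.ν (pr2 v)) b.2) := by
      funext b
      have := congrFun hla b
      rw [hS0j] at this
      rw [this]
      simp only [Pi.smul_apply]
      rw [hS0j]
    obtain ⟨⟨c1, h2⟩, _⟩ := tensor_prop (hune l) (dg_ne _ (Ch.ν_ne _)) h1
    obtain ⟨cl, hcl, h3⟩ := fr.eq (v 0) hv.1 l
    obtain ⟨c0, hc0, h4⟩ := fr.eq (v 0) hv.1 0
    have e0 : ((0 : Fin 6) : ℕ) = 0 := rfl
    rw [e0] at h4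
    simp only [Nat.cast_zero, zero_div, add_zero] at h4
    rw [h3, h4] at h2
    apply sep_six (v 0) l hl (cl⁻¹ * (c1 * c0))
    rw [mul_smul, mul_smul, ← h2, smul_smul, inv_mul_cancel₀ hcl, one_smul]
  obtain ⟨a, hD⟩ := tangent_key S D hS (fderiv ℂ (pφ Ch fr) v h) hF c (by rw [hS0]; exact hc) 0 hj
  have hD2 : (fun b : Fin 3 × Fin 3 => (h 0 • deriv (fr.u 0) (v 0)) b.1 * Ch.ν (pr2 v) b.2 +
      fr.u 0 (v 0) b.1 * ν' b.2) = a • (fun b : Fin 3 × Fin 3 => fr.u 0 (v 0) b.1 * Ch.ν (pr2 v) b.2) := by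
    funext b
    have h1 := congrFun hD b
    have h2 : D 0 b = (h 0 • deriv (fr.u 0) (v 0)) b.1 * Ch.ν (pr2 v) b.2 +
      fr.u 0 (v 0) b.1 * ν' b.2 := by
      show _ * dg 0 (Ch.ν (pr2 v)) b.2 + _ * dg 0 ν' b.2 = _
      rw [dg_zero, dg_zero]
    rw [← h2, h1]
    simp only [Pi.smul_apply]
    rw [hS0j]
    show a • (_ * dg 0 (Ch.ν (pr2 v)) b.2) = _
    rw [dg_zero]
  obtain ⟨⟨b1, h5⟩, ⟨b2, h6⟩⟩ := tensor_tan (hune 0) (Ch.ν_ne _) hD2
  have h0 : h 0 = 0 := by
    by_contra hne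
    apply fr.der 0 (v 0) hv.1 ((h 0)⁻¹ * b1)
    rw [mul_smul, ← h5, smul_smul, inv_mul_cancel₀ hne, one_smul]
  have h7 := Ch.imm (pr2 v) hv.2 (pr2 h) (by rw [← fderiv_pa hv]; exact ha) ⟨b2, h6⟩
  have h8 : h 1 = 0 := congrArg Prod.fst h7
  have h9 : h 2 = 0 := congrArg Prod.snd h7
  funext i
  fin_cases i
  · exact h0
  · exact h8
  · exact h9

end param

/-- the local parametrisation attached to a chart of `W` and a local frame -/
noncomputable def prm (Ch : WChart) {z0 : ℂ} (fr : LFrame z0) : LocalParam 3 XX where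
  V := pV Ch fr
  a := pa Ch
  φ := pφ Ch fr
  isOpen_V := isOpen_pV
  holo_a := (contDiffOn_pa (fr := fr)).differentiableOn one_ne_zero
  holo_φ := contDiffOn_pφ.differentiableOn one_ne_zero
  φ_ne := fun v hv => pφ_ne hv
  mem := fun v hv => by
    have h := pm_pt (⟨v, hv⟩ : pV Ch fr)
    rw [← h]
    exact (pX (pm ⟨v, hv⟩)).2
  openEmbedding := by
    have h : (fun v : pV Ch fr => (⟨(pa Ch v.1, Projectivization.mk ℂ (pφ Ch fr v.1) (pφ_ne v.2)), by
        rw [← pm_pt v]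
        exact (pX (pm v)).2⟩ : XX)) = fun v : pV Ch fr => pX (pm v) := by
      funext v
      apply Subtype.ext
      exact (pm_pt v).symm
    rw [h]
    exact emb_param
  immersion := fun v hv h ha hc => immersion_param hv h ha hc

/-! ### the charts of `W` -/

/-- the affine homeomorphism -/
noncomputable def eA : ℂ × ℂ ≃ₜ WA where
  toFun q := ⟨gA q, gA_mem q⟩
  invFun := fA
  left_inv q := fA_gA q
  right_inv w := Subtype.ext (gA_fA w)
  continuous_toFun := by fun_prop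
  continuous_invFun := fA.continuous

/-- the homeomorphism at infinity -/
noncomputable def eI : N0 ≃ₜ WN where
  toFun q := ⟨gI q, gI_mem q⟩
  invFun w := ⟨(xi w.1, w.1.1.1), xi_mem w.2⟩
  left_inv q := Subtype.ext (Prod.ext (xi_gI q) rfl)
  right_inv w := Subtype.ext (gI_xi w.2)
  continuous_toFun := by fun_prop
  continuous_invFun := by
    apply Continuous.subtype_mk
    apply Continuous.prodMk
    · exact continuous_xi continuous_subtype_val (fun w => w.2)
    · fun_prop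

theorem fderiv_comp_i {f : ℂ × ℂ → Fin 3 → ℂ} {q : ℂ × ℂ} (hf : DifferentiableAt ℂ f q) (i : Fin 3)
    (h : ℂ × ℂ) : fderiv ℂ f q h i = fderiv ℂ (fun q => f q i) q h := by
  have := (hasFDerivAt_pi'.mp hf.hasFDerivAt i).fderiv
  rw [this]
  rfl

theorem contDiff_va : ContDiff ℂ 1 va := by
  unfold va
  rw [contDiff_pi]
  intro i
  fin_cases i
  · exact contDiff_fst
  · exact contDiff_snd
  · exact contDiff_const

/-- the affine chart -/
noncomputable def chA : WChart where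
  D := Set.univ
  τ := fun q => q.2 ^ 2 - q.1 ^ 3
  ν := va
  g := gA.comp ⟨Subtype.val, continuous_subtype_val⟩
  isOpen_D := isOpen_univ
  dτ := by fun_prop
  dν := contDiff_va.contDiffOn
  ν_ne := va_ne
  g_val := fun q => rfl
  emb := by
    have h1 : Topology.IsOpenEmbedding gA :=
      (isOpen_WA.isOpenEmbedding_subtypeVal).comp eA.isOpenEmbedding
    exact h1.comp isOpen_univ.isOpenEmbedding_subtypeVal
  imm := by
    rintro q _ h _ ⟨c, hc⟩
    have hd : DifferentiableAt ℂ va q := contDiff_va.differentiable one_ne_zero q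
    have h2 := congrFun hc 2
    have h0 := congrFun hc 0
    have h1 := congrFun hc 1
    rw [fderiv_comp_i hd] at h0 h1 h2
    have e2 : fderiv ℂ (fun q => va q 2) q h = 0 := by
      have : (fun q => va q 2) = fun _ => (1 : ℂ) := rfl
      rw [this, fderiv_const_apply]
      rfl
    have e0 : fderiv ℂ (fun q => va q 0) q h = h.1 := by
      have : (fun q => va q 0) = Prod.fst := rfl
      rw [this, fderiv_fst]
      rfl
    have e1 : fderiv ℂ (fun q => va q 1) q h = h.2 := by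
      have : (fun q => va q 1) = Prod.snd := rfl
      rw [this, fderiv_snd]
      rfl
    rw [e2] at h2
    rw [e0] at h0
    rw [e1] at h1
    have hc0 : c = 0 := by
      have : (0 : ℂ) = c * 1 := h2
      rw [this, mul_one]
    rw [hc0, zero_smul] at h0 h1
    exact Prod.ext h0 h1

theorem contDiffOn_rt3 : ContDiffOn ℂ 1 rt3 Complex.slitPlane := by
  apply DifferentiableOn.contDiffOn _ Complex.isOpen_slitPlane
  intro z hz
  have h : DifferentiableAt ℂ (fun w : ℂ => w ^ (((3 : ℕ) : ℂ)⁻¹)) z :=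
    DifferentiableAt.cpow differentiableAt_fun_id (differentiableAt_const _) hz
  exact h.differentiableWithinAt

theorem isOpen_N0 : IsOpen N0 := by
  unfold N0
  exact isOpen_lt (by fun_prop) continuous_const

theorem contDiffOn_vi : ContDiffOn ℂ 1 vi N0 := by
  unfold vi
  rw [contDiffOn_pi]
  intro i
  fin_cases i
  · show ContDiffOn ℂ 1 (fun q : ℂ × ℂ => q.1 * rt3 (1 - q.2 * q.1 ^ 6)) N0
    apply ContDiffOn.mul contDiff_fst.contDiffOn
    apply contDiffOn_rt3.comp (by fun_prop)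
    intro q hq
    exact slit_of_re (N0_re hq)
  · exact contDiff_const.contDiffOn
  · show ContDiffOn ℂ 1 (fun q : ℂ × ℂ => q.1 ^ 3) N0
    fun_prop

/-- the chart at infinity -/
noncomputable def chI : WChart where
  D := N0
  τ := Prod.snd
  ν := vi
  g := gI
  isOpen_D := isOpen_N0
  dτ := contDiff_snd.contDiffOn
  dν := contDiffOn_vi
  ν_ne := vi_ne
  g_val := fun q => rfl
  emb := (isOpen_WN.isOpenEmbedding_subtypeVal).comp eI.isOpenEmbedding
  imm := by
    rintro q hq h hτ ⟨c, hc⟩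
    have hd : DifferentiableAt ℂ vi q :=
      (contDiffOn_vi.differentiableOn one_ne_zero).differentiableAt (isOpen_N0.mem_nhds hq)
    have hh2 : h.2 = 0 := by
      rw [fderiv_snd] at hτ
      exact hτ
    have h2 := congrFun hc 2
    have h0 := congrFun hc 0
    have h1 := congrFun hc 1
    rw [fderiv_comp_i hd] at h0 h1 h2
    have e1 : fderiv ℂ (fun q => vi q 1) q h = 0 := by
      have : (fun q => vi q 1) = fun _ => (1 : ℂ) := rfl
      rw [this, fderiv_const_apply]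
      rfl
    rw [e1] at h1
    have hc0 : c = 0 := by
      have : (0 : ℂ) = c * 1 := h1
      rw [this, mul_one]
    rw [hc0, zero_smul] at h0 h2
    have hf : HasFDerivAt (fun q : ℂ × ℂ => q.1) (ContinuousLinearMap.fst ℂ ℂ ℂ) q := hasFDerivAt_fst
    by_cases hq1 : q.1 = 0
    · -- derivative of `ξ ∛(1 - t ξ⁶)` at `ξ = 0`
      have hr : DifferentiableAt ℂ (fun q : ℂ × ℂ => rt3 (1 - q.2 * q.1 ^ 6)) q := by
        have h3 : ContDiffOn ℂ 1 (fun q : ℂ × ℂ => rt3 (1 - q.2 * q.1 ^ 6)) N0 := by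
          apply contDiffOn_rt3.comp (by fun_prop)
          intro q hq
          exact slit_of_re (N0_re hq)
        exact (h3.differentiableOn one_ne_zero).differentiableAt (isOpen_N0.mem_nhds hq)
      have h4 := (hf.mul hr.hasFDerivAt).fderiv
      have h5 : (fun q => vi q 0) = fun q : ℂ × ℂ => q.1 * rt3 (1 - q.2 * q.1 ^ 6) := rfl
      have h6 : ((fun q : ℂ × ℂ => q.1) * fun q : ℂ × ℂ => rt3 (1 - q.2 * q.1 ^ 6)) =
        fun q : ℂ × ℂ => q.1 * rt3 (1 - q.2 * q.1 ^ 6) := rfl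
      rw [h5] at h0
      first
        | rw [h4] at h0
        | (rw [h6] at h4; rw [h4] at h0)
      have h7 : rt3 (1 - q.2 * q.1 ^ 6) = 1 := by
        rw [hq1]
        simp [rt3_one]
      have h8 : (q.1 • fderiv ℂ (fun q : ℂ × ℂ => rt3 (1 - q.2 * q.1 ^ 6)) q +
        rt3 (1 - q.2 * q.1 ^ 6) • ContinuousLinearMap.fst ℂ ℂ ℂ) h = h.1 := by
        rw [h7, hq1]
        simp
      rw [h8] at h0
      exact Prod.ext h0 hh2
    · have h4 := (hf.pow 3).fderiv
      have h5 : (fun q => vi q 2) = fun q : ℂ × ℂ => q.1 ^ 3 := rfl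
      rw [h5] at h2
      first
        | rw [h4] at h2
        | (have h6 : ((fun q : ℂ × ℂ => q.1) ^ 3) = fun q : ℂ × ℂ => q.1 ^ 3 := rfl
           rw [h6] at h4; rw [h4] at h2)
      have h7 : (3 : ℂ) * q.1 ^ 2 * h.1 = 0 := by
        simpa [mul_assoc] using h2
      have h8 : (3 : ℂ) * q.1 ^ 2 ≠ 0 := mul_ne_zero (by norm_num) (pow_ne_zero _ hq1)
      exact Prod.ext ((mul_eq_zero.mp h7).resolve_left h8) hh2

end Pool.Agent.R866.TF
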