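import Pool.Agent.Helper922.HB.Defs

/-! The topology of projective space. -/

set_option linter.all false

open scoped LinearAlgebra.Projectivization

namespace Pool.Agent.R866.TF

open Pool.Agent.Helper922.HB

universe u

variable {ι : Type u} [Fintype ι]

theorem mk_congr {v w : ι → ℂ} (hv : v ≠ 0) (hw : w ≠ 0) (h : v = w) :
    (Projectivization.mk ℂ v hv : ℙ ℂ (ι → ℂ)) = Projectivization.mk ℂ w hw := by
  subst h; rfl

theorem mk_eq_of_smul {v w : ι → ℂ} (hv : v ≠ 0) (hw : w ≠ 0) (a : ℂ) (h : v = a • w) :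
    (Projectivization.mk ℂ v hv : ℙ ℂ (ι → ℂ)) = Projectivization.mk ℂ w hw := by
  rw [Projectivization.mk_eq_mk_iff']
  exact ⟨a, h.symm⟩

theorem mk_eq_iff {v w : ι → ℂ} (hv : v ≠ 0) (hw : w ≠ 0) :
    (Projectivization.mk ℂ v hv : ℙ ℂ (ι → ℂ)) = Projectivization.mk ℂ w hw ↔
      ∃ a : ℂ, a ≠ 0 ∧ v = a • w := by
  rw [Projectivization.mk_eq_mk_iff']
  constructor
  · rintro ⟨a, ha⟩
    refine ⟨a, ?_, ha.symm⟩
    rintro rfl
    rw [zero_smul] at ha
    exact hv ha.symm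
  · rintro ⟨a, _, ha⟩
    exact ⟨a, ha.symm⟩

theorem rep_eq (v : ι → ℂ) (hv : v ≠ 0) :
    ∃ a : ℂ, a ≠ 0 ∧ (Projectivization.mk ℂ v hv : ℙ ℂ (ι → ℂ)).rep = a • v := by
  obtain ⟨a, ha⟩ := Projectivization.exists_smul_eq_mk_rep ℂ v hv
  exact ⟨a, a.ne_zero, ha.symm⟩

theorem continuous_mk :
    Continuous (fun z : {z : ι → ℂ // z ≠ 0} => (Projectivization.mk ℂ z.1 z.2 : ℙ ℂ (ι → ℂ))) := by
  have h : (fun z : {z : ι → ℂ // z ≠ 0} => (Projectivization.mk ℂ z.1 z.2 : ℙ ℂ (ι → ℂ)))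
      = Projectivization.mk' ℂ := by
    funext z
    exact (Projectivization.mk'_eq_mk ℂ z).symm
  rw [h]
  exact continuous_coinduced_rng

theorem isOpen_proj_iff (W : Set (ℙ ℂ (ι → ℂ))) :
    IsOpen W ↔ IsOpen {z : {z : ι → ℂ // z ≠ 0} | Projectivization.mk ℂ z.1 z.2 ∈ W} := by
  have h1 : IsOpen W ↔ IsOpen ((Projectivization.mk' ℂ : {v : ι → ℂ // v ≠ 0} → _) ⁻¹' W) :=
    isOpen_coinduced
  rw [h1]
  have h2 : ((Projectivization.mk' ℂ : {v : ι → ℂ // v ≠ 0} → _) ⁻¹' W)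
      = {z : {z : ι → ℂ // z ≠ 0} | Projectivization.mk ℂ z.1 z.2 ∈ W} := by
    ext z
    rw [Set.mem_preimage, Projectivization.mk'_eq_mk]
    rfl
  rw [h2]

theorem openQuot_mk : IsOpenQuotientMap
    (fun z : {z : ι → ℂ // z ≠ 0} => (Projectivization.mk ℂ z.1 z.2 : ℙ ℂ (ι → ℂ))) := by
  refine ⟨?_, continuous_mk, ?_⟩
  · intro p
    induction p with
    | h z hz => exact ⟨⟨z, hz⟩, rfl⟩
  · intro U hU
    rw [isOpen_proj_iff]
    have h1 : {z : {z : ι → ℂ // z ≠ 0} | Projectivization.mk ℂ z.1 z.2 ∈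
        (fun z : {z : ι → ℂ // z ≠ 0} => (Projectivization.mk ℂ z.1 z.2 : ℙ ℂ (ι → ℂ))) '' U}
        = ⋃ c : ℂˣ, (fun z : {z : ι → ℂ // z ≠ 0} =>
          (⟨(c : ℂ) • z.1, smul_ne_zero c.ne_zero z.2⟩ : {z : ι → ℂ // z ≠ 0})) ⁻¹' U := by
      ext z
      simp only [Set.mem_ofPred_eq, Set.mem_image, Set.mem_iUnion, Set.mem_preimage]
      constructor
      · rintro ⟨w, hw, he⟩
        rw [Projectivization.mk_eq_mk_iff'] at he
        obtain ⟨a, ha⟩ := he
        have ha0 : a ≠ 0 := by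
          rintro rfl
          rw [zero_smul] at ha
          exact w.2 ha.symm
        refine ⟨Units.mk0 a ha0, ?_⟩
        have : (⟨((Units.mk0 a ha0 : ℂˣ) : ℂ) • z.1, smul_ne_zero (Units.ne_zero _) z.2⟩ :
          {z : ι → ℂ // z ≠ 0}) = w := Subtype.ext ha
        rw [this]
        exact hw
      · rintro ⟨c, hc⟩
        refine ⟨_, hc, ?_⟩
        rw [Projectivization.mk_eq_mk_iff']
        exact ⟨(c : ℂ), rfl⟩
    rw [h1]
    apply isOpen_iUnion
    intro c
    apply hU.preimage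
    apply Continuous.subtype_mk
    fun_prop

instance t2Space_proj : T2Space (ℙ ℂ (ι → ℂ)) := by
  rw [t2Space_iff_of_isOpenQuotientMap openQuot_mk]
  have h2 : {q : {z : ι → ℂ // z ≠ 0} × {z : ι → ℂ // z ≠ 0} |
      Projectivization.mk ℂ q.1.1 q.1.2 = Projectivization.mk ℂ q.2.1 q.2.2}
      = ⋂ i, ⋂ j, {q | q.1.1 i * q.2.1 j = q.1.1 j * q.2.1 i} := by
    ext q
    simp only [Set.mem_ofPred_eq, Set.mem_iInter]
    rw [Projectivization.mk_eq_mk_iff']
    constructor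
    · rintro ⟨a, ha⟩ i j
      rw [← ha]
      simp only [Pi.smul_apply, smul_eq_mul]
      ring
    · intro h
      obtain ⟨k, hk⟩ : ∃ k, q.2.1 k ≠ 0 := by
        by_contra hcon
        push Not at hcon
        exact q.2.2 (funext hcon)
      refine ⟨q.1.1 k / q.2.1 k, ?_⟩
      funext i
      simp only [Pi.smul_apply, smul_eq_mul]
      have := h i k
      field_simp
      rw [← this]
      ring
  have h3 := isClosed_iInter (fun i : ι => isClosed_iInter (fun j : ι =>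
    isClosed_eq
      (f := fun q : {z : ι → ℂ // z ≠ 0} × {z : ι → ℂ // z ≠ 0} => q.1.1 i * q.2.1 j)
      (g := fun q => q.1.1 j * q.2.1 i)
      (((continuous_apply i).comp (continuous_subtype_val.comp continuous_fst)).mul
        ((continuous_apply j).comp (continuous_subtype_val.comp continuous_snd)))
      (((continuous_apply j).comp (continuous_subtype_val.comp continuous_fst)).mul
        ((continuous_apply i).comp (continuous_subtype_val.comp continuous_snd)))))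
  rw [← h2] at h3
  exact h3

instance compactSpace_proj : CompactSpace (ℙ ℂ (ι → ℂ)) := by
  constructor
  have h1 : IsCompact (Metric.sphere (0 : ι → ℂ) 1) := isCompact_sphere 0 1
  have hne : ∀ v ∈ Metric.sphere (0 : ι → ℂ) 1, v ≠ 0 := by
    intro v hv h
    rw [mem_sphere_zero_iff_norm, h, norm_zero] at hv
    exact zero_ne_one hv
  have h2 : Continuous (fun v : Metric.sphere (0 : ι → ℂ) 1 =>
      (Projectivization.mk ℂ v.1 (hne v.1 v.2) : ℙ ℂ (ι → ℂ))) :=
    continuous_mk.comp (continuous_subtype_val.subtype_mk (fun v => hne v.1 v.2))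
  have h3 := isCompact_iff_compactSpace.mp h1
  have h4 := isCompact_range h2
  have h5 : Set.range (fun v : Metric.sphere (0 : ι → ℂ) 1 =>
      (Projectivization.mk ℂ v.1 (hne v.1 v.2) : ℙ ℂ (ι → ℂ))) = Set.univ := by
    apply Set.eq_univ_of_forall
    intro p
    induction p with
    | h v hv =>
      have hn : ‖v‖ ≠ 0 := norm_ne_zero_iff.mpr hv
      refine ⟨⟨((‖v‖⁻¹ : ℝ) : ℂ) • v, ?_⟩, ?_⟩
      · rw [mem_sphere_zero_iff_norm, norm_smul]
        simp [hn]
      · exact mk_eq_of_smul _ _ _ rfl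
  rwa [h5] at h4

/-- continuity at a point of projective space, tested on vectors -/
theorem continuousAt_of_lift {A Z : Type*} [TopologicalSpace A] [TopologicalSpace Z]
    (F : A × ℙ ℂ (ι → ℂ) → Z) (a : A) (v : ι → ℂ) (hv : v ≠ 0)
    (h : ContinuousAt (fun q : A × {v : ι → ℂ // v ≠ 0} => F (q.1, Projectivization.mk ℂ q.2.1 q.2.2))
      (a, ⟨v, hv⟩)) : ContinuousAt F (a, Projectivization.mk ℂ v hv) := by
  have hq : IsOpenQuotientMap (Prod.map (id : A → A)
    (fun z : {z : ι → ℂ // z ≠ 0} => (Projectivization.mk ℂ z.1 z.2 : ℙ ℂ (ι → ℂ)))) :=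
    IsOpenQuotientMap.prodMap IsOpenQuotientMap.id openQuot_mk
  exact (hq.continuousAt_comp_iff (x := (a, (⟨v, hv⟩ : {v : ι → ℂ // v ≠ 0})))).mp h

end Pool.Agent.R866.TF
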