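import Mathlib

/-! Quotients of complexes of chains by free actions of `ℤ`. -/

set_option linter.all false

namespace Pool.Agent.R866.TF

open Finsupp

universe u v

/-- push forward of formal sums -/
noncomputable abbrev mp {S : Type u} {T : Type v} (f : S → T) : (S →₀ ℤ) →ₗ[ℤ] (T →₀ ℤ) :=
  Finsupp.lmapDomain ℤ ℤ f

theorem mp_single {S : Type u} {T : Type v} (f : S → T) (s : S) (a : ℤ) :
    mp f (single s a) = single (f s) a := by simp [mp]

/-- relative cycles -/
def RC {S : ℕ → Type u} (d : ∀ n, (S (n + 1) →₀ ℤ) →ₗ[ℤ] (S n →₀ ℤ)) (A : ∀ n, Set (S n)) :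
    ∀ n, (S n →₀ ℤ) → Prop
  | 0, _ => True
  | (n + 1), z => d n z ∈ supported ℤ ℤ (A n)

/-- relative boundaries -/
noncomputable def RB {S : ℕ → Type u} (d : ∀ n, (S (n + 1) →₀ ℤ) →ₗ[ℤ] (S n →₀ ℤ))
    (A : ∀ n, Set (S n)) (n : ℕ) : Submodule ℤ (S n →₀ ℤ) :=
  LinearMap.range (d n) ⊔ supported ℤ ℤ (A n)

theorem supp_map {S : Type u} {M : Type v} [AddCommGroup M] (s : Set S)
    (f : (S →₀ ℤ) →ₗ[ℤ] M) (N : Submodule ℤ M) (h : ∀ a ∈ s, f (single a 1) ∈ N)
    (z : S →₀ ℤ) (hz : z ∈ supported ℤ ℤ s) : f z ∈ N := by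
  classical
  rw [← Finsupp.sum_single z, Finsupp.sum, map_sum]
  apply Submodule.sum_mem
  intro a ha
  have h1 : single a (z a) = z a • single a (1 : ℤ) := by simp
  rw [h1, map_smul]
  exact N.smul_mem _ (h a ((Finsupp.mem_supported ℤ z).mp hz ha))

section Orbit

variable {S : Type u} {T : Type v} (p : S → T) (h : S ≃ S)

theorem sub_pow_mem (s : S) (k : ℤ) :
    single ((h ^ k) s) (1 : ℤ) - single s 1 ∈ LinearMap.range (LinearMap.id - mp h) := by
  have step : ∀ t : S, single (h t) (1 : ℤ) - single t 1 ∈ LinearMap.range (LinearMap.id - mp h) := by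
    intro t
    refine ⟨- single t 1, ?_⟩
    simp only [LinearMap.sub_apply, LinearMap.id_apply, map_neg, mp_single]
    abel
  induction k using Int.induction_on with
  | zero => simp
  | succ k ih =>
    have := Submodule.add_mem _ (step ((h ^ (k : ℤ)) s)) ih
    rw [sub_add_sub_cancel] at this
    have e : (h ^ ((k : ℤ) + 1)) s = h ((h ^ (k : ℤ)) s) := by
      rw [add_comm, zpow_add, zpow_one, Equiv.Perm.mul_apply]
    rwa [e]
  | pred k ih =>
    have e : (h ^ (-(k : ℤ))) s = h ((h ^ (-(k : ℤ) - 1)) s) := by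
      rw [← Equiv.Perm.mul_apply, ← zpow_one_add]
      congr 2
      ring
    have := Submodule.sub_mem _ ih (step ((h ^ (-(k : ℤ) - 1)) s))
    rw [← e] at this
    have e2 : single ((h ^ (-(k : ℤ))) s) (1 : ℤ) - single s 1 -
        (single ((h ^ (-(k : ℤ))) s) 1 - single ((h ^ (-(k : ℤ) - 1)) s) 1) =
        single ((h ^ (-(k : ℤ) - 1)) s) 1 - single s 1 := by abel
    rwa [e2] at this

/-- the kernel of the push forward to the orbit set -/
theorem mem_range_of_mp_eq_zero (hp : Function.Surjective p)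
    (hfib : ∀ s s', p s = p s' → ∃ k : ℤ, s' = (h ^ k) s) (z : S →₀ ℤ) (hz : mp p z = 0) :
    z ∈ LinearMap.range (LinearMap.id - mp h) := by
  let sec : T → S := Function.surjInv hp
  have hsec : ∀ t, p (sec t) = t := Function.surjInv_eq hp
  have key : ∀ z : S →₀ ℤ, z - mp sec (mp p z) ∈ LinearMap.range (LinearMap.id - mp h) := by
    intro z
    have := supp_map (Set.univ : Set S) (LinearMap.id - (mp sec).comp (mp p))
      (LinearMap.range (LinearMap.id - mp h)) (by
        intro s _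
        simp only [LinearMap.sub_apply, LinearMap.id_apply, LinearMap.comp_apply, mp_single]
        obtain ⟨k, hk⟩ := hfib (sec (p s)) s (hsec _)
        have := sub_pow_mem h (sec (p s)) k
        rw [← hk] at this
        exact this) z (by simp)
    exact this
  have := key z
  rwa [hz, map_zero, sub_zero] at this

theorem mp_apply_equiv (z : S →₀ ℤ) (s : S) : mp h z (h s) = z s := by
  simp only [mp, Finsupp.lmapDomain_apply]
  exact Finsupp.mapDomain_apply h.injective z s

/-- `1 - h` is injective modulo an invariant subset -/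
theorem mem_supported_of_sub (A : Set S) (hA : ∀ s, h s ∈ A ↔ s ∈ A)
    (hfree : ∀ s (k : ℤ), (h ^ k) s = s → k = 0) (z : S →₀ ℤ)
    (hz : z - mp h z ∈ supported ℤ ℤ A) : z ∈ supported ℤ ℤ A := by
  rw [Finsupp.mem_supported]
  intro s hs
  by_contra hsA
  have h1 : ∀ t, t ∉ A → z (h t) = z t := by
    intro t ht
    have hht : h t ∉ A := fun h' => ht ((hA t).mp h')
    have h2 : (z - mp h z) (h t) = 0 := by
      by_contra hne
      exact hht ((Finsupp.mem_supported ℤ _).mp hz (Finsupp.mem_support_iff.mpr hne))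
    rw [Finsupp.sub_apply, mp_apply_equiv] at h2
    exact sub_eq_zero.mp h2
  have h3 : ∀ k : ℕ, (h ^ (k : ℤ)) s ∉ A ∧ z ((h ^ (k : ℤ)) s) = z s := by
    intro k
    induction k with
    | zero => simpa using hsA
    | succ k ih =>
      have e : (h ^ ((k + 1 : ℕ) : ℤ)) s = h ((h ^ (k : ℤ)) s) := by
        push_cast
        rw [add_comm, zpow_add, zpow_one, Equiv.Perm.mul_apply]
      rw [e]
      exact ⟨fun h' => ih.1 ((hA _).mp h'), (h1 _ ih.1).trans ih.2⟩
  have hne : z s ≠ 0 := Finsupp.mem_support_iff.mp hs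
  have hinj : Function.Injective (fun k : ℕ => (⟨(h ^ (k : ℤ)) s, Finsupp.mem_support_iff.mpr
      (by rw [(h3 k).2]; exact hne)⟩ : z.support)) := by
    intro k l hkl
    have h4 : (h ^ (k : ℤ)) s = (h ^ (l : ℤ)) s := congrArg Subtype.val hkl
    have h5 : (h ^ ((k : ℤ) - l)) s = s := by
      rw [sub_eq_neg_add, zpow_add, Equiv.Perm.mul_apply, h4, ← Equiv.Perm.mul_apply, ← zpow_add]
      simp
    have := hfree s _ h5
    omega
  exact not_injective_infinite_finite _ hinj

end Orbit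

section QL

variable {S : ℕ → Type u} {T : ℕ → Type v}
  (dS : ∀ n, (S (n + 1) →₀ ℤ) →ₗ[ℤ] (S n →₀ ℤ)) (dT : ∀ n, (T (n + 1) →₀ ℤ) →ₗ[ℤ] (T n →₀ ℤ))
  (p : ∀ n, S n → T n) (h : ∀ n, S n ≃ S n) (B : ∀ n, Set (T n))

/-- The quotient lemma: `p : S → T` is the quotient by the free `ℤ`-action generated by `h`, and
`1 - h` is bijective on the relative homology of `(S, p⁻¹ B)`; then `(T, B)` is acyclic. -/
theorem quotient_acyclic (hp : ∀ n, Function.Surjective (p n))
    (hd : ∀ n z, dT n (mp (p (n + 1)) z) = mp (p n) (dS n z))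
    (hph : ∀ n s, p n (h n s) = p n s)
    (hdh : ∀ n z, dS n (mp (h (n + 1)) z) = mp (h n) (dS n z))
    (hfib : ∀ n s s', p n s = p n s' → ∃ k : ℤ, s' = (h n ^ k) s)
    (hfree : ∀ n s (k : ℤ), (h n ^ k) s = s → k = 0)
    (hA : ∀ n z, z ∈ supported ℤ ℤ (p (n + 1) ⁻¹' B (n + 1)) →
      dS n z ∈ supported ℤ ℤ (p n ⁻¹' B n))
    (hdd : ∀ n z, dS n (dS (n + 1) z) = 0)
    (inj : ∀ n x, RC dS (fun n => p n ⁻¹' B n) n x →
      x - mp (h n) x ∈ RB dS (fun n => p n ⁻¹' B n) n → x ∈ RB dS (fun n => p n ⁻¹' B n) n)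
    (surj : ∀ n x, RC dS (fun n => p n ⁻¹' B n) n x → ∃ x', RC dS (fun n => p n ⁻¹' B n) n x' ∧
      x - (x' - mp (h n) x') ∈ RB dS (fun n => p n ⁻¹' B n) n)
    (n : ℕ) (y : T n →₀ ℤ) (hy : RC dT B n y) : y ∈ RB dT B n := by
  have hph' : ∀ n z, mp (p n) (mp (h n) z) = mp (p n) z := by
    intro n z
    simp only [mp, Finsupp.lmapDomain_apply, ← Finsupp.mapDomain_comp]
    congr 1
    funext s
    exact hph n s
  have hpsurj : ∀ n, ∀ y : T n →₀ ℤ, ∃ z, mp (p n) z = y := by
    intro n y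
    exact Finsupp.mapDomain_surjective (hp n) y
  have hpA : ∀ n z, z ∈ supported ℤ ℤ (p n ⁻¹' B n) → mp (p n) z ∈ supported ℤ ℤ (B n) := by
    intro n z hz
    refine supp_map _ (mp (p n)) _ ?_ z hz
    intro a ha
    rw [mp_single]
    exact Finsupp.single_mem_supported ℤ _ ha
  have hpB : ∀ n, ∀ y ∈ supported ℤ ℤ (B n), ∃ z ∈ supported ℤ ℤ (p n ⁻¹' B n),
      mp (p n) z = y := by
    intro n y hy
    refine ⟨mp (Function.surjInv (hp n)) y, ?_, ?_⟩
    · refine supp_map _ (mp (Function.surjInv (hp n))) _ ?_ y hy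
      intro a ha
      rw [mp_single]
      refine Finsupp.single_mem_supported ℤ _ ?_
      show p n _ ∈ B n
      rw [Function.surjInv_eq (hp n)]
      exact ha
    · simp only [mp, Finsupp.lmapDomain_apply, ← Finsupp.mapDomain_comp]
      have : p n ∘ Function.surjInv (hp n) = id := by
        funext t
        exact Function.surjInv_eq (hp n) t
      rw [this, Finsupp.mapDomain_id]
  have hinvA : ∀ n s, h n s ∈ p n ⁻¹' B n ↔ s ∈ p n ⁻¹' B n := by
    intro n s
    simp only [Set.mem_preimage, hph]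
  have hhA : ∀ n z, z ∈ supported ℤ ℤ (p n ⁻¹' B n) →
      z - mp (h n) z ∈ supported ℤ ℤ (p n ⁻¹' B n) := by
    intro n z hz
    apply Submodule.sub_mem _ hz
    refine supp_map _ (mp (h n)) _ ?_ z hz
    intro a ha
    rw [mp_single]
    exact Finsupp.single_mem_supported ℤ _ ((hinvA n a).mpr ha)
  -- the conclusion for relative cycles which lift to relative cycles
  have fin : ∀ n, ∀ c : S n →₀ ℤ, RC dS (fun n => p n ⁻¹' B n) n c → mp (p n) c ∈ RB dT B n := by
    intro n c hc
    obtain ⟨x', _, hx'⟩ := surj n c hc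
    obtain ⟨_, ⟨f, rfl⟩, g, hg, he⟩ := Submodule.mem_sup.mp hx'
    have e1 : mp (p n) c = dT n (mp (p (n + 1)) f) + mp (p n) g := by
      have := congrArg (mp (p n)) he
      rw [map_add, map_sub, map_sub, hph', sub_self, sub_zero] at this
      rw [hd, ← this]
    rw [e1]
    exact Submodule.add_mem_sup ⟨_, rfl⟩ (hpA n g hg)
  obtain ⟨c, rfl⟩ := hpsurj n y
  cases n with
  | zero => exact fin 0 c trivial
  | succ n =>
    have hy' : dT n (mp (p (n + 1)) c) ∈ supported ℤ ℤ (B n) := hy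
    obtain ⟨e, he, hee⟩ := hpB n _ hy'
    have h1 : mp (p n) (dS n c - e) = 0 := by
      rw [map_sub, hee, hd, sub_self]
    obtain ⟨d, hd1⟩ := mem_range_of_mp_eq_zero (p n) (h n) (hp n) (hfib n) _ h1
    simp only [LinearMap.sub_apply, LinearMap.id_apply] at hd1
    -- `d` is a relative cycle
    have hd2 : RC dS (fun n => p n ⁻¹' B n) n d := by
      cases n with
      | zero => trivial
      | succ n =>
        show dS n d ∈ _
        apply mem_supported_of_sub (h n) _ (hinvA n) (hfree n)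
        have h2 : dS n d - mp (h n) (dS n d) = - dS n e := by
          rw [← hdh, ← map_sub, hd1, map_sub, hdd, zero_sub]
        rw [h2]
        exact Submodule.neg_mem _ (hA n e he)
    have hd3 : d - mp (h n) d ∈ RB dS (fun n => p n ⁻¹' B n) n := by
      rw [hd1]
      exact Submodule.sub_mem _ (Submodule.mem_sup_left ⟨c, rfl⟩) (Submodule.mem_sup_right he)
    obtain ⟨_, ⟨f, rfl⟩, g, hg, hfg⟩ := Submodule.mem_sup.mp (inj n d hd2 hd3)
    have hc' : RC dS (fun n => p n ⁻¹' B n) (n + 1) (c - (f - mp (h (n + 1)) f)) := by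
      show dS n _ ∈ _
      have h2 : dS n (c - (f - mp (h (n + 1)) f)) = e + (g - mp (h n) g) := by
        rw [map_sub, map_sub, hdh]
        have h3 : dS n c = e + (d - mp (h n) d) := by rw [hd1]; abel
        rw [h3, ← hfg, map_add]
        abel
      rw [h2]
      exact Submodule.add_mem _ he (hhA n g hg)
    have := fin (n + 1) _ hc'
    rwa [map_sub, map_sub, hph', sub_self, sub_zero] at this

end QL

end Pool.Agent.R866.TF
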