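import Pool.Agent.Helper922.HB.MV
import Pool.Agent.R866.TF.QL

/-! Relative singular chains. -/

set_option linter.all false

namespace Pool.Agent.R866.TF

open Finsupp Pool.Agent.Helper922.HB

universe u v w

variable {X : Type u} [TopologicalSpace X] {Y : Type v} [TopologicalSpace Y]

/-- simplices in a subset -/
def ss (O : Set X) (n : ℕ) : Set (Sing X n) := {σ | Set.range σ ⊆ O}

/-- chains supported in a subset -/
noncomputable abbrev sp (O : Set X) (n : ℕ) : Submodule ℤ (Sing X n →₀ ℤ) :=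
  Finsupp.supported ℤ ℤ (ss O n)

/-- relative cycles -/
def RCy (P : Set X) (n : ℕ) (z : Sing X n →₀ ℤ) : Prop := RC (bdry X) (ss P) n z

/-- relative boundaries -/
noncomputable def RBd (P : Set X) (n : ℕ) : Submodule ℤ (Sing X n →₀ ℤ) := RB (bdry X) (ss P) n

/-- relative acyclicity -/
def RAc (P : Set X) : Prop := ∀ n z, RCy P n z → z ∈ RBd P n

theorem single_mem_sp {O : Set X} {m : ℕ} {σ : Sing X m} (h : Set.range σ ⊆ O) :
    single σ (1 : ℤ) ∈ sp O m := Finsupp.single_mem_supported ℤ _ h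

theorem mem_sp_univ {m : ℕ} (z : Sing X m →₀ ℤ) : z ∈ sp (Set.univ : Set X) m := by
  rw [sp, Finsupp.mem_supported]
  intro σ _
  exact Set.subset_univ _

theorem sp_mono {O O' : Set X} (h : O ⊆ O') (m : ℕ) : sp O m ≤ sp O' m :=
  Finsupp.supported_mono fun _ hσ => Set.Subset.trans hσ h

theorem sp_inter {O₁ O₂ : Set X} {m : ℕ} {z : Sing X m →₀ ℤ} (h1 : z ∈ sp O₁ m)
    (h2 : z ∈ sp O₂ m) : z ∈ sp (O₁ ∩ O₂) m := by
  unfold sp at *
  rw [Finsupp.mem_supported] at *
  intro σ hσ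
  exact Set.subset_inter (h1 hσ) (h2 hσ)

theorem bdry_single (n : ℕ) (σ : Sing X (n + 1)) : bdry X n (single σ 1) =
    ∑ i : Fin (n + 2), ((-1 : ℤ) ^ (i : ℕ)) • single (sface n i σ) (1 : ℤ) := by
  simp [bdry, LinearMap.sum_apply]

theorem range_sface (n : ℕ) (i : Fin (n + 2)) (σ : Sing X (n + 1)) :
    Set.range (sface n i σ) ⊆ Set.range σ := by
  rintro _ ⟨x, rfl⟩
  exact ⟨_, rfl⟩

theorem bdry_mem_sp {O : Set X} {m : ℕ} {z : Sing X (m + 1) →₀ ℤ} (hz : z ∈ sp O (m + 1)) :
    bdry X m z ∈ sp O m := by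
  refine supp_map _ (bdry X m) _ ?_ z hz
  intro σ hσ
  rw [bdry_single]
  apply Submodule.sum_mem
  intro i _
  apply Submodule.smul_mem
  apply single_mem_sp
  exact (range_sface m i σ).trans hσ

theorem push_mem_sp (f : C(X, Y)) {O : Set X} {O' : Set Y} (h : Set.MapsTo f O O') {m : ℕ}
    {z : Sing X m →₀ ℤ} (hz : z ∈ sp O m) : push f m z ∈ sp O' m := by
  refine supp_map _ (push f m) _ ?_ z hz
  intro σ hσ
  rw [push_single]
  apply single_mem_sp
  rintro _ ⟨t, rfl⟩
  exact h (hσ ⟨t, rfl⟩)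

theorem push_sub_mem_sp (O : Set X) {m : ℕ} (z : Sing O m →₀ ℤ) : push (sub O) m z ∈ sp O m :=
  mvx_support O m z

theorem exists_lift {O : Set X} {m : ℕ} {z : Sing X m →₀ ℤ} (hz : z ∈ sp O m) :
    ∃ z' : Sing O m →₀ ℤ, push (sub O) m z' = z := mvx_lift O m z hz

theorem mem_RBd_of_bdry {P : Set X} {n : ℕ} (w : Sing X (n + 1) →₀ ℤ) : bdry X n w ∈ RBd P n :=
  Submodule.mem_sup_left ⟨w, rfl⟩

theorem mem_RBd_of_sp {P : Set X} {n : ℕ} {w : Sing X n →₀ ℤ} (h : w ∈ sp P n) : w ∈ RBd P n :=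
  Submodule.mem_sup_right h

theorem mem_RBd_iff {P : Set X} {n : ℕ} {z : Sing X n →₀ ℤ} :
    z ∈ RBd P n ↔ ∃ f : Sing X (n + 1) →₀ ℤ, ∃ g ∈ sp P n, z = bdry X n f + g := by
  constructor
  · intro h
    obtain ⟨_, ⟨f, rfl⟩, g, hg, he⟩ := Submodule.mem_sup.mp h
    exact ⟨f, g, hg, he.symm⟩
  · rintro ⟨f, g, hg, rfl⟩
    exact Submodule.add_mem _ (mem_RBd_of_bdry f) (mem_RBd_of_sp hg)

theorem RCy.push (f : C(X, Y)) {P : Set X} {Q : Set Y} (h : Set.MapsTo f P Q) {n : ℕ}
    {z : Sing X n →₀ ℤ} (hz : RCy P n z) : RCy Q n (push f n z) := by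
  cases n with
  | zero => trivial
  | succ n =>
    show bdry Y n _ ∈ _
    rw [bdry_push]
    exact push_mem_sp f h hz

theorem push_mem_RBd (f : C(X, Y)) {P : Set X} {Q : Set Y} (h : Set.MapsTo f P Q) {n : ℕ}
    {z : Sing X n →₀ ℤ} (hz : z ∈ RBd P n) : push f n z ∈ RBd Q n := by
  obtain ⟨w, g, hg, rfl⟩ := mem_RBd_iff.mp hz
  rw [map_add, ← bdry_push]
  exact Submodule.add_mem _ (mem_RBd_of_bdry _) (mem_RBd_of_sp (push_mem_sp f h hg))

theorem RCy.add {P : Set X} {n : ℕ} {z z' : Sing X n →₀ ℤ} (hz : RCy P n z) (hz' : RCy P n z') :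
    RCy P n (z + z') := by
  cases n with
  | zero => trivial
  | succ n =>
    show bdry X n _ ∈ _
    rw [map_add]
    exact Submodule.add_mem _ hz hz'

theorem RCy.sub {P : Set X} {n : ℕ} {z z' : Sing X n →₀ ℤ} (hz : RCy P n z) (hz' : RCy P n z') :
    RCy P n (z - z') := by
  cases n with
  | zero => trivial
  | succ n =>
    show bdry X n _ ∈ _
    rw [map_sub]
    exact Submodule.sub_mem _ hz hz'

theorem PD_mem_sp (H : C(X × unitInterval, Y)) {P : Set X} {Q : Set Y}
    (h : ∀ x ∈ P, ∀ t, H (x, t) ∈ Q) {n : ℕ} {z : Sing X n →₀ ℤ} (hz : z ∈ sp P n) :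
    Sc.PD H n z ∈ sp Q (n + 1) := by
  refine supp_map _ (Sc.PD H n) _ ?_ z hz
  intro σ hσ
  rw [Sc.PD_single]
  refine supp_map Set.univ (Sc.ppush (Sc.GG H σ) (n + 1)) _ ?_ _ (by simp)
  intro a _
  rw [Sc.ppush_single]
  apply single_mem_sp
  rintro _ ⟨t, rfl⟩
  exact h _ (hσ ⟨_, rfl⟩) _

/-- relative homotopy invariance -/
theorem push_sub_mem_RBd (H : C(X × unitInterval, Y)) (f g : C(X, Y)) {P : Set X} {Q : Set Y}
    (h : ∀ x ∈ P, ∀ t, H (x, t) ∈ Q) (h0 : ∀ x, H (x, 0) = f x) (h1 : ∀ x, H (x, 1) = g x)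
    {n : ℕ} {z : Sing X n →₀ ℤ} (hz : RCy P n z) : push g n z - push f n z ∈ RBd Q n := by
  have e0 : Sc.slice H 0 = f := ContinuousMap.ext h0
  have e1 : Sc.slice H 1 = g := ContinuousMap.ext h1
  cases n with
  | zero =>
    have := Sc.sbd_PD_zero H z
    rw [e0, e1] at this
    have h2 : push g 0 z - push f 0 z = bdry Y 0 (Sc.PD H 0 z) := this.symm
    rw [h2]
    exact mem_RBd_of_bdry _
  | succ n =>
    have := Sc.sbd_PD H n z
    rw [e0, e1] at this
    have h2 : push g (n + 1) z - push f (n + 1) z =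
      bdry Y (n + 1) (Sc.PD H (n + 1) z) + Sc.PD H n (bdry X n z) := this.symm
    rw [h2]
    exact Submodule.add_mem _ (mem_RBd_of_bdry _) (mem_RBd_of_sp (PD_mem_sp H h hz))

theorem push_mem_sp_of_maps (f : C(X, Y)) {Q : Set Y} (h : ∀ x, f x ∈ Q) {m : ℕ}
    (z : Sing X m →₀ ℤ) : push f m z ∈ sp Q m :=
  push_mem_sp f (O := Set.univ) (fun x _ => h x) (mem_sp_univ z)

/-- a pair which deforms into the subspace is acyclic (two steps) -/
theorem RAc_of_two (H K : C(X × unitInterval, X)) {P : Set X}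
    (hH : ∀ x ∈ P, ∀ t, H (x, t) ∈ P) (hK : ∀ x ∈ P, ∀ t, K (x, t) ∈ P)
    (h0 : ∀ x, H (x, 0) = x) (h1 : ∀ x, H (x, 1) = K (x, 0)) (h2 : ∀ x, K (x, 1) ∈ P) : RAc P := by
  intro n z hz
  have a1 := push_sub_mem_RBd H (ContinuousMap.id X) (Sc.slice K 0) hH h0 h1 hz
  have a2 := push_sub_mem_RBd K (Sc.slice K 0) (Sc.slice K 1) hK (fun _ => rfl) (fun _ => rfl) hz
  have a3 : push (Sc.slice K 1) n z ∈ RBd P n :=
    mem_RBd_of_sp (push_mem_sp_of_maps (Sc.slice K 1) h2 z)
  rw [push_id] at a1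
  have := Submodule.sub_mem _ a3 (Submodule.add_mem _ a1 a2)
  have e : push (Sc.slice K 1) n z - (push (Sc.slice K 0) n z - z +
    (push (Sc.slice K 1) n z - push (Sc.slice K 0) n z)) = z := by abel
  rwa [e] at this

theorem RAc_of_one (H : C(X × unitInterval, X)) {P : Set X}
    (hH : ∀ x ∈ P, ∀ t, H (x, t) ∈ P)
    (h0 : ∀ x, H (x, 0) = x) (h1 : ∀ x, H (x, 1) ∈ P) : RAc P := by
  refine RAc_of_two H ⟨fun p => H (p.1, 1), by fun_prop⟩ hH (fun x hx t => hH x hx 1) h0
    (fun _ => rfl) h1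

/-- retracts of acyclic pairs -/
theorem RAc_of_retract (f : C(X, Y)) (g : C(Y, X)) {P : Set X} {Q : Set Y}
    (hf : Set.MapsTo f P Q) (hg : Set.MapsTo g Q P) (h : ∀ x, g (f x) = x) (hQ : RAc Q) :
    RAc P := by
  intro n z hz
  have h1 := push_mem_RBd g hg (hQ n _ (hz.push f hf))
  rw [push_push] at h1
  have : g.comp f = ContinuousMap.id X := ContinuousMap.ext h
  rwa [this, push_id] at h1

theorem mem_Cyc_of_push (f : C(X, Y)) (hf : Function.Injective f) {m : ℕ} {z : Sing X m →₀ ℤ}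
    (hz : push f m z ∈ Cyc Y m) : z ∈ Cyc X m := by
  cases m with
  | zero => exact Submodule.mem_top
  | succ m =>
    change bdry X m z = 0
    have h1 : bdry Y m (push f (m + 1) z) = 0 := hz
    rw [bdry_push] at h1
    have hinj : Function.Injective (push f m) := by
      intro a b h
      simp only [push, Finsupp.lmapDomain_apply] at h
      refine Finsupp.mapDomain_injective ?_ h
      intro σ τ hst
      ext t
      exact hf (DFunLike.congr_fun hst t)
    apply hinj
    rw [h1, map_zero]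

/-- acyclic pairs give homology equivalences -/
theorem RAc.HE {P : Set X} (h : RAc P) : HE (sub P) := by
  intro n
  constructor
  · intro z hz hb
    obtain ⟨w, hw⟩ := hb
    have h1 : RCy P (n + 1) w := by
      show bdry X n w ∈ _
      rw [hw]
      exact push_sub_mem_sp P z
    obtain ⟨f, g, hg, he⟩ := mem_RBd_iff.mp (h _ w h1)
    obtain ⟨g', rfl⟩ := exists_lift hg
    refine ⟨g', ?_⟩
    apply mvx_inj_sub P n
    rw [← bdry_push, ← hw, he, map_add, bdry_bdry, zero_add]
  · intro b hb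
    have h1 : RCy P n b := by
      cases n with
      | zero => trivial
      | succ n =>
        show bdry X n b ∈ _
        have : bdry X n b = 0 := hb
        rw [this]
        exact Submodule.zero_mem _
    obtain ⟨f, g, hg, he⟩ := mem_RBd_iff.mp (h _ b h1)
    obtain ⟨g', rfl⟩ := exists_lift hg
    refine ⟨g', ?_, ?_⟩
    · apply mem_Cyc_of_push (sub P) Subtype.val_injective
      have : push (sub P) n g' = b - bdry X n f := by rw [he]; abel
      rw [this]
      exact Submodule.sub_mem _ hb (Bdy_le_Cyc n ⟨f, rfl⟩)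
    · rw [he, add_sub_cancel_right]
      exact ⟨f, rfl⟩

/-- relative acyclicity of a subset, by supported chains -/
def RAcO (O P : Set X) : Prop := ∀ n, ∀ z ∈ sp O n, RCy P n z →
  ∃ f ∈ sp O (n + 1), ∃ g ∈ sp (O ∩ P) n, z = bdry X n f + g

theorem RAcO_of_RAc {O P : Set X} (h : RAc (Subtype.val ⁻¹' P : Set O)) : RAcO O P := by
  intro n z hz hc
  obtain ⟨z', rfl⟩ := exists_lift hz
  have h1 : RCy (Subtype.val ⁻¹' P : Set O) n z' := by
    cases n with
    | zero => trivial
    | succ n =>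
      show bdry O n z' ∈ _
      have hc' : bdry X n (push (sub O) (n + 1) z') ∈ sp P n := hc
      rw [bdry_push] at hc'
      have hc2 := sp_inter (push_sub_mem_sp O (bdry O n z')) hc'
      obtain ⟨w, hw⟩ := exists_lift hc2
      have e : bdry O n z' = push (inclusionMap (Set.inter_subset_left : O ∩ P ⊆ O)) n w := by
        apply mvx_inj_sub O n
        rw [push_push, ← hw]
        rfl
      rw [e]
      exact push_mem_sp_of_maps _ (fun x => x.2.2) w
  obtain ⟨f, g, hg, he⟩ := mem_RBd_iff.mp (h _ _ h1)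
  refine ⟨push (sub O) (n + 1) f, push_sub_mem_sp O f, push (sub O) n g, ?_, ?_⟩
  · refine push_mem_sp (sub O) (O := (Subtype.val ⁻¹' P : Set O)) ?_ hg
    intro x hx
    exact ⟨x.2, hx⟩
  · rw [he, map_add, bdry_push]

/-- the boundary of the empty-to-whole comparison: chains of the small simplices -/
theorem smallSet_singleton (P : Set X) (n : ℕ) : Sc.smallSet {P} n = ss P n := by
  ext σ
  constructor
  · rintro ⟨C, rfl, h⟩
    exact h
  · intro h
    exact ⟨P, rfl, h⟩

theorem DD_mem_sp (𝒞 : Set (Set X)) {P : Set X} {n : ℕ} {z : Sing X n →₀ ℤ} (hz : z ∈ sp P n) :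
    Sc.DD 𝒞 n z ∈ sp P (n + 1) := by
  refine supp_map _ (Sc.DD 𝒞 n) _ ?_ z hz
  intro σ hσ
  rw [Sc.DD_single]
  apply Submodule.sum_mem
  intro i _
  rw [sp, ← smallSet_singleton]
  apply Sc.TS_small
  apply Sc.Sd_iter_small
  rw [smallSet_singleton]
  exact single_mem_sp hσ

theorem small_split (U V P : Set X) {n : ℕ} {z : Sing X n →₀ ℤ}
    (hz : z ∈ Finsupp.supported ℤ ℤ (Sc.smallSet {U, V} n)) (hP : z ∈ sp P n) :
    ∃ u ∈ sp (U ∩ P) n, ∃ v ∈ sp (V ∩ P) n, z = u + v := by
  have h1 : z ∈ Finsupp.supported ℤ ℤ (Sc.smallSet {U, V} n ∩ ss P n) := by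
    rw [Finsupp.mem_supported] at hz hP ⊢
    exact Set.subset_inter hz hP
  have := supp_map _ LinearMap.id (sp (U ∩ P) n ⊔ sp (V ∩ P) n) (by
    rintro σ ⟨⟨C, hC, hσ⟩, hσP⟩
    rcases hC with rfl | hC
    · exact Submodule.mem_sup_left (single_mem_sp (Set.subset_inter hσ hσP))
    · rw [Set.mem_singleton_iff] at hC
      subst hC
      exact Submodule.mem_sup_right (single_mem_sp (Set.subset_inter hσ hσP))) z h1
  obtain ⟨u, hu, v, hv, h⟩ := Submodule.mem_sup.mp this
  exact ⟨u, hu, v, hv, h.symm⟩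

/-- excision: relative cycles can be moved off an acyclic open piece -/
theorem excise (U V P : Set X) (hU : IsOpen U) (hV : IsOpen V) (hUV : ∀ x, x ∈ U ∨ x ∈ V)
    (h1 : RAcO V P) (h2 : RAcO (U ∩ V) P) {n : ℕ} {c : Sing X n →₀ ℤ} (hc : RCy P n c) :
    ∃ u ∈ sp U n, RCy P n u ∧ c - u ∈ RBd P n := by
  cases n with
  | zero =>
    obtain ⟨u', v', rfl⟩ := mv_zero U V hUV c
    refine ⟨_, push_sub_mem_sp U u', trivial, ?_⟩
    rw [add_sub_cancel_left]
    obtain ⟨f, _, g, hg, he⟩ := h1 0 _ (push_sub_mem_sp V v') trivial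
    rw [he]
    exact Submodule.add_mem _ (mem_RBd_of_bdry _)
      (mem_RBd_of_sp (sp_mono Set.inter_subset_right _ hg))
  | succ n =>
    have hopen := mvx_open U V hU hV
    have hcov := mvx_cov U V hUV
    have hc' : bdry X n c ∈ sp P n := hc
    set e := Sc.rho {U, V} n (bdry X n c) with he
    have hes := Sc.rho_small {U, V} hopen hcov n (bdry X n c)
    rw [← he] at hes
    have heP : e ∈ sp P n := by
      rw [he]
      cases n with
      | zero => exact hc'
      | succ n =>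
        rw [Sc.rho_succ]
        have h3 : Sc.sbd X n (bdry X (n + 1) c) = 0 := bdry_bdry n c
        rw [h3, map_zero, sub_zero]
        exact Submodule.sub_mem _ hc' (bdry_mem_sp (DD_mem_sp _ hc'))
    obtain ⟨e1, he1, e2, he2, hee⟩ := small_split U V P hes heP
    obtain ⟨u', v', huv⟩ := mvx_small U V (n + 1) _ (Sc.rho_small {U, V} hopen hcov (n + 1) c)
    set u := push (sub U) (n + 1) u' with hu
    set v := push (sub V) (n + 1) v' with hv
    have hu1 : u ∈ sp U (n + 1) := push_sub_mem_sp U u'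
    have hv1 : v ∈ sp V (n + 1) := push_sub_mem_sp V v'
    have hb : bdry X n u + bdry X n v = e1 + e2 := by
      rw [← map_add, ← huv, ← hee, he]
      exact Sc.sbd_rho _ n c
    have hd : bdry X n u - e1 = e2 - bdry X n v := by
      rw [sub_eq_sub_iff_add_eq_add, hb]
      exact add_comm _ _
    have hd1 : bdry X n u - e1 ∈ sp (U ∩ V) n := by
      apply sp_inter
      · exact Submodule.sub_mem _ (bdry_mem_sp hu1) (sp_mono Set.inter_subset_left _ he1)
      · rw [hd]
        exact Submodule.sub_mem _ (sp_mono Set.inter_subset_left _ he2) (bdry_mem_sp hv1)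
    have hd2 : RCy P n (bdry X n u - e1) := by
      cases n with
      | zero => trivial
      | succ n =>
        show bdry X n _ ∈ _
        rw [map_sub, bdry_bdry, zero_sub]
        exact Submodule.neg_mem _ (bdry_mem_sp (sp_mono Set.inter_subset_right _ he1))
    obtain ⟨f, hf, g, hg, hfg⟩ := h2 n _ hd1 hd2
    have hgP : g ∈ sp P n := sp_mono Set.inter_subset_right _ hg
    have hv2 : RCy P (n + 1) (v + f) := by
      show bdry X n _ ∈ _
      have : bdry X n (v + f) = e2 - g := by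
        rw [map_add]
        have h3 : bdry X n f = bdry X n u - e1 - g := by rw [hfg]; abel
        rw [h3, hd]
        abel
      rw [this]
      exact Submodule.sub_mem _ (sp_mono Set.inter_subset_right _ he2) hgP
    have hv3 : v + f ∈ sp V (n + 1) :=
      Submodule.add_mem _ hv1 (sp_mono Set.inter_subset_right _ hf)
    obtain ⟨f', _, g', hg', he'⟩ := h1 (n + 1) _ hv3 hv2
    refine ⟨u - f, Submodule.sub_mem _ hu1 (sp_mono Set.inter_subset_left _ hf), ?_, ?_⟩
    · show bdry X n _ ∈ _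
      have : bdry X n (u - f) = e1 + g := by
        rw [map_sub]
        have h3 : bdry X n f = bdry X n u - e1 - g := by rw [hfg]; abel
        rw [h3]
        abel
      rw [this]
      exact Submodule.add_mem _ (sp_mono Set.inter_subset_right _ he1) hgP
    · have h4 : c - (u - f) = bdry X (n + 1) (Sc.DD {U, V} (n + 1) c) +
          Sc.DD {U, V} n (bdry X n c) + (bdry X (n + 1) f' + g') := by
        rw [← he']
        have h5 : Sc.rho {U, V} (n + 1) c = c - bdry X (n + 1) (Sc.DD {U, V} (n + 1) c) -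
          Sc.DD {U, V} n (bdry X n c) := Sc.rho_succ _ n c
        rw [h5] at huv
        have h6 : c = bdry X (n + 1) (Sc.DD {U, V} (n + 1) c) + Sc.DD {U, V} n (bdry X n c) +
          (u + v) := by
          rw [← huv]
          abel
        calc c - (u - f) = bdry X (n + 1) (Sc.DD {U, V} (n + 1) c) +
              Sc.DD {U, V} n (bdry X n c) + (u + v) - (u - f) := by rw [← h6]
          _ = _ := by abel
      rw [h4]
      refine Submodule.add_mem _ (Submodule.add_mem _ (mem_RBd_of_bdry _)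
        (mem_RBd_of_sp (DD_mem_sp _ hc'))) (Submodule.add_mem _ (mem_RBd_of_bdry _)
          (mem_RBd_of_sp (sp_mono Set.inter_subset_right _ hg')))

end Pool.Agent.R866.TF
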