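import Pool.Agent.R866.TF.Mil3
import Pool.Agent.R866.TF.Proj

/-! The family `Y² Z = X³ + t Z³` of plane cubics. -/

set_option linter.all false

open scoped LinearAlgebra.Projectivization

namespace Pool.Agent.R866.TF

open Pool.Agent.Helper922.HB

/-- the projective plane -/
abbrev P2 := ℙ ℂ (Fin 3 → ℂ)

/-- the equation -/
def eqn (t : ℂ) (v : Fin 3 → ℂ) : Prop := v 1 ^ 2 * v 2 = v 0 ^ 3 + t * v 2 ^ 3

theorem eqn_smul (t : ℂ) (v : Fin 3 → ℂ) {a : ℂ} (ha : a ≠ 0) : eqn t (a • v) ↔ eqn t v := by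
  unfold eqn
  simp only [Pi.smul_apply, smul_eq_mul]
  constructor
  · intro h
    have h2 : a ^ 3 ≠ 0 := pow_ne_zero _ ha
    apply mul_left_cancel₀ h2
    linear_combination h
  · intro h
    linear_combination a ^ 3 * h

/-- the total space of the family of cubics -/
def WW : Set (ℂ × P2) := {p | eqn p.1 p.2.rep}

theorem mem_WW (t : ℂ) (v : Fin 3 → ℂ) (hv : v ≠ 0) :
    (t, Projectivization.mk ℂ v hv) ∈ WW ↔ eqn t v := by
  obtain ⟨a, ha, h⟩ := rep_eq v hv
  show eqn t (Projectivization.mk ℂ v hv).rep ↔ _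
  rw [h, eqn_smul t v ha]

/-- the action of `G^m` on vectors -/
noncomputable def dg (m : ℤ) (v : Fin 3 → ℂ) : Fin 3 → ℂ := ![w3 ^ m * v 0, (-1) ^ m * v 1, v 2]

theorem w3_ne : w3 ≠ 0 := by
  intro h
  have := w3_cube
  rw [h] at this
  norm_num at this

theorem dg_zero (v : Fin 3 → ℂ) : dg 0 v = v := by
  funext i
  fin_cases i <;> simp [dg]

theorem dg_add (m n : ℤ) (v : Fin 3 → ℂ) : dg (m + n) v = dg m (dg n v) := by
  funext i
  fin_cases i
  · simp [dg, zpow_add₀ w3_ne, mul_assoc]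
  · simp [dg, zpow_add₀ (show (-1 : ℂ) ≠ 0 by norm_num), mul_assoc]
  · simp [dg]

theorem dg_smul (m : ℤ) (a : ℂ) (v : Fin 3 → ℂ) : dg m (a • v) = a • dg m v := by
  funext i
  fin_cases i
  · simp [dg]; ring
  · simp [dg]; ring
  · simp [dg]

theorem dg_ne (m : ℤ) {v : Fin 3 → ℂ} (hv : v ≠ 0) : dg m v ≠ 0 := by
  intro h
  apply hv
  have h1 : dg (-m) (dg m v) = v := by
    rw [← dg_add]
    simp [dg_zero]
  rw [← h1, h]
  funext i
  fin_cases i <;> simp [dg]

theorem dg_six (v : Fin 3 → ℂ) : dg 6 v = v := by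
  funext i
  fin_cases i
  · have h : w3 ^ (6 : ℤ) = 1 := by
      have h2 : w3 ^ (6 : ℤ) = (w3 ^ 3) ^ 2 := by
        rw [← pow_mul]
        norm_cast
      rw [h2, w3_cube, one_pow]
    simp [dg, h]
  · have h : (-1 : ℂ) ^ (6 : ℤ) = 1 := by norm_num
    simp [dg, h]
  · simp [dg]

theorem eqn_dg (t : ℂ) (m : ℤ) (v : Fin 3 → ℂ) : eqn t (dg m v) ↔ eqn t v := by
  have h1 : (w3 ^ m) ^ 3 = 1 := by
    rw [← zpow_natCast, ← zpow_mul, mul_comm, zpow_mul]
    have : w3 ^ ((3 : ℕ) : ℤ) = 1 := by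
      rw [zpow_natCast, w3_cube]
    rw [this, one_zpow]
  have h2 : ((-1 : ℂ) ^ m) ^ 2 = 1 := by
    rw [← zpow_natCast, ← zpow_mul, mul_comm, zpow_mul]
    norm_num
  unfold eqn dg
  simp only [Matrix.cons_val_zero, Matrix.cons_val_one, Matrix.cons_val]
  rw [mul_pow, mul_pow, h1, h2, one_mul, one_mul]

/-- the action on the projective plane -/
noncomputable def actP (m : ℤ) (P : P2) : P2 :=
  Projectivization.mk ℂ (dg m P.rep) (dg_ne m P.rep_nonzero)

theorem actP_mk (m : ℤ) (v : Fin 3 → ℂ) (hv : v ≠ 0) :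
    actP m (Projectivization.mk ℂ v hv) = Projectivization.mk ℂ (dg m v) (dg_ne m hv) := by
  obtain ⟨a, ha, h⟩ := rep_eq v hv
  apply mk_eq_of_smul _ _ a
  rw [h, dg_smul]

theorem actP_zero (P : P2) : actP 0 P = P := by
  induction P using Projectivization.ind with
  | h v hv =>
    rw [actP_mk]
    exact mk_congr _ _ (dg_zero v)

theorem actP_add (m n : ℤ) (P : P2) : actP (m + n) P = actP m (actP n P) := by
  induction P using Projectivization.ind with
  | h v hv =>
    rw [actP_mk, actP_mk, actP_mk]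
    exact mk_congr _ _ (dg_add m n v)

theorem continuous_dg (m : ℤ) : Continuous (dg m) := by
  unfold dg
  apply continuous_pi
  intro i
  fin_cases i
  · show Continuous fun v : Fin 3 → ℂ => w3 ^ m * v 0
    fun_prop
  · show Continuous fun v : Fin 3 → ℂ => (-1 : ℂ) ^ m * v 1
    fun_prop
  · show Continuous fun v : Fin 3 → ℂ => v 2
    fun_prop

theorem continuous_actP (m : ℤ) : Continuous (actP m) := by
  rw [openQuot_mk.isQuotientMap.continuous_iff]
  have : (actP m) ∘ (fun z : {z : Fin 3 → ℂ // z ≠ 0} => (Projectivization.mk ℂ z.1 z.2 : P2)) =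
      (fun z : {z : Fin 3 → ℂ // z ≠ 0} => (Projectivization.mk ℂ z.1 z.2 : P2)) ∘
      (fun z => ⟨dg m z.1, dg_ne m z.2⟩) := by
    funext z
    exact actP_mk m z.1 z.2
  rw [this]
  exact continuous_mk.comp (((continuous_dg m).comp continuous_subtype_val).subtype_mk _)

theorem actP_mem (m : ℤ) {t : ℂ} {P : P2} (h : (t, P) ∈ WW) : (t, actP m P) ∈ WW := by
  induction P using Projectivization.ind with
  | h v hv =>
    rw [actP_mk, mem_WW, eqn_dg]
    exact (mem_WW t v hv).mp h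

/-- the action on the family -/
noncomputable def actW (m : ℤ) : C(WW, WW) :=
  ⟨fun w => ⟨(w.1.1, actP m w.1.2), actP_mem m w.2⟩, by
    apply Continuous.subtype_mk
    exact (continuous_fst.comp continuous_subtype_val).prodMk
      ((continuous_actP m).comp (continuous_snd.comp continuous_subtype_val))⟩

theorem actW_zero (w : WW) : actW 0 w = w := by
  apply Subtype.ext
  exact Prod.ext rfl (actP_zero _)

theorem actW_add (m n : ℤ) (w : WW) : actW (m + n) w = actW m (actW n w) := by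
  apply Subtype.ext
  exact Prod.ext rfl (actP_add m n _)

/-- ratio of coordinates -/
noncomputable def rat (i j : Fin 3) (P : P2) : ℂ := P.rep i / P.rep j

theorem rat_mk (i j : Fin 3) (v : Fin 3 → ℂ) (hv : v ≠ 0) :
    rat i j (Projectivization.mk ℂ v hv) = v i / v j := by
  obtain ⟨a, ha, h⟩ := rep_eq v hv
  unfold rat
  rw [h]
  simp only [Pi.smul_apply, smul_eq_mul]
  rw [mul_div_mul_left _ _ ha]

theorem rep_ne_iff (j : Fin 3) (v : Fin 3 → ℂ) (hv : v ≠ 0) :
    (Projectivization.mk ℂ v hv : P2).rep j ≠ 0 ↔ v j ≠ 0 := by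
  obtain ⟨a, ha, h⟩ := rep_eq v hv
  rw [h]
  simp only [Pi.smul_apply, smul_eq_mul]
  constructor
  · intro h1 h2
    rw [h2, mul_zero] at h1
    exact h1 rfl
  · intro h1
    exact mul_ne_zero ha h1

theorem isOpen_rep_ne (j : Fin 3) : IsOpen {P : P2 | P.rep j ≠ 0} := by
  rw [isOpen_proj_iff]
  have : {z : {z : Fin 3 → ℂ // z ≠ 0} | Projectivization.mk ℂ z.1 z.2 ∈ {P : P2 | P.rep j ≠ 0}} =
      {z | z.1 j ≠ 0} := by
    ext z
    exact rep_ne_iff j z.1 z.2
  rw [this]
  exact isOpen_ne_fun ((continuous_apply j).comp continuous_subtype_val) continuous_const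

theorem continuousAt_rat (i j : Fin 3) (P : P2) (h : P.rep j ≠ 0) : ContinuousAt (rat i j) P := by
  induction P using Projectivization.ind with
  | h v hv =>
    rw [rep_ne_iff] at h
    have hq := openQuot_mk (ι := Fin 3)
    refine (hq.continuousAt_comp_iff (x := (⟨v, hv⟩ : {v : Fin 3 → ℂ // v ≠ 0}))).mp ?_
    have : (rat i j) ∘ (fun z : {z : Fin 3 → ℂ // z ≠ 0} =>
      (Projectivization.mk ℂ z.1 z.2 : P2)) = fun z => z.1 i / z.1 j := by
      funext z
      exact rat_mk i j z.1 z.2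
    rw [this]
    apply ContinuousAt.div
    · exact ((continuous_apply i).comp continuous_subtype_val).continuousAt
    · exact ((continuous_apply j).comp continuous_subtype_val).continuousAt
    · exact h

theorem continuous_rat {A : Type*} [TopologicalSpace A] {f : A → P2} (hf : Continuous f)
    (i j : Fin 3) (h : ∀ a, (f a).rep j ≠ 0) : Continuous fun a => rat i j (f a) := by
  rw [continuous_iff_continuousAt]
  intro a
  exact (continuousAt_rat i j (f a) (h a)).comp hf.continuousAt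

/-- the affine part -/
def WA : Set WW := {w | w.1.2.rep 2 ≠ 0}

theorem isOpen_WA : IsOpen WA :=
  (isOpen_rep_ne 2).preimage (continuous_snd.comp continuous_subtype_val)

/-- the neighbourhood of infinity -/
def WN : Set WW := {w | w.1.2.rep 1 ≠ 0 ∧ ‖w.1.1‖ * ‖rat 2 1 w.1.2‖ ^ 2 < 1 / 2}

theorem isOpen_WN : IsOpen WN := by
  rw [isOpen_iff_mem_nhds]
  rintro w ⟨h1, h2⟩
  have h3 : {w : WW | w.1.2.rep 1 ≠ 0} ∈ nhds w :=
    ((isOpen_rep_ne 1).preimage (continuous_snd.comp continuous_subtype_val)).mem_nhds h1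
  have h4 : ContinuousAt (fun w : WW => rat 2 1 w.1.2) w :=
    ContinuousAt.comp (f := fun w : WW => w.1.2) (continuousAt_rat 2 1 w.1.2 h1)
      (continuous_snd.comp continuous_subtype_val).continuousAt
  have h6 : ContinuousAt (fun w : WW => w.1.1) w :=
    (continuous_fst.comp continuous_subtype_val).continuousAt
  have h5 : ContinuousAt (fun w : WW => ‖w.1.1‖ * ‖rat 2 1 w.1.2‖ ^ 2) w :=
    h6.norm.mul (h4.norm.pow 2)
  filter_upwards [h3, h5.eventually (gt_mem_nhds h2)] with w' h h'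
  exact ⟨h, h'⟩

theorem cover_W (w : WW) : w ∈ WA ∨ w ∈ WN := by
  obtain ⟨⟨t, P⟩, hw⟩ := w
  induction P using Projectivization.ind with
  | h v hv =>
    rw [mem_WW] at hw
    by_cases h2 : v 2 = 0
    · right
      have h0 : v 0 = 0 := by
        unfold eqn at hw
        rw [h2] at hw
        have : v 0 ^ 3 = 0 := by linear_combination -hw
        exact pow_eq_zero_iff (by norm_num) |>.mp this
      have h1 : v 1 ≠ 0 := by
        intro h1
        apply hv
        funext i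
        fin_cases i
        · exact h0
        · exact h1
        · exact h2
      refine ⟨(rep_ne_iff 1 v hv).mpr h1, ?_⟩
      show ‖t‖ * ‖rat 2 1 (Projectivization.mk ℂ v hv)‖ ^ 2 < 1 / 2
      rw [rat_mk, h2]
      simp
    · left
      exact (rep_ne_iff 2 v hv).mpr h2

/-! ### the affine chart -/

/-- the vector `(x, y, 1)` -/
def va (q : ℂ × ℂ) : Fin 3 → ℂ := ![q.1, q.2, 1]

theorem va_ne (q : ℂ × ℂ) : va q ≠ 0 := by
  intro h
  have := congrFun h 2
  simp [va] at this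

theorem continuous_va : Continuous va := by
  unfold va
  apply continuous_pi
  intro i
  fin_cases i
  · exact continuous_fst
  · exact continuous_snd
  · exact continuous_const

/-- the affine chart -/
noncomputable def gA : C(ℂ × ℂ, WW) :=
  ⟨fun q => ⟨(q.2 ^ 2 - q.1 ^ 3, Projectivization.mk ℂ (va q) (va_ne q)), by
    rw [mem_WW]
    show q.2 ^ 2 * 1 = q.1 ^ 3 + (q.2 ^ 2 - q.1 ^ 3) * 1 ^ 3
    ring⟩, by
    apply Continuous.subtype_mk
    apply Continuous.prodMk (by fun_prop)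
    exact continuous_mk.comp (continuous_va.subtype_mk (fun q => va_ne q))⟩

theorem gA_fst (q : ℂ × ℂ) : (gA q).1.1 = q.2 ^ 2 - q.1 ^ 3 := rfl

theorem gA_mem (q : ℂ × ℂ) : gA q ∈ WA := by
  show (Projectivization.mk ℂ (va q) (va_ne q) : P2).rep 2 ≠ 0
  rw [rep_ne_iff]
  exact one_ne_zero

/-- the affine coordinates -/
noncomputable def fA : C(WA, ℂ × ℂ) :=
  ⟨fun w => (rat 0 2 w.1.1.2, rat 1 2 w.1.1.2), by
    apply Continuous.prodMk
    · exact continuous_rat (by fun_prop) 0 2 (fun w => w.2)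
    · exact continuous_rat (by fun_prop) 1 2 (fun w => w.2)⟩

theorem gA_fA (w : WA) : gA (fA w) = w.1 := by
  obtain ⟨⟨⟨t, P⟩, hw⟩, hA⟩ := w
  induction P using Projectivization.ind with
  | h v hv =>
    have h2 : v 2 ≠ 0 := (rep_ne_iff 2 v hv).mp hA
    rw [mem_WW] at hw
    apply Subtype.ext
    apply Prod.ext
    · show (rat 1 2 (Projectivization.mk ℂ v hv)) ^ 2 -
        (rat 0 2 (Projectivization.mk ℂ v hv)) ^ 3 = t
      rw [rat_mk, rat_mk]
      unfold eqn at hw
      field_simp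
      linear_combination hw
    · show Projectivization.mk ℂ (va (rat 0 2 (Projectivization.mk ℂ v hv),
        rat 1 2 (Projectivization.mk ℂ v hv))) _ = Projectivization.mk ℂ v hv
      apply mk_eq_of_smul _ _ (v 2)⁻¹
      rw [rat_mk, rat_mk]
      funext i
      fin_cases i
      · simp [va, div_eq_inv_mul]
      · simp [va, div_eq_inv_mul]
      · simp [va, h2]

theorem fA_gA (q : ℂ × ℂ) : fA ⟨gA q, gA_mem q⟩ = q := by
  apply Prod.ext
  · show rat 0 2 (Projectivization.mk ℂ (va q) (va_ne q)) = q.1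
    rw [rat_mk]
    simp [va]
  · show rat 1 2 (Projectivization.mk ℂ (va q) (va_ne q)) = q.2
    rw [rat_mk]
    simp [va]

theorem gA_Ga (q : ℂ × ℂ) : gA (Ga q) = actW 1 (gA q) := by
  apply Subtype.ext
  apply Prod.ext
  · show (-q.2) ^ 2 - (w3 * q.1) ^ 3 = q.2 ^ 2 - q.1 ^ 3
    rw [mul_pow, w3_cube]
    ring
  · show Projectivization.mk ℂ (va (Ga q)) _ = actP 1 (Projectivization.mk ℂ (va q) (va_ne q))
    rw [actP_mk]
    apply mk_congr
    funext i
    fin_cases i
    · simp [va, dg, Ga]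
    · simp [va, dg, Ga]
    · simp [va, dg, Ga]

/-- the fibre over `y` -/
def Wy (y : ℂ) : Set WW := {w | w.1.1 = y}

theorem gA_maps (y : ℂ) : Set.MapsTo gA (Mf y) (Wy y) := fun _ h => h

/-! ### the chart at infinity -/

/-- the model -/
def N0 : Set (ℂ × ℂ) := {q | ‖q.2‖ * ‖q.1‖ ^ 6 < 1 / 2}

/-- the vector at infinity -/
noncomputable def vi (q : ℂ × ℂ) : Fin 3 → ℂ := ![q.1 * rt3 (1 - q.2 * q.1 ^ 6), 1, q.1 ^ 3]

theorem vi_ne (q : ℂ × ℂ) : vi q ≠ 0 := by
  intro h
  have := congrFun h 1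
  simp [vi] at this

theorem re_of_norm {x : ℂ} (h : ‖x‖ < 1 / 2) : 1 / 3 < (1 - x).re := by
  rw [Complex.sub_re, Complex.one_re]
  have := Complex.abs_re_le_norm x
  have h2 := abs_le.mp this
  linarith [h2.2]

theorem N0_re {q : ℂ × ℂ} (h : q ∈ N0) : 1 / 3 < (1 - q.2 * q.1 ^ 6).re := by
  apply re_of_norm
  rw [norm_mul, norm_pow]
  exact h

theorem continuousOn_vi : Continuous fun q : N0 => vi q.1 := by
  unfold vi
  apply continuous_pi
  intro i
  fin_cases i
  · show Continuous fun q : N0 => q.1.1 * rt3 (1 - q.1.2 * q.1.1 ^ 6)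
    exact (by fun_prop : Continuous fun q : N0 => q.1.1).mul
      (continuous_rt3 (by fun_prop) (fun q => slit_of_re (N0_re q.2)))
  · exact continuous_const
  · show Continuous fun q : N0 => q.1.1 ^ 3
    fun_prop

theorem eqn_vi (q : ℂ × ℂ) : eqn q.2 (vi q) := by
  unfold eqn vi
  simp only [Matrix.cons_val_zero, Matrix.cons_val_one, Matrix.cons_val]
  rw [mul_pow, rt3_cube]
  ring

/-- the chart at infinity -/
noncomputable def gI : C(N0, WW) :=
  ⟨fun q => ⟨(q.1.2, Projectivization.mk ℂ (vi q.1) (vi_ne q.1)), by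
    rw [mem_WW]
    exact eqn_vi q.1⟩, by
    apply Continuous.subtype_mk
    apply Continuous.prodMk (by fun_prop)
    exact continuous_mk.comp (continuousOn_vi.subtype_mk (fun q => vi_ne q.1))⟩

theorem gI_mem (q : N0) : gI q ∈ WN := by
  constructor
  · show (Projectivization.mk ℂ (vi q.1) (vi_ne q.1) : P2).rep 1 ≠ 0
    rw [rep_ne_iff]
    exact one_ne_zero
  · show ‖q.1.2‖ * ‖rat 2 1 (Projectivization.mk ℂ (vi q.1) (vi_ne q.1))‖ ^ 2 < 1 / 2
    rw [rat_mk]
    have h : vi q.1 2 / vi q.1 1 = q.1.1 ^ 3 := by simp [vi]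
    rw [h, norm_pow, ← pow_mul]
    exact q.2

/-- the coordinate at infinity -/
noncomputable def xi (w : WW) : ℂ := rat 0 1 w.1.2 / rt3 (1 - w.1.1 * rat 2 1 w.1.2 ^ 2)

theorem WN_re {w : WW} (h : w ∈ WN) : 1 / 3 < (1 - w.1.1 * rat 2 1 w.1.2 ^ 2).re := by
  apply re_of_norm
  rw [norm_mul, norm_pow]
  exact h.2

theorem xi_cube {w : WW} (h : w ∈ WN) : xi w ^ 3 = rat 2 1 w.1.2 := by
  have hre := ne_of_re (WN_re h)
  unfold xi
  rw [div_pow, rt3_cube, div_eq_iff hre]
  obtain ⟨⟨t, P⟩, hw⟩ := w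
  induction P using Projectivization.ind with
  | h v hv =>
    rw [mem_WW] at hw
    have h1 : v 1 ≠ 0 := (rep_ne_iff 1 v hv).mp h.1
    simp only [rat_mk]
    unfold eqn at hw
    field_simp
    linear_combination -hw

theorem xi_mem {w : WW} (h : w ∈ WN) : (xi w, w.1.1) ∈ N0 := by
  show ‖w.1.1‖ * ‖xi w‖ ^ 6 < 1 / 2
  have h1 : ‖xi w‖ ^ 6 = ‖rat 2 1 w.1.2‖ ^ 2 := by
    rw [← xi_cube h, norm_pow, ← pow_mul]
  rw [h1]
  exact h.2

theorem continuous_xi {A : Type*} [TopologicalSpace A] {f : A → WW} (hf : Continuous f)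
    (h : ∀ a, f a ∈ WN) : Continuous fun a => xi (f a) := by
  unfold xi
  have h2 : Continuous fun a => (f a).1.2 := by fun_prop
  apply Continuous.div
  · exact continuous_rat h2 0 1 (fun a => (h a).1)
  · apply continuous_rt3 _ (fun a => slit_of_re (WN_re (h a)))
    have h1 : Continuous fun a => rat 2 1 (f a).1.2 := continuous_rat h2 2 1 (fun a => (h a).1)
    fun_prop
  · intro a
    exact rt3_ne (ne_of_re (WN_re (h a)))

theorem gI_xi {w : WW} (h : w ∈ WN) : gI ⟨(xi w, w.1.1), xi_mem h⟩ = w := by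
  have hre := ne_of_re (WN_re h)
  have h3 := xi_cube h
  obtain ⟨⟨t, P⟩, hw⟩ := w
  induction P using Projectivization.ind with
  | h v hv =>
    have h1 : v 1 ≠ 0 := (rep_ne_iff 1 v hv).mp h.1
    apply Subtype.ext
    apply Prod.ext
    · rfl
    · show Projectivization.mk ℂ (vi (xi _, t)) _ = Projectivization.mk ℂ v hv
      apply mk_eq_of_smul _ _ (v 1)⁻¹
      have h6 : ∀ x : ℂ, x ^ 6 = (x ^ 3) ^ 2 := fun x => by ring
      have h7 : xi ⟨(t, Projectivization.mk ℂ v hv), hw⟩ *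
          rt3 (1 - t * xi ⟨(t, Projectivization.mk ℂ v hv), hw⟩ ^ 6) = v 0 / v 1 := by
        rw [h6, h3]
        show rat 0 1 (Projectivization.mk ℂ v hv) / rt3 (1 - t * rat 2 1 (Projectivization.mk ℂ v hv) ^ 2)
          * rt3 (1 - t * rat 2 1 (Projectivization.mk ℂ v hv) ^ 2) = _
        rw [div_mul_cancel₀ _ (rt3_ne hre), rat_mk]
      funext i
      fin_cases i
      · show xi _ * rt3 (1 - t * xi _ ^ 6) = (v 1)⁻¹ * v 0
        rw [h7, div_eq_inv_mul]
      · show (1 : ℂ) = (v 1)⁻¹ * v 1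
        rw [inv_mul_cancel₀ h1]
      · show xi _ ^ 3 = (v 1)⁻¹ * v 2
        rw [h3]
        show rat 2 1 (Projectivization.mk ℂ v hv) = _
        rw [rat_mk, div_eq_inv_mul]

theorem xi_gI (q : N0) : xi (gI q) = q.1.1 := by
  show rat 0 1 (Projectivization.mk ℂ (vi q.1) (vi_ne q.1)) /
    rt3 (1 - q.1.2 * rat 2 1 (Projectivization.mk ℂ (vi q.1) (vi_ne q.1)) ^ 2) = q.1.1
  rw [rat_mk, rat_mk]
  have h1 : vi q.1 0 / vi q.1 1 = q.1.1 * rt3 (1 - q.1.2 * q.1.1 ^ 6) := by simp [vi]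
  have h2 : vi q.1 2 / vi q.1 1 = q.1.1 ^ 3 := by simp [vi]
  rw [h1, h2, ← pow_mul]
  exact mul_div_cancel_right₀ _ (rt3_ne (ne_of_re (N0_re q.2)))

end Pool.Agent.R866.TF
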